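import Pool.Agent.Lib.H90S.X8

/-!
H90S, X9: Lemma X for endomorphisms.
-/

noncomputable section

namespace Pool.Agent.Lib.H90S

/-- The rank of the matrix of `a` in a basis. -/
private lemma X9_rank {k V ι : Type*} [Field k] [AddCommGroup V] [Module k V] [FiniteDimensional k V] [Fintype ι] [DecidableEq ι]
    (b : Module.Basis ι k V) (a : Module.End k V) : (LinearMap.toMatrixAlgEquiv b a).rank = Module.finrank k (LinearMap.range a) := by
  have h1 : LinearMap.toMatrixAlgEquiv b a = LinearMap.toMatrix b b a := rfl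
  rw [h1]
  rw [Matrix.rank_eq_finrank_range_toLin (LinearMap.toMatrix b b a) b b, Matrix.toLin_toMatrix]

/-- Lemma X. Choose a basis (`Module.finBasis k V`), transport along `LinearMap.toMatrixAlgEquiv`; `Matrix.rank` of the matrix of `a` is `finrank (range a)`, and `finrank ker + finrank range = finrank V` turns `h1` into the rank condition; `Fintype` structures from `Finite`
(`Fintype.ofFinite`), `Z` as a finset (`Set.toFinite Z`). -/
theorem lemmaX {p : ℕ} [Fact p.Prime] {k : Type*} [Field k] [CharP k p] {P Γ : Type*} [CommGroup P] [Finite P] [Group Γ] [Finite Γ]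
    (π : Γ →* MulAut P) {V : Type*} [AddCommGroup V] [Module k V] [FiniteDimensional k V]
    (ρ : P →* Module.End k V) (hP : ∀ u : P, ρ u ^ p = 1) (σ : Γ →* Module.End k V) (hσ : ∀ g u, σ g * ρ u = ρ (π g u) * σ g) (Z : Set P) (hZ : ∀ z ∈ Z, ∀ g, π g z ∈ Z)
    (h1 : ∀ z ∈ Z, Module.finrank k (LinearMap.ker (ρ z - 1)) = Module.finrank k (LinearMap.range ((ρ z - 1) ^ (p - 1))) + 1) :
    ∃ f : Γ →* kˣ, ∀ z ∈ Z, ∀ g : Γ, π g z = z → ∀ v : V, ρ z v = v → σ g v - (f g : k) • v ∈ LinearMap.range ((ρ z - 1) ^ (p - 1)) := by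
  classical
  have := Fintype.ofFinite P
  have := Fintype.ofFinite Γ
  have b := Module.finBasis k V
  let e := LinearMap.toMatrixAlgEquiv b
  let ρ' : P →* Matrix (Fin (Module.finrank k V)) (Fin (Module.finrank k V)) k := (e : Module.End k V →* _).comp ρ
  let σ' : Γ →* Matrix (Fin (Module.finrank k V)) (Fin (Module.finrank k V)) k := (e : Module.End k V →* _).comp σ
  have hρ' : ∀ u, ρ' u = e (ρ u) := fun u => rfl
  have hσ' : ∀ u, σ' u = e (σ u) := fun u => rfl
  obtain ⟨f, hf⟩ := X8_matrix (p := p) π ρ' (fun u => by rw [hρ', ← map_pow, hP, map_one]) σ'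
    (fun g u => by rw [hρ', hρ', hσ', ← map_mul, hσ, map_mul]) (Z := (Set.toFinite Z).toFinset)
    (fun z hz g => by
      rw [Set.Finite.mem_toFinset] at hz ⊢
      exact hZ z hz g)
    (fun z hz => by
      rw [Set.Finite.mem_toFinset] at hz
      have h2 := h1 z hz
      have h3 := LinearMap.finrank_range_add_finrank_ker (ρ z - 1)
      have h4 : ρ' z - 1 = e (ρ z - 1) := by rw [hρ', map_sub, map_one]
      rw [h4, ← map_pow, X9_rank b, X9_rank b, Fintype.card_fin]
      omega)
  refine ⟨f, fun z hz g hg v hv => ?_⟩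
  have hrepr : ∀ (a : Module.End k V) (v : V), (e a).mulVec (b.repr v) = b.repr (a v) := fun a v =>
    LinearMap.toMatrix_mulVec_repr b b a v
  obtain ⟨y, hy⟩ := hf z ((Set.Finite.mem_toFinset _).2 hz) g hg (b.repr v) (by rw [hρ', hrepr, hv])
  refine ⟨b.equivFun.symm y, ?_⟩
  apply b.repr.injective
  refine DFunLike.coe_injective ?_
  have h4 : ρ' z - 1 = e (ρ z - 1) := by rw [hρ', map_sub, map_one]
  have h5 : (b.repr (b.equivFun.symm y) : Fin (Module.finrank k V) → k) = y := by
    have := b.equivFun.apply_symm_apply y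
    rwa [Module.Basis.equivFun_apply] at this
  rw [← hrepr, h5, map_pow, ← h4, ← hy, hσ', hrepr, map_sub, map_smul]
  rfl

end Pool.Agent.Lib.H90S
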