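import Pool.Agent.Lib.H90S.Defs

/-!
H90S, S1: Maschke and Schur over a field `k` in which the group order is invertible.
-/

open scoped Classical BigOperators

noncomputable section

namespace Pool.Agent.Lib.H90S

variable {k V W : Type*} [Field k] [AddCommGroup V] [Module k V] [FiniteDimensional k V] [AddCommGroup W] [Module k W] [FiniteDimensional k W]

/-- Maschke for a stable subspace `U1` of a stable subspace `U2`. Take a linear projection `q` of `V` onto `U1` (`Submodule.exists_isCompl`, `Submodule.linearProjOfIsCompl` composed with the inclusion), average: `π = (card D)⁻¹ • ∑ d, τ d * q * τ d⁻¹`; it maps into `U1`, is the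
identity on `U1` and commutes with `τ`; `Y = ker π ⊓ U2`. -/
theorem S1_maschke {D : Type*} [Group D] [Fintype D] (τ : D →* Module.End k V) (hD : (Nat.card D : k) ≠ 0) {U1 U2 : Submodule k V} (h : U1 ≤ U2)
    (h1 : ∀ d, ∀ v ∈ U1, τ d v ∈ U1) (h2 : ∀ d, ∀ v ∈ U2, τ d v ∈ U2) :
    ∃ Y : Submodule k V, (∀ d, ∀ v ∈ Y, τ d v ∈ Y) ∧ Disjoint Y U1 ∧ Y ⊔ U1 = U2 := by
  obtain ⟨g, hg⟩ := LinearMap.exists_leftInverse_of_injective U1.subtype U1.ker_subtype
  obtain ⟨q, hq⟩ : ∃ q : Module.End k V, q = U1.subtype ∘ₗ g := ⟨_, rfl⟩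
  have hqU : ∀ v, q v ∈ U1 := by
    intro v
    rw [hq]
    exact (g v).2
  have hqu : ∀ v ∈ U1, q v = v := by
    intro v hv
    have h3 := LinearMap.congr_fun hg ⟨v, hv⟩
    rw [hq]
    exact congrArg Subtype.val h3
  obtain ⟨P, hP⟩ : ∃ P : Module.End k V, P = ∑ d : D, τ d * q * τ d⁻¹ := ⟨_, rfl⟩
  obtain ⟨π, hπ⟩ : ∃ π : Module.End k V, π = (Nat.card D : k)⁻¹ • P := ⟨_, rfl⟩
  have hPv : ∀ v, P v = ∑ d : D, τ d (q (τ d⁻¹ v)) := by
    intro v
    rw [hP, LinearMap.sum_apply]
    rfl
  have hπU : ∀ v, π v ∈ U1 := by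
    intro v
    rw [hπ, LinearMap.smul_apply, hPv]
    exact U1.smul_mem _ (U1.sum_mem fun d _ => h1 d _ (hqU _))
  have hττ : ∀ (d : D) (v : V), τ d (τ d⁻¹ v) = v := by
    intro d v
    have h3 : τ d * τ d⁻¹ = 1 := by rw [← map_mul, mul_inv_cancel, map_one]
    exact LinearMap.congr_fun h3 v
  have hπu : ∀ v ∈ U1, π v = v := by
    intro v hv
    have h3 : P v = (Nat.card D : k) • v := by
      rw [hPv]
      have h4 : ∀ d ∈ (Finset.univ : Finset D), τ d (q (τ d⁻¹ v)) = v := by
        intro d _
        rw [hqu _ (h1 d⁻¹ v hv), hττ]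
      rw [Finset.sum_congr rfl h4, Finset.sum_const, Finset.card_univ, Nat.card_eq_fintype_card,
        Nat.cast_smul_eq_nsmul]
    rw [hπ, LinearMap.smul_apply, h3, smul_smul, inv_mul_cancel₀ hD, one_smul]
  have hcomm : ∀ e, P * τ e = τ e * P := by
    intro e
    rw [hP, Finset.sum_mul, Finset.mul_sum]
    refine (Fintype.sum_equiv (Equiv.mulLeft e) _ _ fun d => ?_).symm
    rw [Equiv.coe_mulLeft, mul_inv_rev, map_mul, map_mul]
    have h3 : τ e⁻¹ * τ e = 1 := by rw [← map_mul, inv_mul_cancel, map_one]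
    rw [mul_assoc (τ e * τ d * q), mul_assoc (τ d⁻¹), h3, mul_one]
    simp only [mul_assoc]
  have hπe : ∀ e v, π (τ e v) = τ e (π v) := by
    intro e v
    have h3 := LinearMap.congr_fun (hcomm e) v
    rw [hπ, LinearMap.smul_apply, LinearMap.smul_apply, map_smul]
    exact congrArg _ h3
  refine ⟨LinearMap.ker π ⊓ U2, ?_, ?_, ?_⟩
  · rintro d v ⟨hv1, hv2⟩
    refine ⟨?_, h2 d v hv2⟩
    have hv1' : π v = 0 := hv1
    show π (τ d v) = 0
    rw [hπe, hv1', map_zero]
  · rw [Submodule.disjoint_def]
    rintro v ⟨hv1, _⟩ hv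
    have hv1' : π v = 0 := hv1
    rw [hπu v hv] at hv1'
    exact hv1'
  · refine le_antisymm (sup_le inf_le_right h) fun v hv => ?_
    have h3 : v = (v - π v) + π v := by abel
    rw [h3]
    refine Submodule.add_mem_sup ⟨?_, U2.sub_mem hv (h (hπU v))⟩ (hπU v)
    show π (v - π v) = 0
    rw [map_sub, hπu _ (hπU v), sub_self]

/-- Schur: an endomorphism commuting with a spanning set of operators is a scalar. It commutes with every endomorphism (span induction), in particular with rank one maps, so every vector is an eigenvector (`LinearMap.exists_eq_smul_id_of_forall_notLinearIndependent`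
or `Module.End.mem_center`-type lemma). -/
theorem S1_scalar {B : Type*} [Group B] (ρ : B →* Module.End k V) {A : Set B} (hA : Full ρ A) {y : Module.End k V} (hy : ∀ a ∈ A, y * ρ a = ρ a * y) :
    ∃ c : k, y = c • (1 : Module.End k V) := by
  have h1 : ∀ b : Module.End k V, b * y = y * b := by
    intro b
    have hb : b ∈ Submodule.span k (ρ '' A) := by
      have hA' : Submodule.span k (ρ '' A) = ⊤ := hA
      rw [hA']
      exact Submodule.mem_top
    induction hb using Submodule.span_induction with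
    | mem x hx =>
      obtain ⟨a, ha, rfl⟩ := hx
      exact (hy a ha).symm
    | zero => rw [zero_mul, mul_zero]
    | add x z _ _ h2 h3 => rw [add_mul, mul_add, h2, h3]
    | smul c x _ h2 => rw [smul_mul_assoc, mul_smul_comm, h2]
  have h2 : y ∈ Subalgebra.center k (Module.End k V) := Subalgebra.mem_center_iff.2 h1
  obtain ⟨c, hc⟩ := Algebra.IsCentral.mem_center_iff k |>.1 h2
  refine ⟨c, ?_⟩
  rw [hc, Algebra.algebraMap_eq_smul_one]

/-- The average: `∑ l ∈ L, ρ l * y * ρ l⁻¹` commutes with `ρ l`, so it is a scalar `c`; the trace gives `c * dim V = card L * tr y`. -/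
theorem S1_average {B : Type*} [Group B] [Fintype B] (ρ : B →* Module.End k V) (L : Subgroup B) (hL : Full ρ (L : Set B)) (hd : (Module.finrank k V : k) ≠ 0)
    (y : Module.End k V) :
    (∑ l : B, if l ∈ L then ρ l * y * ρ l⁻¹ else 0) = ((Nat.card L : k) * LinearMap.trace k V y * (Module.finrank k V : k)⁻¹) • (1 : Module.End k V) := by
  obtain ⟨z, hz⟩ : ∃ z : Module.End k V, z = ∑ l : B, if l ∈ L then ρ l * y * ρ l⁻¹ else 0 :=
    ⟨_, rfl⟩
  rw [← hz]
  have hcomm : ∀ a ∈ (L : Set B), z * ρ a = ρ a * z := by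
    intro a ha
    rw [hz, Finset.sum_mul, Finset.mul_sum]
    refine (Fintype.sum_equiv (Equiv.mulLeft a) _ _ fun l => ?_).symm
    rw [Equiv.coe_mulLeft, L.mul_mem_cancel_left ha]
    by_cases hl : l ∈ L
    · rw [if_pos hl, if_pos hl, mul_inv_rev, map_mul, map_mul]
      have h3 : ρ a⁻¹ * ρ a = 1 := by rw [← map_mul, inv_mul_cancel, map_one]
      rw [mul_assoc (ρ a * ρ l * y), mul_assoc (ρ l⁻¹), h3, mul_one]
      simp only [mul_assoc]
    · rw [if_neg hl, if_neg hl, mul_zero, zero_mul]
  obtain ⟨c, hc⟩ := S1_scalar ρ hL hcomm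
  have htr : LinearMap.trace k V z = (Nat.card L : k) * LinearMap.trace k V y := by
    rw [hz, map_sum]
    have h1 : ∀ l ∈ (Finset.univ : Finset B), LinearMap.trace k V (if l ∈ L then ρ l * y * ρ l⁻¹ else 0) =
        if l ∈ L then LinearMap.trace k V y else 0 := by
      intro l _
      by_cases hl : l ∈ L
      · rw [if_pos hl, if_pos hl, LinearMap.trace_mul_comm, ← mul_assoc, ← map_mul,
          inv_mul_cancel, map_one, one_mul]
      · rw [if_neg hl, if_neg hl, map_zero]
    rw [Finset.sum_congr rfl h1, ← Finset.sum_filter, Finset.sum_const, nsmul_eq_mul]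
    congr 2
    rw [Nat.card_eq_fintype_card, Fintype.card_subtype]
  rw [hc, map_smul, LinearMap.trace_one, smul_eq_mul] at htr
  rw [hc, ← htr, mul_assoc, mul_inv_cancel₀ hd, mul_one]

/-- a rank one map -/
private theorem S1b_rankone {B : Type*} [Group B] [Fintype B] (ρ : B →* Module.End k V) (L : Subgroup B)
    (hL : Full ρ (L : Set B)) (hd : (Module.finrank k V : k) ≠ 0) (lam : Module.Dual k V) (v w : V) :
    (∑ l : B, if l ∈ L then lam (ρ l⁻¹ w) • ρ l v else 0) =
      ((Nat.card L : k) * lam v * (Module.finrank k V : k)⁻¹) • w := by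
  have h := congrArg (fun f : Module.End k V => f w) (S1_average ρ L hL hd (lam.smulRight v))
  simp only [LinearMap.trace_smulRight, LinearMap.smul_apply, Module.End.one_apply] at h
  rw [← h, LinearMap.sum_apply]
  refine Finset.sum_congr rfl fun l _ => ?_
  by_cases hl : l ∈ L
  · simp only [hl, if_true, Module.End.mul_apply, LinearMap.smulRight_apply, map_smul]
  · simp only [hl, if_false, LinearMap.zero_apply]

private theorem S1b_formula_rankone {B : Type*} [Group B] [Fintype B] (ρ : B →* Module.End k V) (L : Subgroup B)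
    (hL : Full ρ (L : Set B)) (hLp : (Nat.card L : k) ≠ 0)
    (hd : (Module.finrank k V : k) ≠ 0) (lam : Module.Dual k V) (w : V) :
    (lam.smulRight w : Module.End k V) = ((Module.finrank k V : k) * (Nat.card L : k)⁻¹) •
      ∑ l : B, if l ∈ L then LinearMap.trace k V ((lam.smulRight w : Module.End k V) * ρ l⁻¹) • ρ l else 0 := by
  ext v
  have h := S1b_rankone ρ L hL hd lam v w
  have h2 : (∑ l : B, if l ∈ L then
      LinearMap.trace k V ((lam.smulRight w : Module.End k V) * ρ l⁻¹) • ρ l else 0) v =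
      ∑ l : B, if l ∈ L then lam (ρ l⁻¹ w) • ρ l v else 0 := by
    rw [LinearMap.sum_apply]
    refine Finset.sum_congr rfl fun l _ => ?_
    by_cases hl : l ∈ L
    · simp only [hl, if_true, LinearMap.smul_apply]
      congr 1
      have h3 : ((lam.smulRight w : Module.End k V) * ρ l⁻¹) =
          ((lam ∘ₗ (ρ l⁻¹ : V →ₗ[k] V)).smulRight w : Module.End k V) := by
        ext u
        simp [Module.End.mul_apply]
      rw [h3, LinearMap.trace_smulRight]
      rfl
    · simp only [hl, if_false, LinearMap.zero_apply]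
  rw [LinearMap.smul_apply, h2, h, LinearMap.smulRight_apply, smul_smul]
  congr 1
  field_simp

/-- Schur's formula. Both sides are linear in `a`, so it is enough to take `a` of rank one, `a v = λ v • w` (`LinearMap.smulRight`; rank one maps span: write `a = ∑ i, (b.coord i).smulRight (a (b i))` for a basis `b`). Then
`trace (a * ρ l⁻¹) = λ (ρ l⁻¹ w)`, and `∑ l, λ (ρ l⁻¹ w) • ρ l v` is `(∑ l, ρ l * y * ρ l⁻¹) w` for the rank one map `y u = λ u • v`, which by `S1_average` is `(card L * λ v / dim V) • w`. -/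
theorem S1_formula {B : Type*} [Group B] [Fintype B] (ρ : B →* Module.End k V) (L : Subgroup B) (hL : Full ρ (L : Set B)) (hLp : (Nat.card L : k) ≠ 0)
    (hd : (Module.finrank k V : k) ≠ 0) (a : Module.End k V) :
    a = ((Module.finrank k V : k) * (Nat.card L : k)⁻¹) • ∑ l : B, if l ∈ L then LinearMap.trace k V (a * ρ l⁻¹) • ρ l else 0 := by
  have hlin : ∀ a : Module.End k V, ((Module.finrank k V : k) * (Nat.card L : k)⁻¹) •
      (∑ l : B, if l ∈ L then LinearMap.trace k V (a * ρ l⁻¹) • ρ l else 0) =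
      ((Module.finrank k V : k) * (Nat.card L : k)⁻¹) •
      (∑ l : B, (if l ∈ L then LinearMap.trace k V (a * ρ l⁻¹) else 0) • ρ l) := by
    intro a
    congr 1
    refine Finset.sum_congr rfl fun l _ => ?_
    by_cases hl : l ∈ L
    · simp only [hl, if_true]
    · simp only [hl, if_false, zero_smul]
  let b := Module.finBasis k V
  have hsum : a = ∑ i, ((b.coord i).smulRight (a (b i)) : Module.End k V) := by
    refine b.ext fun j => ?_
    rw [LinearMap.sum_apply, Finset.sum_eq_single j]
    · simp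
    · intro i _ hij
      simp [Ne.symm hij]
    · intro h
      exact absurd (Finset.mem_univ j) h
  rw [hlin a]
  have hF : ∀ i, ((b.coord i).smulRight (a (b i)) : Module.End k V) =
      ((Module.finrank k V : k) * (Nat.card L : k)⁻¹) •
      (∑ l : B, (if l ∈ L then LinearMap.trace k V
        (((b.coord i).smulRight (a (b i)) : Module.End k V) * ρ l⁻¹) else 0) • ρ l) := by
    intro i
    rw [← hlin]
    exact S1b_formula_rankone ρ L hL hLp hd (b.coord i) (a (b i))
  conv_lhs => rw [hsum]
  rw [Finset.sum_congr rfl fun i _ => hF i, ← Finset.smul_sum, Finset.sum_comm]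
  congr 1
  refine Finset.sum_congr rfl fun l _ => ?_
  rw [← Finset.sum_smul]
  congr 1
  by_cases hl : l ∈ L
  · simp only [hl, if_true]
    rw [← map_sum, ← Finset.sum_mul, ← hsum]
  · simp only [hl, if_false, Finset.sum_const_zero]

/-- a nonzero subspace stable under a spanning set of operators is everything -/
private theorem S1b_top {C : Type*} [Group C] (τ : C →* Module.End k V) (h1 : Full τ Set.univ)
    (U : Submodule k V) (hU : ∀ c, ∀ v ∈ U, τ c v ∈ U) (hne : U ≠ ⊥) : U = ⊤ := by
  have hall : ∀ f : Module.End k V, ∀ v ∈ U, f v ∈ U := by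
    intro f
    have hf : f ∈ Submodule.span k (τ '' Set.univ) := by
      have : Submodule.span k (τ '' Set.univ) = ⊤ := h1
      rw [this]
      exact Submodule.mem_top
    induction hf using Submodule.span_induction with
    | mem x hx =>
      obtain ⟨c, _, rfl⟩ := hx
      exact hU c
    | zero =>
      intro v _
      simp
    | add x y _ _ hx hy =>
      intro v hv
      rw [LinearMap.add_apply]
      exact U.add_mem (hx v hv) (hy v hv)
    | smul r x _ hx =>
      intro v hv
      rw [LinearMap.smul_apply]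
      exact U.smul_mem r (hx v hv)
  obtain ⟨v, hv, hv0⟩ := (Submodule.ne_bot_iff U).1 hne
  have hex : ∃ μ : Module.Dual k V, μ v ≠ 0 := by
    by_contra hcon
    push Not at hcon
    exact hv0 ((Module.forall_dual_apply_eq_zero_iff k v).1 hcon)
  obtain ⟨μ, hμ⟩ := hex
  rw [eq_top_iff]
  intro w _
  have h2 := hall ((μ.smulRight ((μ v)⁻¹ • w) : Module.End k V)) v hv
  rw [LinearMap.smulRight_apply, smul_smul, mul_inv_cancel₀ hμ, one_smul] at h2
  exact h2

omit [FiniteDimensional k V] in
private theorem S1b_trace {ι : Type*} [Fintype ι] (b : Module.Basis ι k V) (f : Module.End k V) :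
    LinearMap.trace k V f = ∑ i, b.coord i (f (b i)) := by
  classical
  rw [LinearMap.trace_eq_matrix_trace k b, Matrix.trace]
  refine Finset.sum_congr rfl fun i _ => ?_
  rw [Matrix.diag_apply, LinearMap.toMatrix_apply]
  rfl

private theorem S1b_norm {C : Type*} [Group C] [Fintype C] (τ : C →* Module.End k V)
    (h1 : Full τ Set.univ) (hdV : (Module.finrank k V : k) ≠ 0) :
    ∑ c : C, LinearMap.trace k V (τ c⁻¹) * LinearMap.trace k V (τ c) = (Nat.card C : k) := by
  let b := Module.finBasis k V
  have hT : Full τ ((⊤ : Subgroup C) : Set C) := by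
    rw [Subgroup.coe_top]
    exact h1
  have key : ∀ i j, ∑ c : C, b.coord j (τ c⁻¹ (b j)) * b.coord i (τ c (b i)) =
      if i = j then (Nat.card C : k) * (Module.finrank k V : k)⁻¹ else 0 := by
    intro i j
    have h := S1b_rankone τ ⊤ hT hdV (b.coord j) (b i) (b j)
    have hc : Nat.card (⊤ : Subgroup C) = Nat.card C := Nat.card_congr Subgroup.topEquiv.toEquiv
    rw [hc] at h
    simp only [Subgroup.mem_top, if_true] at h
    have h2 := congrArg (b.coord i) h
    rw [map_sum, map_smul] at h2
    simp only [map_smul, smul_eq_mul] at h2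
    rw [h2]
    by_cases hij : i = j
    · subst hij
      simp
    · simp [Finsupp.single_apply, hij]
  have h3 : ∀ c : C, LinearMap.trace k V (τ c⁻¹) * LinearMap.trace k V (τ c) =
      ∑ i, ∑ j, b.coord j (τ c⁻¹ (b j)) * b.coord i (τ c (b i)) := by
    intro c
    rw [S1b_trace b, S1b_trace b, Finset.sum_mul_sum, Finset.sum_comm]
  rw [Finset.sum_congr rfl fun c _ => h3 c, Finset.sum_comm]
  have h4 : ∀ i, ∑ c : C, ∑ j, b.coord j (τ c⁻¹ (b j)) * b.coord i (τ c (b i)) =
      (Nat.card C : k) * (Module.finrank k V : k)⁻¹ := by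
    intro i
    rw [Finset.sum_comm, Finset.sum_congr rfl fun j _ => key i j]
    simp
  rw [Finset.sum_congr rfl fun i _ => h4 i, Finset.sum_const, Finset.card_univ, Fintype.card_fin,
    nsmul_eq_mul]
  field_simp

/-- Two absolutely irreducible representations with proportional traces are isomorphic. Suppose every `C`-map `W → V` is zero. For every linear `m : W → V` the map `∑ c, τ c ∘ m ∘ σ c⁻¹` is a `C`-map, so it is `0`; with `m = (μ).smulRight v` and sums over bases:
`∑ c, trace (σ c⁻¹) * trace (τ c) = 0`, hence (multiply by `b`) `a * ∑ c, trace (τ c⁻¹) * trace (τ c) = 0`. But `∑ c, trace (τ c⁻¹) * trace (τ c) = card C` by `S1_average` (for `y` the matrix units). Contradiction, `card C ≠ 0` in `k`. So there is a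
`C`-map `φ ≠ 0`; its kernel is stable under all endomorphisms of `W` (`Full`), so it is `0`, its range is stable under all endomorphisms of `V`, so it is everything. -/
theorem S1_iso {C : Type*} [Group C] [Fintype C] (τ : C →* Module.End k V) (σ : C →* Module.End k W) (hC : (Nat.card C : k) ≠ 0)
    (h1 : Full τ Set.univ) (h2 : Full σ Set.univ) (hdV : (Module.finrank k V : k) ≠ 0) {a b : k} (ha : a ≠ 0)
    (h : ∀ c, a * LinearMap.trace k V (τ c) = b * LinearMap.trace k W (σ c)) :
    ∃ φ : W ≃ₗ[k] V, ∀ c w, φ (σ c w) = τ c (φ w) := by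
  have hex : ∃ φ : W →ₗ[k] V, φ ≠ 0 ∧ ∀ c w, φ (σ c w) = τ c (φ w) := by
    by_contra hcon
    push Not at hcon
    have hz : ∀ φ : W →ₗ[k] V, (∀ c w, φ (σ c w) = τ c (φ w)) → φ = 0 := by
      intro φ hφ
      by_contra hne
      obtain ⟨c, w, hcw⟩ := hcon φ hne
      exact hcw (hφ c w)
    have havg : ∀ m : W →ₗ[k] V,
        ∑ c : C, (τ c : V →ₗ[k] V) ∘ₗ m ∘ₗ (σ c⁻¹ : W →ₗ[k] W) = 0 := by
      intro m
      refine hz _ fun d w => ?_
      rw [LinearMap.sum_apply, LinearMap.sum_apply, map_sum]
      refine Fintype.sum_equiv (Equiv.mulLeft d⁻¹) _ _ fun c => ?_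
      simp only [LinearMap.comp_apply, Equiv.coe_mulLeft]
      have e1 : σ c⁻¹ (σ d w) = σ (d⁻¹ * c)⁻¹ w := by
        rw [← Module.End.mul_apply, ← map_mul]
        congr 2
        group
      have e2 : ∀ v : V, τ d (τ (d⁻¹ * c) v) = τ c v := by
        intro v
        rw [← Module.End.mul_apply, ← map_mul]
        congr 2
        group
      rw [e1, e2]
    let bV := Module.finBasis k V
    let bW := Module.finBasis k W
    have hsum0 : ∑ c : C, LinearMap.trace k W (σ c⁻¹) * LinearMap.trace k V (τ c) = 0 := by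
      have h3 : ∀ c : C, LinearMap.trace k W (σ c⁻¹) * LinearMap.trace k V (τ c) =
          ∑ j, ∑ i, bW.coord j (σ c⁻¹ (bW j)) * bV.coord i (τ c (bV i)) := by
        intro c
        rw [S1b_trace bW, S1b_trace bV, Finset.sum_mul_sum]
      rw [Finset.sum_congr rfl fun c _ => h3 c, Finset.sum_comm]
      refine Finset.sum_eq_zero fun j _ => ?_
      rw [Finset.sum_comm]
      refine Finset.sum_eq_zero fun i _ => ?_
      have h4 := congrArg (fun f : W →ₗ[k] V => bV.coord i (f (bW j)))
        (havg ((bW.coord j).smulRight (bV i)))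
      simp only [LinearMap.zero_apply, map_zero, LinearMap.sum_apply, map_sum,
        LinearMap.comp_apply, LinearMap.smulRight_apply, map_smul, smul_eq_mul] at h4
      exact h4
    have h5 : a * ∑ c : C, LinearMap.trace k V (τ c⁻¹) * LinearMap.trace k V (τ c) = 0 := by
      have h6 : a * ∑ c : C, LinearMap.trace k V (τ c⁻¹) * LinearMap.trace k V (τ c) =
          b * ∑ c : C, LinearMap.trace k W (σ c⁻¹) * LinearMap.trace k V (τ c) := by
        rw [Finset.mul_sum, Finset.mul_sum]
        refine Finset.sum_congr rfl fun c _ => ?_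
        rw [← mul_assoc, ← mul_assoc, h c⁻¹]
      rw [h6, hsum0, mul_zero]
    rw [S1b_norm τ h1 hdV] at h5
    exact (mul_ne_zero ha hC) h5
  obtain ⟨φ, hne, hφ⟩ := hex
  have hker : LinearMap.ker φ = ⊥ := by
    by_contra hk
    have h3 := S1b_top σ h2 (LinearMap.ker φ) (by
      intro c w hw
      rw [LinearMap.mem_ker] at hw ⊢
      rw [hφ, hw, map_zero]) hk
    exact hne (LinearMap.ker_eq_top.1 h3)
  have hran : LinearMap.range φ = ⊤ := by
    refine S1b_top τ h1 (LinearMap.range φ) ?_ ?_
    · rintro c _ ⟨w, rfl⟩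
      exact ⟨σ c w, hφ c w⟩
    · intro hb
      exact hne (LinearMap.range_eq_bot.1 hb)
  exact ⟨LinearEquiv.ofBijective φ ⟨LinearMap.ker_eq_bot.1 hker, LinearMap.range_eq_top.1 hran⟩,
    fun c w => hφ c w⟩

end Pool.Agent.Lib.H90S
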