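import Mathlib
import Pool.Agent.Lib.H90Q.Defs

/-!
Definitions for the strengthening of MP_a8e959_al: elementary abelian Sylow `p`-subgroup, arbitrary automiser.
-/

open scoped Classical ComplexConjugate BigOperators

noncomputable section

namespace Pool.Agent.Lib.H90S

/-- A valuation ring of `ℂ` that contains all algebraic integers and whose residue field has characteristic `p`. -/
structure RedData (p : ℕ) where
  O : ValuationSubring ℂ
  int : ∀ z : ℂ, IsIntegral ℤ z → z ∈ O
  char : CharP (IsLocalRing.ResidueField O) p

/-- The residue field. -/
abbrev RedData.k {p : ℕ} (D : RedData p) : Type := IsLocalRing.ResidueField D.O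

/-- The reduction of a complex number, zero off the valuation ring. -/
def RedData.red {p : ℕ} (D : RedData p) (z : ℂ) : D.k :=
  if h : z ∈ D.O then IsLocalRing.residue D.O ⟨z, h⟩ else 0

/-- The operators `ρ a`, `a ∈ A`, span all endomorphisms of `V` (the restriction to `A` is absolutely irreducible, or `V = 0`). -/
def Full {B k V : Type*} [Group B] [Field k] [AddCommGroup V] [Module k V] (ρ : B →* Module.End k V) (A : Set B) : Prop :=
  Submodule.span k (ρ '' A) = ⊤

end Pool.Agent.Lib.H90S
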