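import Pool.Agent.Lib.H90Q.K16

/-!
H90S, W1: values of the extension `Φ` at `x d`, `d` commuting with `x`, `x ∈ P` with `C_L(x) = C_L(P)`.
-/

open scoped Classical ComplexConjugate BigOperators

noncomputable section

namespace Pool.Agent.Lib.H90S

open Pool.Agent.Lib.H90Q

variable {G : Type*} [Group G] [Fintype G]

private theorem W1a_pow {L : Subgroup G} {l d : G} (hl : l ∈ L) (hd : ∀ n : ℕ, Nz (d ^ n) L) (n : ℕ) :
    (l * d) ^ n * (d ^ n)⁻¹ ∈ L := by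
  induction n with
  | zero =>
    rw [pow_zero, pow_zero, inv_one, mul_one]
    exact L.one_mem
  | succ n ih =>
    have e : (l * d) ^ (n + 1) * (d ^ (n + 1))⁻¹ = ((l * d) ^ n * (d ^ n)⁻¹) * (d ^ n * l * (d ^ n)⁻¹) := by
      rw [pow_succ, pow_succ, mul_inv_rev]
      simp only [mul_assoc, mul_inv_cancel_left, inv_mul_cancel_left]
    rw [e]
    exact L.mul_mem ih ((hd n l).1 hl)

private theorem W1a_card {p : ℕ} [Fact p.Prime] {L Δ : Subgroup G} (hn : ∀ d ∈ Δ, Nz d L) (hL : ¬ p ∣ Nat.card L)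
    (hΔ : ¬ p ∣ Nat.card Δ) : ¬ p ∣ Nat.card (L ⊔ Δ : Subgroup G) := by
  have hp : p.Prime := Fact.out
  intro hpK
  obtain ⟨⟨g, hg⟩, hord⟩ := exists_prime_orderOf_dvd_card' p hpK
  have hordg : orderOf g = p := by
    rw [← hord, Subgroup.orderOf_mk]
  obtain ⟨l, hl, d, hd, rfl⟩ := (mem_sup_nz hn).1 hg
  have hm : orderOf d ∣ Nat.card Δ := by
    have h1 : orderOf (⟨d, hd⟩ : Δ) ∣ Nat.card Δ := orderOf_dvd_natCard _
    rwa [Subgroup.orderOf_mk] at h1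
  have h2 := W1a_pow hl (fun n => hn _ (Δ.pow_mem hd n)) (orderOf d)
  rw [pow_orderOf_eq_one, inv_one, mul_one] at h2
  have hcop : (orderOf (l * d)).Coprime (orderOf d) := by
    rw [hordg]
    exact (Nat.Prime.coprime_iff_not_dvd hp).2 fun h => hΔ (h.trans hm)
  have h3 : orderOf ((l * d) ^ orderOf d) = p := by
    rw [Nat.Coprime.orderOf_pow hcop, hordg]
  have h4 : orderOf (⟨(l * d) ^ orderOf d, h2⟩ : L) ∣ Nat.card L := orderOf_dvd_natCard _
  rw [Subgroup.orderOf_mk, h3] at h4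
  exact hL h4

/-- `K = L ⊔ Δ`, `Δ = S ⊓ centralizer {x}`: every element is `l * d`; the order is prime to `p`; `x` normalises `K`; `CM K {x ^ j} = Δ` whenever `CM L {x ^ j} = L ⊓ S`; also `CM K (zpowers x) = Δ`, as `CM K {x} = Δ`. (`l * d` commutes with `x ^ j` iff `l` does, as `d` does; then `l ∈ L ⊓ S ≤ Δ`.) -/
theorem W1_K {p : ℕ} [Fact p.Prime] {L P S : Subgroup G} (hLS : ∀ s ∈ S, Nz s L) (hL : ¬ p ∣ Nat.card L) (hS : ¬ p ∣ Nat.card S)
    (hC : L ⊓ S = CM L (P : Set G)) {x : G} (hx : x ∈ P) (hxL : Nz x L) (hxC : CM L {x} = CM L (P : Set G)) :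
    (¬ p ∣ Nat.card (L ⊔ (S ⊓ Subgroup.centralizer {x}) : Subgroup G)) ∧ Nz x (L ⊔ (S ⊓ Subgroup.centralizer {x})) ∧
      (CM (L ⊔ (S ⊓ Subgroup.centralizer {x})) (Subgroup.zpowers x : Set G) = S ⊓ Subgroup.centralizer {x}) ∧
      ∀ j : ℕ, CM L {x ^ j} = CM L (P : Set G) → CM (L ⊔ (S ⊓ Subgroup.centralizer {x})) {x ^ j} = S ⊓ Subgroup.centralizer {x} := by
  have hΔL : ∀ d ∈ S ⊓ Subgroup.centralizer {x}, Nz d L := fun d hd => hLS d hd.1
  have hcx : ∀ d ∈ S ⊓ Subgroup.centralizer {x}, d * x = x * d := fun d hd =>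
    Subgroup.mem_centralizer_singleton_iff.1 hd.2
  have hKC : ∀ j : ℕ, CM L {x ^ j} = CM L (P : Set G) →
      CM (L ⊔ (S ⊓ Subgroup.centralizer {x})) {x ^ j} = S ⊓ Subgroup.centralizer {x} := by
    intro j hj
    ext g
    constructor
    · rintro ⟨hgK, hgc⟩
      have hgc' : g * x ^ j = x ^ j * g := Subgroup.mem_centralizer_singleton_iff.1 hgc
      obtain ⟨l, hl, d, hd, rfl⟩ := (mem_sup_nz hΔL).1 hgK
      have hdj : d * x ^ j = x ^ j * d := (Commute.pow_right (hcx d hd) j : Commute d (x ^ j))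
      have hlj : l * x ^ j = x ^ j * l := by
        have h1 : l * x ^ j * d = x ^ j * l * d := by
          rw [mul_assoc, ← hdj, ← mul_assoc, hgc', mul_assoc]
        exact mul_right_cancel h1
      have hlC : l ∈ CM L {x ^ j} := ⟨hl, Subgroup.mem_centralizer_singleton_iff.2 hlj⟩
      rw [hj] at hlC
      have hlx : l * x = x * l := ((Subgroup.mem_centralizer_iff.1 hlC.2) x hx).symm
      rw [← hC] at hlC
      have hlΔ : l ∈ S ⊓ Subgroup.centralizer {x} := ⟨hlC.2, Subgroup.mem_centralizer_singleton_iff.2 hlx⟩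
      exact Subgroup.mul_mem _ hlΔ hd
    · intro hg
      have hgj : g * x ^ j = x ^ j * g := (Commute.pow_right (hcx g hg) j : Commute g (x ^ j))
      exact ⟨(le_sup_right : S ⊓ Subgroup.centralizer {x} ≤ L ⊔ (S ⊓ Subgroup.centralizer {x})) hg,
        Subgroup.mem_centralizer_singleton_iff.2 hgj⟩
  refine ⟨?_, ?_, ?_, hKC⟩
  · exact W1a_card hΔL hL fun h => hS (h.trans (Subgroup.card_dvd_of_le inf_le_left))
  · have key : ∀ y : G, Nz y L → (∀ d ∈ S ⊓ Subgroup.centralizer {x}, d * y = y * d) →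
        ∀ g ∈ L ⊔ (S ⊓ Subgroup.centralizer {x}), y * g * y⁻¹ ∈ L ⊔ (S ⊓ Subgroup.centralizer {x}) := by
      intro y hyL hyd g hg
      obtain ⟨l, hl, d, hd, rfl⟩ := (mem_sup_nz hΔL).1 hg
      refine (mem_sup_nz hΔL).2 ⟨y * l * y⁻¹, (hyL l).1 hl, d, hd, ?_⟩
      have h1 : y * d * y⁻¹ = d := by
        rw [← hyd d hd, mul_inv_cancel_right]
      calc y * (l * d) * y⁻¹ = y * l * y⁻¹ * (y * d * y⁻¹) := by group
        _ = y * l * y⁻¹ * d := by rw [h1]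
    have hxinv : Nz x⁻¹ L := by
      intro g
      rw [hxL (x⁻¹ * g * x⁻¹⁻¹)]
      have e : x * (x⁻¹ * g * x⁻¹⁻¹) * x⁻¹ = g := by group
      rw [e]
    intro g
    constructor
    · exact key x hxL hcx g
    · intro hg
      have h2 := key x⁻¹ hxinv (fun d hd => by
        have h3 := hcx d hd
        rw [eq_inv_mul_iff_mul_eq, ← mul_assoc, ← h3, mul_inv_cancel_right]) _ hg
      have e : x⁻¹ * (x * g * x⁻¹) * x⁻¹⁻¹ = g := by group
      rwa [e] at h2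
  · ext g
    constructor
    · rintro ⟨hgK, hgc⟩
      have h1 : g ∈ CM (L ⊔ (S ⊓ Subgroup.centralizer {x})) {x ^ 1} := by
        refine ⟨hgK, Subgroup.mem_centralizer_singleton_iff.2 ?_⟩
        rw [pow_one]
        exact ((Subgroup.mem_centralizer_iff.1 hgc) x (Subgroup.mem_zpowers x)).symm
      rwa [hKC 1 (by rw [pow_one]; exact hxC)] at h1
    · intro hg
      refine ⟨(le_sup_right : S ⊓ Subgroup.centralizer {x} ≤ L ⊔ (S ⊓ Subgroup.centralizer {x})) hg, ?_⟩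
      refine Subgroup.mem_centralizer_iff.2 fun h hh => ?_
      obtain ⟨n, rfl⟩ := Subgroup.mem_zpowers_iff.1 hh
      exact (Commute.zpow_right (hcx g hg) n : Commute g (x ^ n)).symm

/-- The values. `K = L ⊔ Δ` as in `W1_K`. `φ = rs K Φ` is irreducible (`charS_rs`, `irrS_of_ext`: on `L` it is `θ`), invariant under `x` (`Φ` is a class function of `L ⊔ P ⊔ S`, which contains `K` and `x`; `Nz x K`). `P' = zpowers x`. `canP_exists` for `K`, `P'` gives `Θ'`. `Φ' = rs (P' ⊔ K) Φ` is irreducible on `P' ⊔ K` and is a `CanExt p P' K φ Φ'`: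
its values on `P' ≤ P` are those of `Θ`, which are non-zero, real, and for `p = 2` congruent to `θ 1 = φ 1` modulo `4` (`canExt_of_canP hcan`). So `Φ' = Θ'` (`canExt_unique`, `canExt_of_canP`). `gcBij` gives `ψ` with `GC p K P' φ ψ`, `ψ ∈ IrrS Δ`; `canP_val` gives `ε'` with
`Φ (x ^ j * d) = ε' * ψ d` for all `j` with `CM L {x ^ j} = CM L P` and `d ∈ Δ`. On `c ∈ L ⊓ S` at `x`: `ε' * ψ c = Θ (x * c) = ε * θs c`; `c = 1`: both degrees are positive, so `ε' = ε`, and `ψ = θs` on `L ⊓ S`. -/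
theorem W1_values {p : ℕ} [Fact p.Prime] {L P S : Subgroup G} (hLP : ∀ z ∈ P, Nz z L) (hLS : ∀ s ∈ S, Nz s L)
    (hL : ¬ p ∣ Nat.card L) (hS : ¬ p ∣ Nat.card S) (hPp : ∀ z ∈ P, ∃ a : ℕ, z ^ (p ^ a) = 1) (hab : ∀ b ∈ P, ∀ c ∈ P, b * c = c * b)
    (hC : L ⊓ S = CM L (P : Set G)) {θ θs Θ Φ : G → ℂ} (hθ : θ ∈ IrrS L) (hGC : GC p L (P : Set G) θ θs) (hcan : CanP p L P θ Θ)
    (hΦ : Φ ∈ IrrS (L ⊔ P ⊔ S)) (hΦe : ∀ g ∈ L ⊔ P, Φ g = Θ g) {ε : ℂ} (hε : ε = 1 ∨ ε = -1) {x : G} (hx : x ∈ P) (hxC : CM L {x} = CM L (P : Set G))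
    (hv : ∀ c ∈ L ⊓ S, Θ (x * c) = ε * θs c) :
    ∃ ψ ∈ IrrS (S ⊓ Subgroup.centralizer {x}), (∀ c ∈ L ⊓ S, ψ c = θs c) ∧
      ∀ j : ℕ, CM L {x ^ j} = CM L (P : Set G) → ∀ d ∈ S ⊓ Subgroup.centralizer {x}, Φ (x ^ j * d) = ε * ψ d := by
  have hp : p.Prime := Fact.out
  have hxL : Nz x L := hLP x hx
  obtain ⟨hKp, hxK, hCK, hCj⟩ := W1_K (p := p) hLS hL hS hC hx hxL hxC
  have hP'P : Subgroup.zpowers x ≤ P := by
    rw [Subgroup.zpowers_le]
    exact hx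
  set Δ : Subgroup G := S ⊓ Subgroup.centralizer {x} with hΔ
  set K : Subgroup G := L ⊔ Δ with hK
  set P' : Subgroup G := Subgroup.zpowers x with hP'
  have hLK : L ≤ K := le_sup_left
  have hΔK : Δ ≤ K := le_sup_right
  have hxP' : x ∈ P' := Subgroup.mem_zpowers x
  have hLT : L ≤ L ⊔ P ⊔ S := le_sup_left.trans le_sup_left
  have hPT : P ≤ L ⊔ P ⊔ S := le_sup_right.trans le_sup_left
  have hKT : K ≤ L ⊔ P ⊔ S := sup_le hLT (inf_le_left.trans le_sup_right)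
  have hPKT : P' ⊔ K ≤ L ⊔ P ⊔ S := sup_le (hP'P.trans hPT) hKT
  have hΦc := charS_of_irrS hΦ
  have hΦcf := cf_charS hΦc
  have hLval : ∀ g ∈ L, Φ g = θ g := by
    intro g hg
    rw [hΦe g ((le_sup_left : L ≤ L ⊔ P) hg), hcan.1.ext g hg]
  have hPval : ∀ g ∈ P, Φ g = Θ g := fun g hg => hΦe g ((le_sup_right : P ≤ L ⊔ P) hg)
  -- the restriction to `K`
  have hφ : rs K Φ ∈ IrrS K := by
    refine irrS_of_ext hLK (charS_rs hKT hΦc) hθ (fun g hg => ?_)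
    show (if g ∈ K then Φ g else 0) = θ g
    rw [if_pos (hLK hg), hLval g hg]
  have hnz : ∀ z ∈ P', Nz z K := nz_zpowers hxK
  have hinv : InvS P' (rs K Φ) := by
    intro a ha
    funext g
    show (if a⁻¹ * g * a ∈ K then Φ (a⁻¹ * g * a) else 0) = if g ∈ K then Φ g else 0
    have h1 : a⁻¹ * g * a ∈ K ↔ g ∈ K := by
      rw [hnz a ha]
      have h2 : a * (a⁻¹ * g * a) * a⁻¹ = g := by group
      rw [h2]
    have h3 : Φ (a⁻¹ * g * a) = Φ g := by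
      have h4 := hΦcf.2 a⁻¹ (Subgroup.inv_mem _ (hPT (hP'P ha))) g
      rwa [inv_inv] at h4
    rw [h3]
    by_cases hg : g ∈ K
    · rw [if_pos hg, if_pos (h1.2 hg)]
    · rw [if_neg hg, if_neg (fun h => hg (h1.1 h))]
  have hPp' : ∀ z ∈ P', ∃ a : ℕ, z ^ (p ^ a) = 1 := fun z hz => hPp z (hP'P hz)
  have hab' : ∀ b ∈ P', ∀ c ∈ P', b * c = c * b := fun b hb c hc => hab b (hP'P hb) c (hP'P hc)
  have hpg : IsPGroup p P' := by
    intro z
    obtain ⟨a, ha⟩ := hPp' z z.2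
    exact ⟨a, Subtype.ext ha⟩
  obtain ⟨Θ', hΘ'⟩ := canP_exists hKp hnz hPp' hab' hφ hinv
  have h1K : (1 : G) ∈ K := Subgroup.one_mem _
  have hφ1 : rs K Φ 1 = θ 1 := by
    show (if (1 : G) ∈ K then Φ 1 else 0) = θ 1
    rw [if_pos h1K, hLval 1 (Subgroup.one_mem _)]
  have hcE := canExt_of_canP hcan
  have hext : CanExt p P' K (rs K Φ) (rs (P' ⊔ K) Φ) := by
    refine ⟨?_, fun l hl => ?_, fun u hu => ?_⟩
    · refine irrS_of_ext (hLK.trans le_sup_right) (charS_rs hPKT hΦc) hθ (fun g hg => ?_)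
      show (if g ∈ P' ⊔ K then Φ g else 0) = θ g
      rw [if_pos ((le_sup_right : K ≤ P' ⊔ K) (hLK hg)), hLval g hg]
    · show (if l ∈ P' ⊔ K then Φ l else 0) = if l ∈ K then Φ l else 0
      rw [if_pos ((le_sup_right : K ≤ P' ⊔ K) hl), if_pos hl]
    · have hu' : rs (P' ⊔ K) Φ u = Θ u := by
        show (if u ∈ P' ⊔ K then Φ u else 0) = Θ u
        rw [if_pos ((le_sup_left : P' ≤ P' ⊔ K) hu), hPval u (hP'P hu)]
      rw [hu', hφ1]
      exact hcE.2.2 u (hP'P hu)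
  have hΦΘ' : rs (P' ⊔ K) Φ = Θ' := canExt_unique hp hKp hpg hab' hnz hφ hext (canExt_of_canP hΘ')
  -- the Glauberman correspondent of `φ`
  obtain ⟨ψ, hψ⟩ := (gcBij hKp hnz hPp' hab').ex _ hφ hinv
  obtain ⟨ε', hε', -, hval⟩ := canP_val hKp hnz hPp' hab' hφ hΘ' hψ
  have hψi : ψ ∈ IrrS Δ := by
    have h1 := hψ.2.1
    rwa [hCK] at h1
  -- the values with the sign `ε'`
  have hvals : ∀ j : ℕ, CM L {x ^ j} = CM L (P : Set G) → ∀ d ∈ Δ, Φ (x ^ j * d) = (ε' : ℂ) * ψ d := by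
    intro j hj d hd
    have h1 : CM K {x ^ j} = Δ := hCj j hj
    have hxj : x ^ j ∈ P' := Subgroup.pow_mem _ hxP' j
    have h2 := hval (x ^ j) hxj (by rw [h1, hCK]) d (by rw [h1]; exact hd)
    rw [← h2, ← hΦΘ']
    have h3 : x ^ j * d ∈ P' ⊔ K := Subgroup.mul_mem _ ((le_sup_left : P' ≤ P' ⊔ K) hxj) ((le_sup_right : K ≤ P' ⊔ K) (hΔK hd))
    show Φ (x ^ j * d) = if x ^ j * d ∈ P' ⊔ K then Φ (x ^ j * d) else 0
    rw [if_pos h3]
  have hLSΔ : L ⊓ S ≤ Δ := by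
    intro c hc
    have h1 := hc
    rw [hC, ← hxC, mem_CM_single] at h1
    refine Subgroup.mem_inf.2 ⟨(Subgroup.mem_inf.1 hc).2, ?_⟩
    rw [Subgroup.mem_centralizer_iff]
    intro y hy
    rw [Set.mem_singleton_iff.1 hy]
    exact h1.2.symm
  have hcmp : ∀ c ∈ L ⊓ S, (ε' : ℂ) * ψ c = ε * θs c := by
    intro c hc
    have h1 := hvals 1 (by rw [pow_one]; exact hxC) c (hLSΔ hc)
    rw [pow_one] at h1
    have h2 : x * c ∈ L ⊔ P := Subgroup.mul_mem _ ((le_sup_right : P ≤ L ⊔ P) hx) ((le_sup_left : L ≤ L ⊔ P) (Subgroup.mem_inf.1 hc).1)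
    rw [← h1, hΦe _ h2, hv c hc]
  obtain ⟨n, hn, hn1⟩ := irrS_one hψi
  obtain ⟨m, hm, hm1⟩ := irrS_one hGC.2.1
  have hc1 := hcmp 1 (Subgroup.one_mem _)
  rw [hn1, hm1] at hc1
  have hεε : (ε' : ℂ) = ε := by
    rcases hε' with rfl | rfl <;> rcases hε with rfl | rfl
    · norm_num
    · exfalso
      push_cast at hc1
      have h1 : ((n + m : ℕ) : ℂ) = 0 := by
        push_cast
        linear_combination hc1
      have h2 : n + m = 0 := by exact_mod_cast h1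
      omega
    · exfalso
      push_cast at hc1
      have h1 : ((n + m : ℕ) : ℂ) = 0 := by
        push_cast
        linear_combination -hc1
      have h2 : n + m = 0 := by exact_mod_cast h1
      omega
    · norm_num
  have hε0 : ε ≠ 0 := by
    rcases hε with rfl | rfl <;> norm_num
  refine ⟨ψ, hψi, fun c hc => ?_, fun j hj d hd => ?_⟩
  · have h1 := hcmp c hc
    rw [hεε] at h1
    exact mul_left_cancel₀ hε0 h1
  · rw [hvals j hj d hd, hεε]

end Pool.Agent.Lib.H90S
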