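import Pool.Agent.Lib.H90S.V2
import Pool.Agent.Lib.H90Q.A13

/-!
H90S, V3: reduction of an irreducible character.
-/

open scoped Classical ComplexConjugate BigOperators

noncomputable section

namespace Pool.Agent.Lib.H90S

open Pool.Agent.Lib.H90Q

private theorem V3_entry {n : ℕ} (M N : Matrix (Fin n) (Fin n) ℂ) (i j k l : Fin n) :
    (M * Matrix.single i j (1 : ℂ) * N) k l = M k i * N j l := by
  rw [Matrix.mul_apply, Finset.sum_eq_single j]
  · rw [Matrix.mul_apply, Finset.sum_eq_single i]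
    · simp
    · intro b _ hb
      simp [Ne.symm hb]
    · intro h
      exact absurd (Finset.mem_univ i) h
  · intro b _ hb
    rw [Matrix.mul_apply, Finset.sum_eq_zero, zero_mul]
    intro x _
    simp [Ne.symm hb]
  · intro h
    exact absurd (Finset.mem_univ j) h

private theorem V3_avg {A : Type*} [Group A] [Fintype A] {n : ℕ} (hn : 0 < n) (ρ : A →* Matrix (Fin n) (Fin n) ℂ)
    (hirr : ∀ y : Matrix (Fin n) (Fin n) ℂ, (∀ a, y * ρ a = ρ a * y) → ∃ c : ℂ, y = c • (1 : Matrix (Fin n) (Fin n) ℂ))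
    (y : Matrix (Fin n) (Fin n) ℂ) :
    ∑ a : A, ρ a * y * ρ a⁻¹ = ((Nat.card A : ℂ) * y.trace / n) • (1 : Matrix (Fin n) (Fin n) ℂ) := by
  have hn0 : (n : ℂ) ≠ 0 := by exact_mod_cast hn.ne'
  have hcomm : ∀ b, (∑ a : A, ρ a * y * ρ a⁻¹) * ρ b = ρ b * ∑ a : A, ρ a * y * ρ a⁻¹ := by
    intro b
    rw [Finset.sum_mul, Finset.mul_sum,
      ← Equiv.sum_comp (Equiv.mulLeft b) (fun a => ρ a * y * ρ a⁻¹ * ρ b)]
    refine Finset.sum_congr rfl fun a _ => ?_
    have h1 : ρ (b * a)⁻¹ * ρ b = ρ a⁻¹ := by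
      rw [← map_mul]
      congr 1
      group
    show ρ (b * a) * y * ρ (b * a)⁻¹ * ρ b = ρ b * (ρ a * y * ρ a⁻¹)
    rw [mul_assoc (ρ (b * a) * y), h1, map_mul]
    simp only [mul_assoc]
  obtain ⟨c, hc⟩ := hirr _ hcomm
  have htr : (∑ a : A, ρ a * y * ρ a⁻¹).trace = (Nat.card A : ℂ) * y.trace := by
    rw [Matrix.trace_sum]
    have h2 : ∀ a : A, (ρ a * y * ρ a⁻¹).trace = y.trace := by
      intro a
      rw [Matrix.trace_mul_comm, ← mul_assoc, ← map_mul, inv_mul_cancel, map_one, one_mul]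
    rw [Finset.sum_congr rfl fun a _ => h2 a, Finset.sum_const, Finset.card_univ,
      Nat.card_eq_fintype_card, nsmul_eq_mul]
  have hcn : c * n = (Nat.card A : ℂ) * y.trace := by
    rw [← htr, hc, Matrix.trace_smul, Matrix.trace_one, Fintype.card_fin, smul_eq_mul]
  rw [hc]
  congr 1
  rw [eq_div_iff hn0]
  exact hcn

/-- Schur's formula over `ℂ` in matrix form: `A` a finite subset-subgroup of `B` on which the representation is irreducible, `m` an arbitrary matrix: `m = (n / card A) ∑ a ∈ A, trace (m * ρ a⁻¹) • ρ a`. Proof: by Schur's lemma (`ℂ` algebraically closed; `Representation.IsIrreducible`, as in H90Q A02-A05) `∑ a, ρ a * y * ρ a⁻¹` is the scalar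
`card A * trace y / n`; take for `y` a matrix unit and compare entries; extend linearly (`Matrix.single`). -/
theorem V3_schur {A : Type*} [Group A] [Fintype A] {n : ℕ} (hn : 0 < n) (ρ : A →* Matrix (Fin n) (Fin n) ℂ)
    (hirr : ∀ y : Matrix (Fin n) (Fin n) ℂ, (∀ a, y * ρ a = ρ a * y) → ∃ c : ℂ, y = c • (1 : Matrix (Fin n) (Fin n) ℂ)) (m : Matrix (Fin n) (Fin n) ℂ) :
    m = ((n : ℂ) * (Nat.card A : ℂ)⁻¹) • ∑ a : A, (m * ρ a⁻¹).trace • ρ a := by
  have hn0 : (n : ℂ) ≠ 0 := by exact_mod_cast hn.ne'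
  have hcard : (Nat.card A : ℂ) ≠ 0 := by exact_mod_cast Nat.card_pos.ne'
  have hkey : ∀ i j k l : Fin n, ∑ a : A, ρ a k i * ρ a⁻¹ j l =
      if j = i then (if l = k then (Nat.card A : ℂ) / n else 0) else 0 := by
    intro i j k l
    have h1 := congrFun (congrFun (V3_avg hn ρ hirr (Matrix.single i j (1 : ℂ))) k) l
    rw [Matrix.sum_apply, Finset.sum_congr rfl fun a _ => V3_entry (ρ a) (ρ a⁻¹) i j k l] at h1
    rw [h1, Matrix.smul_apply, Matrix.one_apply, smul_eq_mul]
    by_cases hij : j = i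
    · subst hij
      rw [Matrix.trace_single_eq_same, if_pos rfl, mul_one]
      by_cases hkl : l = k
      · rw [if_pos hkl, if_pos hkl.symm, mul_one]
      · rw [if_neg hkl, if_neg (Ne.symm hkl), mul_zero]
    · rw [Matrix.trace_single_eq_of_ne _ _ _ (Ne.symm hij), if_neg hij, mul_zero, zero_div, zero_mul]
  ext k i
  have hsum : (∑ a : A, (m * ρ a⁻¹).trace • ρ a) k i = m k i * ((Nat.card A : ℂ) / n) := by
    rw [Matrix.sum_apply]
    have h2 : ∀ a : A, ((m * ρ a⁻¹).trace • ρ a) k i =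
        ∑ l, ∑ j, m l j * (ρ a k i * ρ a⁻¹ j l) := by
      intro a
      rw [Matrix.smul_apply, smul_eq_mul]
      unfold Matrix.trace
      rw [Finset.sum_mul]
      refine Finset.sum_congr rfl fun l _ => ?_
      rw [Matrix.diag_apply, Matrix.mul_apply, Finset.sum_mul]
      exact Finset.sum_congr rfl fun j _ => by ring
    rw [Finset.sum_congr rfl fun a _ => h2 a, Finset.sum_comm]
    have h3 : ∀ l, ∑ a : A, ∑ j, m l j * (ρ a k i * ρ a⁻¹ j l) =
        if l = k then m l i * ((Nat.card A : ℂ) / n) else 0 := by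
      intro l
      rw [Finset.sum_comm]
      have h4 : ∀ j, ∑ a : A, m l j * (ρ a k i * ρ a⁻¹ j l) =
          if j = i then m l j * (if l = k then (Nat.card A : ℂ) / n else 0) else 0 := by
        intro j
        rw [← Finset.mul_sum, hkey i j k l]
        by_cases hij : j = i
        · rw [if_pos hij, if_pos hij]
        · rw [if_neg hij, if_neg hij, mul_zero]
      rw [Finset.sum_congr rfl fun j _ => h4 j, Finset.sum_ite_eq' Finset.univ i, if_pos (Finset.mem_univ i)]
      by_cases hkl : l = k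
      · rw [if_pos hkl, if_pos hkl]
      · rw [if_neg hkl, if_neg hkl, mul_zero]
    rw [Finset.sum_congr rfl fun l _ => h3 l, Finset.sum_ite_eq' Finset.univ k, if_pos (Finset.mem_univ k)]
  rw [Matrix.smul_apply, hsum, smul_eq_mul]
  field_simp

/-- Schur's lemma for the restriction to a subgroup on which the character stays irreducible. -/
private theorem V3b_schurEnd {B : Type*} [Group B] {n : ℕ} (hn : 0 < n) (ρ : Representation ℂ B (Fin n → ℂ)) (A : Subgroup B) [Finite A]
    (hA : IsIrr (fun a : A => ρ.character a)) (y : Module.End ℂ (Fin n → ℂ)) (hy : ∀ a : A, y * ρ a = ρ a * y) :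
    ∃ c : ℂ, y = c • (1 : Module.End ℂ (Fin n → ℂ)) := by
  have : Fintype A := Fintype.ofFinite A
  have h0 : (Nat.card A : ℂ) ≠ 0 := by exact_mod_cast Nat.card_pos.ne'
  let _ : Invertible (Nat.card A : ℂ) := invertibleOfNonzero h0
  let σ : Representation ℂ A (Fin n → ℂ) := MonoidHom.comp ρ A.subtype
  have hσ : σ.character = fun a : A => ρ.character a := rfl
  have hσc : IsChar σ.character := ⟨n, σ, rfl⟩
  have h1 := irr_ortho hA hA
  rw [if_pos rfl] at h1
  have h2 := Representation.card_inv_mul_sum_char_mul_char_eq_finrank σ σ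
  have h3 : ∑ g : A, σ.character g * σ.character g⁻¹ = ∑ x : A, ρ.character x * (starRingEnd ℂ) (ρ.character x) := by
    refine Finset.sum_congr rfl fun g _ => ?_
    rw [char_inv hσc g, hσ]
  rw [h3, h1] at h2
  have h4 : Module.finrank ℂ (Representation.IntertwiningMap σ σ) = 1 := by exact_mod_cast h2.symm
  have hne : (Representation.IntertwiningMap.id σ) ≠ 0 := by
    intro h
    have h5 := congrArg Representation.IntertwiningMap.toLinearMap h
    have h6 : (LinearMap.id : (Fin n → ℂ) →ₗ[ℂ] (Fin n → ℂ)) = 0 := h5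
    have h7 := congrFun (LinearMap.congr_fun h6 (Pi.single (⟨0, hn⟩ : Fin n) (1 : ℂ))) ⟨0, hn⟩
    simp at h7
  obtain ⟨c, hc⟩ := (finrank_eq_one_iff_of_nonzero' _ hne).mp h4 (⟨y, fun a => hy a⟩ : Representation.IntertwiningMap σ σ)
  refine ⟨c, ?_⟩
  have h8 := congrArg Representation.IntertwiningMap.toLinearMap hc
  exact h8.symm

/-- Lifting a matrix over the residue field. -/
private theorem V3b_lift {p : ℕ} (D : RedData p) {n : ℕ} (Y : Matrix (Fin n) (Fin n) D.k) :
    ∃ m : Matrix (Fin n) (Fin n) D.O, m.map (IsLocalRing.residue D.O) = Y := by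
  choose f hf using fun i j => IsLocalRing.residue_surjective (R := D.O) (Y i j)
  exact ⟨Matrix.of f, by ext i j; exact hf i j⟩

/-- The reduction. Take a matrix representation `ρ` affording `χ` (`IsIrr` gives `n` and a representation on `Fin n → ℂ`, `LinearMap.toMatrix'`), `V2_hom` gives `ρO`; `ρk b = (ρO b).map (residue)` as an endomorphism (`Matrix.toLin'`). The trace of `ρk b` is the reduction of the trace of `ρO b`, which is `χ b`
(trace is invariant under conjugation by `Q`). Fullness on `A`: every matrix over `k` lifts to a matrix `m` over `O`; by `V3_schur` for `Q⁻¹ ρ Q` restricted to `A` (irreducible on `A` because `χ` restricted to `A` is: Schur's lemma) `m = ∑ a, ((n / card A) * trace (m * ρO a⁻¹)) • ρO a`,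
with coefficients in `O` (`inv_natCast_mem`), and this can be reduced. `(n : k) ≠ 0`: `n` divides `card A` (`irr_dvd`). -/
theorem red_rep {p : ℕ} (hp : p.Prime) (D : RedData p) {B : Type*} [Group B] [Finite B] (A : Subgroup B) (hA : ¬ p ∣ Nat.card A) {χ : B → ℂ} (hχ : IsIrr χ)
    (hχA : IsIrr (fun a : A => χ a)) :
    ∃ (n : ℕ) (ρ : B →* Module.End D.k (Fin n → D.k)), 0 < n ∧ χ 1 = n ∧ (n : D.k) ≠ 0 ∧ (∀ b, LinearMap.trace D.k (Fin n → D.k) (ρ b) = D.red (χ b)) ∧ Full ρ (A : Set B) := by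
  obtain ⟨n', hn'0, hn'1, hn'd⟩ := irr_dvd hχA
  obtain ⟨n, ρ, hirr, hρ⟩ := hχ
  have hχ1 : χ 1 = (n : ℂ) := by
    rw [← hρ, Representation.char_one, Module.finrank_fin_fun]
  have hnn : n = n' := by
    have h1 : χ 1 = (n' : ℂ) := by simpa using hn'1
    rw [hχ1] at h1
    exact_mod_cast h1
  subst hnn
  have hn : 0 < n := hn'0
  have : Fintype A := Fintype.ofFinite A
  have hpn : ¬ p ∣ n := fun h => hA (h.trans hn'd)
  -- matrices
  let M : B →* Matrix (Fin n) (Fin n) ℂ := (LinearMap.toMatrixAlgEquiv' (R := ℂ) (n := Fin n) : _ →* _).comp ρ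
  have hM : ∀ b, M b = LinearMap.toMatrix' (ρ b) := fun b => rfl
  have hMtr : ∀ b, (M b).trace = χ b := by
    intro b
    rw [hM, ← hρ]
    rw [← Matrix.trace_toLin'_eq, Matrix.toLin'_toMatrix']
    rfl
  obtain ⟨Q, ρO, hQ, hρO⟩ := V2_hom D.O M
  have hQ1 : Q * Q⁻¹ = 1 := Matrix.mul_nonsing_inv Q hQ
  have hQ2 : Q⁻¹ * Q = 1 := Matrix.nonsing_inv_mul Q hQ
  have hinj : Function.Injective (algebraMap D.O ℂ) := Subtype.val_injective
  -- traces
  have htr : ∀ b, algebraMap D.O ℂ (ρO b).trace = χ b := by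
    intro b
    rw [AddMonoidHom.map_trace (algebraMap D.O ℂ), hρO, ← hMtr b, Matrix.mul_assoc, Matrix.trace_mul_comm, Matrix.mul_assoc, hQ1, Matrix.mul_one]
  have hred : ∀ b, D.red (χ b) = IsLocalRing.residue D.O (ρO b).trace := by
    intro b
    have hmem : χ b ∈ D.O := by
      rw [← htr b]
      exact (ρO b).trace.2
    rw [red_of_mem D hmem]
    congr 1
    exact hinj (htr b).symm
  let ρk : B →* Module.End D.k (Fin n → D.k) :=
    ((Matrix.toLinAlgEquiv' (R := D.k) (n := Fin n) : _ →* _).comp (RingHom.mapMatrix (m := Fin n) (IsLocalRing.residue D.O)).toMonoidHom).comp ρO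
  have hρk : ∀ b, ρk b = Matrix.toLin' ((ρO b).map (IsLocalRing.residue D.O)) := fun b => rfl
  refine ⟨n, ρk, hn, hχ1, natCast_ne D hp hpn, ?_, ?_⟩
  · intro b
    rw [hρk, Matrix.trace_toLin'_eq, hred, AddMonoidHom.map_trace (IsLocalRing.residue D.O)]
  · -- fullness
    -- the restriction to `A` of the conjugated representation
    let ρA : A →* Matrix (Fin n) (Fin n) ℂ := (RingHom.mapMatrix (m := Fin n) (algebraMap D.O ℂ)).toMonoidHom.comp (ρO.comp A.subtype)
    have hρA : ∀ a : A, ρA a = (ρO a).map (algebraMap D.O ℂ) := fun a => rfl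
    have hρA' : ∀ a : A, ρA a = Q⁻¹ * M a * Q := fun a => by rw [hρA, hρO]
    have hχA' : IsIrr (fun a : A => ρ.character a) := by rw [hρ]; exact hχA
    have hsch : ∀ y : Matrix (Fin n) (Fin n) ℂ, (∀ a, y * ρA a = ρA a * y) → ∃ c : ℂ, y = c • (1 : Matrix (Fin n) (Fin n) ℂ) := by
      intro y hy
      have h1 : ∀ a : A, (Q * y * Q⁻¹) * M a = M a * (Q * y * Q⁻¹) := by
        intro a
        have h2 := hy a
        rw [hρA'] at h2
        calc (Q * y * Q⁻¹) * M a = Q * (y * (Q⁻¹ * M a * Q)) * Q⁻¹ := by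
              simp only [Matrix.mul_assoc, hQ1, Matrix.mul_one]
          _ = Q * ((Q⁻¹ * M a * Q) * y) * Q⁻¹ := by rw [h2]
          _ = (Q * Q⁻¹) * M a * (Q * y * Q⁻¹) := by simp only [Matrix.mul_assoc]
          _ = M a * (Q * y * Q⁻¹) := by rw [hQ1, Matrix.one_mul]
      obtain ⟨c, hc⟩ := V3b_schurEnd hn ρ A hχA' (Matrix.toLin' (Q * y * Q⁻¹)) (by
        intro a
        have h3 : ρ a = Matrix.toLin' (M a) := by rw [hM, Matrix.toLin'_toMatrix']
        rw [h3, Module.End.mul_eq_comp, Module.End.mul_eq_comp, ← Matrix.toLin'_mul, ← Matrix.toLin'_mul, h1 a])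
      refine ⟨c, ?_⟩
      have h4 : Q * y * Q⁻¹ = c • (1 : Matrix (Fin n) (Fin n) ℂ) := by
        apply Matrix.toLin'.injective
        rw [hc, map_smul, Matrix.toLin'_one]
        rfl
      calc y = (Q⁻¹ * Q) * y * (Q⁻¹ * Q) := by rw [hQ2, Matrix.one_mul, Matrix.mul_one]
        _ = Q⁻¹ * (Q * y * Q⁻¹) * Q := by simp only [Matrix.mul_assoc]
        _ = c • (1 : Matrix (Fin n) (Fin n) ℂ) := by rw [h4, Matrix.mul_smul, Matrix.smul_mul, Matrix.mul_one, hQ2]
    have hinvO : ((Nat.card A : ℂ))⁻¹ ∈ D.O := inv_natCast_mem D hp hA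
    let iv : D.O := ⟨((Nat.card A : ℂ))⁻¹, hinvO⟩
    have hkey : ∀ m : Matrix (Fin n) (Fin n) D.O, m = ∑ a : A, ((n : D.O) * iv * (m * ρO ((a : B)⁻¹)).trace) • ρO a := by
      intro m
      have h1 := V3_schur hn ρA hsch (m.map (algebraMap D.O ℂ))
      have h2 : ((∑ a : A, ((n : D.O) * iv * (m * ρO ((a : B)⁻¹)).trace) • ρO a : Matrix (Fin n) (Fin n) D.O)).map (algebraMap D.O ℂ) =
          m.map (algebraMap D.O ℂ) := by
        rw [h1]
        ext i j
        rw [Matrix.map_apply, Matrix.sum_apply, map_sum, Matrix.smul_apply, Matrix.sum_apply, Finset.smul_sum]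
        refine Finset.sum_congr rfl fun a _ => ?_
        have h3 : ρA a i j = algebraMap D.O ℂ (ρO a i j) := rfl
        have h4 : algebraMap D.O ℂ iv = ((Nat.card A : ℂ))⁻¹ := rfl
        have h5 : (m.map (algebraMap D.O ℂ) * ρA a⁻¹).trace = algebraMap D.O ℂ ((m * ρO ((a : B)⁻¹)).trace) := by
          rw [AddMonoidHom.map_trace (algebraMap D.O ℂ), Matrix.map_mul]
          rfl
        rw [Matrix.smul_apply, Matrix.smul_apply, h5, h3]
        simp only [smul_eq_mul, map_mul, map_natCast, h4]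
        ring
      have h5 : Function.Injective (fun X : Matrix (Fin n) (Fin n) D.O => X.map (algebraMap D.O ℂ)) := Matrix.map_injective hinj
      exact (h5 h2).symm
    rw [Full, eq_top_iff]
    intro y _
    obtain ⟨m, hm⟩ := V3b_lift D (LinearMap.toMatrix' y)
    have h1 : y = ∑ a : A, (IsLocalRing.residue D.O ((n : D.O) * iv * (m * ρO ((a : B)⁻¹)).trace)) • ρk a := by
      have h2 : y = Matrix.toLin' (m.map (IsLocalRing.residue D.O)) := by rw [hm, Matrix.toLin'_toMatrix']
      rw [h2]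
      have h3 : m.map (IsLocalRing.residue D.O) = ∑ a : A, (IsLocalRing.residue D.O ((n : D.O) * iv * (m * ρO ((a : B)⁻¹)).trace)) • (ρO a).map (IsLocalRing.residue D.O) := by
        have h4 := hkey m
        have h5 := congrArg (fun X : Matrix (Fin n) (Fin n) D.O => X.map (IsLocalRing.residue D.O)) h4
        refine h5.trans ?_
        ext i j
        rw [Matrix.map_apply, Matrix.sum_apply, map_sum, Matrix.sum_apply]
        refine Finset.sum_congr rfl fun a _ => ?_
        rw [Matrix.smul_apply, Matrix.smul_apply, smul_eq_mul, smul_eq_mul, map_mul, Matrix.map_apply]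
      rw [h3, map_sum]
      refine Finset.sum_congr rfl fun a _ => ?_
      rw [map_smul, hρk]
    rw [h1]
    refine Submodule.sum_mem _ fun a _ => Submodule.smul_mem _ _ (Submodule.subset_span ⟨a, a.2, rfl⟩)

/-- Two irreducible characters of a finite group of order prime to `p` with the same reduction are equal. Otherwise `∑ x, χ x * χ' x⁻¹ = 0` (`irr_ortho`, `char_inv`), while reducing gives `∑ x, red (χ x) * red (χ' x⁻¹) = ∑ x, red (χ x) * red (χ x⁻¹) = red (∑ x, χ x * χ x⁻¹) = card B ≠ 0` in `k`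
(`red_sum`, `red_mul`, `isIntegral_char`). -/
theorem red_inj {p : ℕ} (hp : p.Prime) (D : RedData p) {B : Type*} [Group B] [Finite B] (hB : ¬ p ∣ Nat.card B) {χ χ' : B → ℂ} (hχ : IsIrr χ) (hχ' : IsIrr χ')
    (h : ∀ x, D.red (χ x) = D.red (χ' x)) : χ = χ' := by
  have : Fintype B := Fintype.ofFinite B
  by_contra hne
  have hc := isChar_of_isIrr hχ
  have hc' := isChar_of_isIrr hχ'
  have hO : ∀ x, χ x ∈ D.O := fun x => D.int _ (isIntegral_char hc x)
  have hO' : ∀ x, χ' x ∈ D.O := fun x => D.int _ (isIntegral_char hc' x)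
  have hcard : (Nat.card B : ℂ) ≠ 0 := by exact_mod_cast Nat.card_pos.ne'
  have h1 : ∑ x, χ x * χ' x⁻¹ = 0 := by
    have h2 := irr_ortho hχ hχ'
    rw [if_neg hne, mul_eq_zero] at h2
    have h3 := h2.resolve_left (inv_ne_zero hcard)
    rw [← h3]
    exact Finset.sum_congr rfl fun x _ => by rw [char_inv hc' x]
  have h4 : ∑ x, χ x * χ x⁻¹ = (Nat.card B : ℂ) := by
    have h2 := irr_ortho hχ hχ
    rw [if_pos rfl] at h2
    have h3 : ∑ x, χ x * conj (χ x) = (Nat.card B : ℂ) := by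
      have h5 : (Nat.card B : ℂ) * ((Nat.card B : ℂ)⁻¹ * ∑ x, χ x * conj (χ x)) = (Nat.card B : ℂ) * 1 := by rw [h2]
      rw [← mul_assoc, mul_inv_cancel₀ hcard, one_mul, mul_one] at h5
      exact h5
    rw [← h3]
    exact Finset.sum_congr rfl fun x _ => by rw [char_inv hc x]
  have h6 : D.red (∑ x, χ x * χ' x⁻¹) = D.red (∑ x, χ x * χ x⁻¹) := by
    rw [red_sum D _ _ fun x _ => mul_mem (hO x) (hO' x⁻¹),
      red_sum D _ _ fun x _ => mul_mem (hO x) (hO x⁻¹)]
    refine Finset.sum_congr rfl fun x _ => ?_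
    rw [red_mul D (hO x) (hO' x⁻¹), red_mul D (hO x) (hO x⁻¹), h x⁻¹]
  rw [h1, h4, red_natCast] at h6
  have h7 : D.red (0 : ℂ) = 0 := by
    have h8 := red_natCast D 0
    simpa using h8
  rw [h7] at h6
  exact natCast_ne D hp hB h6.symm

end Pool.Agent.Lib.H90S
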