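import Pool.Agent.Lib.H90Q.K16
import Pool.Agent.Lib.H90S.V3

/-!
H90S, W2: preparation of the key theorem.
-/

open scoped Classical ComplexConjugate BigOperators

noncomputable section

namespace Pool.Agent.Lib.H90S

open Pool.Agent.Lib.H90Q

/-- The subgroup `P1` of the `u ∈ P` such that `u ^ p` centralises `L`, and the set `Z` of the good elements of `P1`, with the hypotheses of `key_k`. (`P` is abelian, so `(u v) ^ p = u ^ p v ^ p`; `(s u s⁻¹) ^ p = s u ^ p s⁻¹` centralises `s L s⁻¹ = L`; `CM L {s z s⁻¹}` is the conjugate of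
`CM L {z} = L ⊓ S` by `s ∈ S`, which is `L ⊓ S`.) -/
theorem W2_P1 {G : Type*} [Group G] {p : ℕ} {L P S : Subgroup G} (hLS : ∀ s ∈ S, Nz s L) (hPS : ∀ s ∈ S, Nz s P)
    (hab : ∀ b ∈ P, ∀ c ∈ P, b * c = c * b) (hC : L ⊓ S = CM L (P : Set G)) :
    ∃ (P1 : Subgroup G) (Z : Set G), P1 ≤ P ∧ (∀ u, u ∈ P1 ↔ u ∈ P ∧ ∀ l ∈ L, u ^ p * l = l * u ^ p) ∧ (∀ z, z ∈ Z ↔ z ∈ P1 ∧ CM L {z} = CM L (P : Set G)) ∧
      (∀ s ∈ S, Nz s P1) ∧ (∀ s ∈ S, ∀ z ∈ Z, s * z * s⁻¹ ∈ Z) ∧ (∀ z ∈ Z, ∀ l ∈ L, l * z = z * l → l ∈ S) ∧ ∀ c ∈ L ⊓ S, ∀ u ∈ P, c * u = u * c := by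
  let P1 : Subgroup G := {
    carrier := {u | u ∈ P ∧ ∀ l ∈ L, u ^ p * l = l * u ^ p}
    mul_mem' := by
      rintro u v ⟨hu, hu2⟩ ⟨hv, hv2⟩
      refine ⟨P.mul_mem hu hv, fun l hl => ?_⟩
      have e : (u * v) ^ p = u ^ p * v ^ p := (show Commute u v from hab u hu v hv).mul_pow p
      rw [e, mul_assoc, hv2 l hl, ← mul_assoc, hu2 l hl, mul_assoc]
    one_mem' := ⟨P.one_mem, fun l _ => by simp⟩
    inv_mem' := by
      rintro u ⟨hu, hu2⟩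
      refine ⟨P.inv_mem hu, fun l hl => ?_⟩
      have h1 : Commute (u ^ p) l := hu2 l hl
      have h2 : Commute (u ^ p)⁻¹ l := h1.inv_left
      rw [inv_pow]
      exact h2 }
  have hP1 : ∀ u, u ∈ P1 ↔ u ∈ P ∧ ∀ l ∈ L, u ^ p * l = l * u ^ p := fun u => Iff.rfl
  have hmCM : ∀ {z d : G}, d ∈ CM L {z} ↔ d ∈ L ∧ d * z = z * d := by
    intro z d
    unfold CM
    rw [Subgroup.mem_inf, Subgroup.mem_centralizer_singleton_iff]
  have hmCP : ∀ {d : G}, d ∈ CM L (P : Set G) ↔ d ∈ L ∧ ∀ z ∈ P, z * d = d * z := by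
    intro d
    unfold CM
    rw [Subgroup.mem_inf, Subgroup.mem_centralizer_iff]
    rfl
  have hcomm : ∀ c ∈ L ⊓ S, ∀ u ∈ P, c * u = u * c := by
    intro c hc u hu
    rw [hC, hmCP] at hc
    exact (hc.2 u hu).symm
  have hconjL : ∀ s ∈ S, ∀ l ∈ L, s⁻¹ * l * s ∈ L := by
    intro s hs l hl
    have h1 := (hLS s⁻¹ (S.inv_mem hs) l).1 hl
    rwa [inv_inv] at h1
  -- conjugates of the elements of `P1`
  have key1 : ∀ s ∈ S, ∀ u ∈ P1, s * u * s⁻¹ ∈ P1 := by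
    intro s hs u hu
    obtain ⟨hu1, hu2⟩ := (hP1 u).1 hu
    refine (hP1 _).2 ⟨(hPS s hs u).1 hu1, fun l hl => ?_⟩
    have h1 := hu2 _ (hconjL s hs l hl)
    have e : (s * u * s⁻¹) ^ p = s * u ^ p * s⁻¹ := conj_pow
    rw [e]
    calc s * u ^ p * s⁻¹ * l = s * (u ^ p * (s⁻¹ * l * s)) * s⁻¹ := by group
      _ = s * ((s⁻¹ * l * s) * u ^ p) * s⁻¹ := by rw [h1]
      _ = l * (s * u ^ p * s⁻¹) := by group
  have key2 : ∀ s ∈ S, ∀ z ∈ P, CM L {z} = CM L (P : Set G) → CM L {s * z * s⁻¹} = CM L (P : Set G) := by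
    intro s hs z hz hzC
    apply le_antisymm
    · intro d hd
      rw [hmCM] at hd
      have h1 : s⁻¹ * d * s ∈ CM L {z} := by
        rw [hmCM]
        refine ⟨hconjL s hs d hd.1, ?_⟩
        have h3 := hd.2
        calc s⁻¹ * d * s * z = s⁻¹ * (d * (s * z * s⁻¹)) * s := by group
          _ = s⁻¹ * ((s * z * s⁻¹) * d) * s := by rw [h3]
          _ = z * (s⁻¹ * d * s) := by group
      rw [hzC, ← hC] at h1
      rw [← hC]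
      have h2 : s * (s⁻¹ * d * s) * s⁻¹ ∈ S := S.mul_mem (S.mul_mem hs h1.2) (S.inv_mem hs)
      have e : s * (s⁻¹ * d * s) * s⁻¹ = d := by group
      rw [e] at h2
      exact ⟨hd.1, h2⟩
    · intro d hd
      rw [hmCP] at hd
      rw [hmCM]
      exact ⟨hd.1, (hd.2 _ ((hPS s hs z).1 hz)).symm⟩
  refine ⟨P1, {z | z ∈ P1 ∧ CM L {z} = CM L (P : Set G)}, fun u hu => hu.1, hP1, fun z => Iff.rfl, ?_, ?_, ?_, hcomm⟩
  · intro s hs u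
    constructor
    · exact key1 s hs u
    · intro h1
      have h2 := key1 s⁻¹ (S.inv_mem hs) _ h1
      have e : s⁻¹ * (s * u * s⁻¹) * s⁻¹⁻¹ = u := by group
      rwa [e] at h2
  · rintro s hs z ⟨hz, hzC⟩
    exact ⟨key1 s hs z hz, key2 s hs z hz.1 hzC⟩
  · rintro z ⟨hz, hzC⟩ l hl hlz
    have h1 : l ∈ CM L {z} := hmCM.2 ⟨hl, hlz⟩
    rw [hzC, ← hC] at h1
    exact h1.2

variable {G : Type*} [Group G] [Fintype G]

/-- The reduction of `Φ ∈ IrrS T`: `red_rep` for `B = T`, `A = L.subgroupOf T`, whose elements are the `t : T` with `(t : G) ∈ L`; the restriction of `Φ` to it is `θ` (transport along the isomorphism of `L.subgroupOf T` with `L`, `isIrr_comp`). -/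
theorem W2_rep {p : ℕ} (hp : p.Prime) (D : RedData p) {T L : Subgroup G} (hLT : L ≤ T) (hL : ¬ p ∣ Nat.card L) {θ Φ : G → ℂ} (hθ : θ ∈ IrrS L) (hΦ : Φ ∈ IrrS T) (he : ∀ l ∈ L, Φ l = θ l) :
    ∃ (n : ℕ) (ρ : T →* Module.End D.k (Fin n → D.k)), 0 < n ∧ (n : D.k) ≠ 0 ∧ (∀ b : T, LinearMap.trace D.k (Fin n → D.k) (ρ b) = D.red (Φ b)) ∧ Full ρ {t : T | (t : G) ∈ L} := by
  have hA : ¬ p ∣ Nat.card (L.subgroupOf T) := by
    rw [Nat.card_congr (Subgroup.subgroupOfEquivOfLe hLT).toEquiv]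
    exact hL
  have h1 : IsIrr (fun t : T => Φ t) := hΦ.2
  have h3 : IsIrr (fun a : (L.subgroupOf T) => (fun t : T => Φ t) a) := by
    have h4 := isIrr_comp (Subgroup.subgroupOfEquivOfLe hLT).toMonoidHom
      (Subgroup.subgroupOfEquivOfLe hLT).surjective hθ.2
    have h5 : (fun a : (L.subgroupOf T) => (fun t : T => Φ t) a) =
        fun a => θ ((Subgroup.subgroupOfEquivOfLe hLT a : L) : G) := by
      funext a
      have h6 : ((a : T) : G) ∈ L := Subgroup.mem_subgroupOf.1 a.2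
      exact he _ h6
    rw [h5]
    exact h4
  obtain ⟨n, ρ, hn, -, hn', htr, hfull⟩ := red_rep hp D (L.subgroupOf T) hA h1 h3
  refine ⟨n, ρ, hn, hn', htr, ?_⟩
  have h6 : {t : T | (t : G) ∈ L} = ((L.subgroupOf T : Subgroup T) : Set T) := by
    ext t
    simp [Subgroup.mem_subgroupOf]
  rw [h6]
  exact hfull

/-- The reduction of `Ψ`: `W2_rep` for `S` and `L ⊓ S`; `{s : S | (s : G) ∈ L ⊓ S} = {s : S | (s : G) ∈ L}`. -/
theorem W2_rep_S {p : ℕ} (hp : p.Prime) (D : RedData p) {L S : Subgroup G} (hS : ¬ p ∣ Nat.card S) {θs Ψ : G → ℂ} (hθs : θs ∈ IrrS (L ⊓ S)) (hΨ : Ψ ∈ IrrS S)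
    (he : ∀ c ∈ L ⊓ S, Ψ c = θs c) :
    ∃ (m : ℕ) (σ : S →* Module.End D.k (Fin m → D.k)), 0 < m ∧ (m : D.k) ≠ 0 ∧ (∀ s : S, LinearMap.trace D.k (Fin m → D.k) (σ s) = D.red (Ψ s)) ∧ Full σ {s : S | (s : G) ∈ L} := by
  have hL : ¬ p ∣ Nat.card (L ⊓ S : Subgroup G) := fun h =>
    hS (h.trans (Subgroup.card_dvd_of_le inf_le_right))
  obtain ⟨m, σ, hm, hm', htr, hfull⟩ := W2_rep hp D (inf_le_right : L ⊓ S ≤ S) hL hθs hΨ he
  refine ⟨m, σ, hm, hm', htr, ?_⟩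
  have h6 : {s : S | (s : G) ∈ L} = {t : S | (t : G) ∈ L ⊓ S} := by
    ext s
    simp [Subgroup.mem_inf]
  rw [h6]
  exact hfull

/-- Lift to a linear character of `S` trivial on `L ⊓ S`: `red_lift` gives `f0 : S →* ℂˣ`; `f g = f0 ⟨g, _⟩` on `S`, `0` off `S`. For `s ∈ L`: `f0 s ^ card S = 1` and `red (f0 s) = 1`, so `f0 s = 1` (`red_root_one`). -/
theorem W2_lift {p : ℕ} (hp : p.Prime) (D : RedData p) {L S : Subgroup G} (hS : ¬ p ∣ Nat.card S) (fb : S →* (D.k)ˣ) (h1 : ∀ s : S, (s : G) ∈ L → fb s = 1) :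
    ∃ f ∈ LinS S (L ⊓ S), ∀ s : S, D.red (f s) = (fb s : D.k) ∧ f s ∈ D.O := by
  obtain ⟨f0, hf0⟩ := red_lift D hp hS fb
  have hm0 : Nat.card S ≠ 0 := fun h0 => hS (h0 ▸ dvd_zero p)
  have hpow : ∀ s : S, ((f0 s : ℂˣ) : ℂ) ^ Nat.card S = 1 := by
    intro s
    rw [← Units.val_pow_eq_pow_val, ← map_pow, pow_card_eq_one', map_one, Units.val_one]
  refine ⟨fun g => if h : g ∈ S then ((f0 ⟨g, h⟩ : ℂˣ) : ℂ) else 0, ⟨?_, ?_, ?_⟩, ?_⟩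
  · intro g hg
    exact dif_neg hg
  · intro g hg
    have hgS : g ∈ S := hg.2
    show (if h : g ∈ S then ((f0 ⟨g, h⟩ : ℂˣ) : ℂ) else 0) = 1
    rw [dif_pos hgS]
    refine red_root_one D hp hS (hpow ⟨g, hgS⟩) ?_
    rw [hf0, h1 ⟨g, hgS⟩ hg.1, Units.val_one]
  · intro a ha b hb
    show (if h : a * b ∈ S then ((f0 ⟨a * b, h⟩ : ℂˣ) : ℂ) else 0) =
      (if h : a ∈ S then ((f0 ⟨a, h⟩ : ℂˣ) : ℂ) else 0) * (if h : b ∈ S then ((f0 ⟨b, h⟩ : ℂˣ) : ℂ) else 0)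
    rw [dif_pos ha, dif_pos hb, dif_pos (S.mul_mem ha hb)]
    have e : (⟨a * b, S.mul_mem ha hb⟩ : S) = ⟨a, ha⟩ * ⟨b, hb⟩ := rfl
    rw [e, map_mul, Units.val_mul]
  · intro s
    show D.red (if h : (s : G) ∈ S then ((f0 ⟨s, h⟩ : ℂˣ) : ℂ) else 0) = (fb s : D.k) ∧
      (if h : (s : G) ∈ S then ((f0 ⟨s, h⟩ : ℂˣ) : ℂ) else 0) ∈ D.O
    rw [dif_pos s.2]
    refine ⟨hf0 s, D.int _ (IsIntegral.of_pow (Nat.pos_of_ne_zero hm0) ?_)⟩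
    rw [hpow]
    exact isIntegral_one

/-- `red_inj` in ambient form. `ψ ∈ IrrS Δ`, `g = rs Δ (f * Ψ)` is in `IrrS Δ` (`lin_mul_irr`, `charS_rs`, `irrS_of_ext` with `C ≤ Δ` on which it is `θs`), apply `red_inj` to the group `Δ` (its order divides that of `S`). -/
theorem W2_eq {p : ℕ} (hp : p.Prime) (D : RedData p) {L S Δ : Subgroup G} (hS : ¬ p ∣ Nat.card S) (hΔS : Δ ≤ S) (hCΔ : L ⊓ S ≤ Δ) {θs Ψ f ψ : G → ℂ} (hθs : θs ∈ IrrS (L ⊓ S)) (hΨ : Ψ ∈ IrrS S)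
    (he : ∀ c ∈ L ⊓ S, Ψ c = θs c) (hf : f ∈ LinS S (L ⊓ S)) (hψ : ψ ∈ IrrS Δ) (h : ∀ d ∈ Δ, D.red (ψ d) = D.red (f d * Ψ d)) : ∀ d ∈ Δ, ψ d = f d * Ψ d := by
  have hg1 : f * Ψ ∈ IrrS S := lin_mul_irr hf hΨ
  have hg2 : rs Δ (f * Ψ) ∈ CharS Δ := charS_rs hΔS (charS_of_irrS hg1)
  have hv : ∀ d ∈ Δ, rs Δ (f * Ψ) d = f d * Ψ d := by
    intro d hd
    unfold rs
    rw [if_pos hd]
    rfl
  have hg : rs Δ (f * Ψ) ∈ IrrS Δ := by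
    refine irrS_of_ext hCΔ hg2 hθs ?_
    intro x hx
    rw [hv x (hCΔ hx), hf.2.1 x hx, one_mul, he x hx]
  have hΔ : ¬ p ∣ Nat.card Δ := fun h' => hS (h'.trans (Subgroup.card_dvd_of_le hΔS))
  have key := red_inj hp D hΔ hψ.2 hg.2 (fun x => by
    have h2 := h x x.2
    rw [← hv x x.2] at h2
    exact h2)
  intro d hd
  have h3 := congrFun key ⟨d, hd⟩
  have h4 : ψ d = rs Δ (f * Ψ) d := h3
  rw [h4, hv d hd]

end Pool.Agent.Lib.H90S
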