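import Pool.Agent.Lib.H90S.S9
import Pool.Agent.Lib.H90S.W1
import Pool.Agent.Lib.H90S.W2

/-!
H90S: the key theorem (interface to Lib/H88B).
-/

open scoped Classical ComplexConjugate BigOperators

noncomputable section

namespace Pool.Agent.Lib.H90S

open Pool.Agent.Lib.H90Q

/-- values of characters are in the valuation ring -/
private theorem key_int {G : Type*} [Group G] [Fintype G] {p : ℕ} (D : RedData p) {H : Subgroup G} {f : G → ℂ} (hf : f ∈ CharS H) (g : G) :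
    f g ∈ D.O := by
  by_cases hg : g ∈ H
  · exact D.int _ (isIntegral_char hf.2 ⟨g, hg⟩)
  · rw [hf.1 g hg]
    exact D.O.zero_mem

private theorem key_Nz {G : Type*} [Group G] [Fintype G] {L T : Subgroup G} {A B C : Subgroup G} (hT : T = A ⊔ B ⊔ C)
    (hA : ∀ g ∈ A, Nz g L) (hB : ∀ g ∈ B, Nz g L) (hC : ∀ g ∈ C, Nz g L) : ∀ g ∈ T, Nz g L := by
  let N : Subgroup G :=
    { carrier := {g | Nz g L}
      mul_mem' := fun ha hb => nz_mul ha hb
      one_mem' := nz_mem L.one_mem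
      inv_mem' := fun ha => nz_inv ha }
  have h : T ≤ N := by
    rw [hT]
    exact sup_le (sup_le hA hB) hC
  exact fun g hg => h hg

/-- KEY. `Φ` extends the canonical extension `Θ` of `θ` to `L P S`, `Ψ` extends the Glauberman correspondent `θs` to `S`. Then they are related by ONE linear character `f` of `S` at all `x ∈ P` some power `z = x ^ j` of which satisfies
`C_L(z) = C_L(P)` and `z ^ p` centralises `L`.

Proof. `T = L ⊔ P ⊔ S`; the elements `g` with `Nz g L` form a subgroup containing `L`, `P`, `S`, so `Nz g L` for all `g ∈ T` (`nz_mul`, `nz_mem`, `nz_inv`, `Subgroup.closure_induction` or a subgroup structure). `W2_P1` gives `P1`, `Z`. If `Z` is empty there is no such `x` (`x ^ j ∈ Z`): take `ε = 1` and `f = 1` on `S` (`lin_triv`). Otherwise `canP_val` gives `ε` (`Θ (z * c) = ε * θs c` for good `z`, `c ∈ CM L {z} = L ⊓ S`);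
`D : RedData p` from `redData_exists`, `CharP D.k p` is `D.char`; `W2_rep` (for `T`), `W2_rep_S` give `ρ : T →* _`, `σ`. `htr` of `key_kT` with `e = (ε : k)`: for `s ∈ L ⊓ S` and `z ∈ Z`: `trace (ρ s) = trace (ρ (z * s))` (`S5_trace`, `S5_pow`) `= red (Φ (z * s)) = red (ε * θs s) = ε * red (Ψ s)`.
`key_kT` gives `fb`, `W2_lift` gives `f`. Let `x ∈ P`, `z = x ^ j ∈ Z`, `u ∈ S` commuting with `x`. `CM L {x} = CM L P` too (`CM L P ≤ CM L {x} ≤ CM L {x ^ j}`). `W1_values` gives `ψ`; for `d ∈ Δ = S ⊓ centralizer {x}`: `ε * red (ψ d) = red (Φ (z * d)) = trace (ρ (z * d)) = trace (ρ d) = ε * fb d * trace (σ d) = ε * red (f d * Ψ d)`.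
`W2_eq`: `ψ d = f d * Ψ d`. So `Φ (x * u) = ε * ψ u = ε * f u * Ψ u` (`j = 1` in `W1_values`). Integrality for `red_mul`: `isIntegral_char`, `D.int`. -/
theorem key {G : Type*} [Group G] [Fintype G] {p : ℕ} [Fact p.Prime] {L P S : Subgroup G} (hLP : ∀ z ∈ P, Nz z L) (hLS : ∀ s ∈ S, Nz s L)
    (hPS : ∀ s ∈ S, Nz s P) (hL : ¬ p ∣ Nat.card L) (hS : ¬ p ∣ Nat.card S) (hPp : ∀ z ∈ P, ∃ a : ℕ, z ^ (p ^ a) = 1) (hab : ∀ b ∈ P, ∀ c ∈ P, b * c = c * b)
    (hC : L ⊓ S = CM L (P : Set G)) {θ θs Θ Φ Ψ : G → ℂ} (hθ : θ ∈ IrrS L) (hinv : InvS P θ) (hGC : GC p L (P : Set G) θ θs) (hcan : CanP p L P θ Θ)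
    (hΦ : Φ ∈ IrrS (L ⊔ P ⊔ S)) (hΦe : ∀ g ∈ L ⊔ P, Φ g = Θ g) (hΨ : Ψ ∈ IrrS S) (hΨe : ∀ g ∈ L ⊓ S, Ψ g = θs g) :
    ∃ ε : ℂ, (ε = 1 ∨ ε = -1) ∧ ∃ f ∈ LinS S (L ⊓ S), ∀ x ∈ P,
      (∃ j : ℕ, CM L {x ^ j} = CM L (P : Set G) ∧ ∀ l ∈ L, (x ^ j) ^ p * l = l * (x ^ j) ^ p) →
        ∀ u ∈ S, u * x = x * u → Φ (x * u) = ε * f u * Ψ u := by
  have hp : p.Prime := Fact.out
  obtain ⟨T, hT⟩ : ∃ T : Subgroup G, T = L ⊔ P ⊔ S := ⟨_, rfl⟩
  have hLT : L ≤ T := by rw [hT]; exact le_sup_left.trans le_sup_left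
  have hPT : P ≤ T := by rw [hT]; exact le_sup_right.trans le_sup_left
  have hST : S ≤ T := by rw [hT]; exact le_sup_right
  have hLn : ∀ g ∈ T, Nz g L := key_Nz hT (fun g hg => nz_mem hg) hLP hLS
  obtain ⟨P1, Z, hP1P, hP1, hZ, hP1S, hZS, hZC, hCP⟩ := W2_P1 (p := p) hLS hPS hab hC
  have hmemZ : ∀ x ∈ P, ∀ j : ℕ, CM L {x ^ j} = CM L (P : Set G) → (∀ l ∈ L, (x ^ j) ^ p * l = l * (x ^ j) ^ p) → x ^ j ∈ Z :=
    fun x hx j h1 h2 => (hZ _).2 ⟨(hP1 _).2 ⟨P.pow_mem hx j, h2⟩, h1⟩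
  by_cases hne : Z.Nonempty
  · obtain ⟨ε₀, hε₀, -, hv⟩ := canP_val hL hLP hPp hab hθ hcan hGC
    have hε : (ε₀ : ℂ) = 1 ∨ (ε₀ : ℂ) = -1 := by
      rcases hε₀ with rfl | rfl
      · left
        norm_num
      · right
        norm_num
    obtain ⟨D⟩ := redData_exists p hp
    haveI : CharP D.k p := D.char
    have hεO : (ε₀ : ℂ) ∈ D.O := D.int _ isIntegral_algebraMap
    have hred : D.red (ε₀ : ℂ) = (ε₀ : D.k) := red_intCast D ε₀
    have he2 : (ε₀ : D.k) * (ε₀ : D.k) = 1 := by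
      rcases hε₀ with rfl | rfl <;> norm_num
    have he0 : (ε₀ : D.k) ≠ 0 := left_ne_zero_of_mul (he2 ▸ one_ne_zero)
    have hθs : θs ∈ IrrS (L ⊓ S) := by
      rw [hC]
      exact hGC.2.1
    rw [← hT] at hΦ
    obtain ⟨n, ρ, hn0, hn, htrρ, hfull⟩ := W2_rep hp D hLT hL hθ hΦ fun l hl => by
      rw [hΦe l (Subgroup.mem_sup_left hl), hcan.1.ext l hl]
    obtain ⟨m, σ, hm0, hm, htrσ, hfullσ⟩ := W2_rep_S hp D hS hθs hΨ hΨe
    have hCMz : ∀ z ∈ P, CM L {z} = CM L (P : Set G) → ∀ c ∈ L ⊓ S, c ∈ CM L {z} := by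
      intro z _ h1 c hc
      rw [h1, ← hC]
      exact hc
    -- elements of `Z` act with `ρ z ^ p = 1`
    have hρz : ∀ z (hz : z ∈ Z), ρ ⟨z, hPT (hP1P ((hZ z).1 hz).1)⟩ ^ p = 1 := by
      intro z hz
      have hz1 := ((hZ z).1 hz).1
      obtain ⟨a, ha⟩ := hPp z (hP1P hz1)
      refine S5_pow ρ (L := L.subgroupOf T) (a := a) ?_ ?_ ?_
      · exact hfull
      · apply Subtype.ext
        show z ^ (p ^ a) = 1
        exact ha
      · intro l hl
        apply Subtype.ext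
        show z ^ p * (l : G) = (l : G) * z ^ p
        exact ((hP1 z).1 hz1).2 _ hl
    have htrz : ∀ z (hz : z ∈ Z), ∀ d (hd : d ∈ T), d * z = z * d →
        LinearMap.trace D.k (Fin n → D.k) (ρ ⟨d, hd⟩) = D.red (Φ (z * d)) := by
      intro z hz d hd hdz
      have h1 := S5_trace (p := p) ρ (z := ⟨z, hPT (hP1P ((hZ z).1 hz).1)⟩) (g := ⟨d, hd⟩) (hρz z hz)
        (by
          apply Subtype.ext
          show d * z = z * d
          exact hdz)
      rw [← h1, htrρ]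
      rfl
    have htr : ∀ (s : G) (hs : s ∈ S), s ∈ L →
        LinearMap.trace D.k (Fin n → D.k) (ρ ⟨s, hST hs⟩) = (ε₀ : D.k) * LinearMap.trace D.k (Fin m → D.k) (σ ⟨s, hs⟩) := by
      intro s hs hsL
      obtain ⟨z, hz⟩ := hne
      have hz1 := (hZ z).1 hz
      have hzP : z ∈ P := hP1P hz1.1
      have hsc : s ∈ L ⊓ S := ⟨hsL, hs⟩
      rw [htrz z hz s (hST hs) (hCP s hsc z hzP), htrσ,
        hΦe _ ((L ⊔ P).mul_mem (Subgroup.mem_sup_right hzP) (Subgroup.mem_sup_left hsL)),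
        hv z hzP hz1.2 s (hCMz z hzP hz1.2 s hsc), red_mul D hεO (key_int D (charS_of_irrS hθs) s), hred, ← hΨe s hsc]
    obtain ⟨fb, hfb1, hfb⟩ := key_kT (k := D.k) (V := Fin n → D.k) (W := Fin m → D.k) hLT (hP1P.trans hPT) hST hLn hP1S
      (fun b hb c hc => hab b (hP1P hb) c (hP1P hc)) (fun u hu => hPp u (hP1P hu)) (fun u hu => ((hP1 u).1 hu).2)
      (fun c hc u hu => hCP c hc u (hP1P hu)) hL hS ρ σ hfull hfullσ
      (by rw [Module.finrank_fin_fun]; exact hn) (by rw [Module.finrank_fin_fun]; exact hm) he0 htr Z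
      (fun z hz => ((hZ z).1 hz).1) hZS hZC
    obtain ⟨f, hf, hfr⟩ := W2_lift hp D hS fb hfb1
    refine ⟨(ε₀ : ℂ), hε, f, hf, ?_⟩
    rintro x hx ⟨j, hjC, hjp⟩ u hu hux
    have hzZ : x ^ j ∈ Z := hmemZ x hx j hjC hjp
    have hxC : CM L {x} = CM L (P : Set G) := by
      apply le_antisymm
      · rw [← hjC]
        intro c hc
        rw [mem_CM_single] at hc ⊢
        have h1 : Commute c x := hc.2
        exact ⟨hc.1, h1.pow_right j⟩
      · intro c hc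
        rw [mem_CM] at hc
        rw [mem_CM_single]
        exact ⟨hc.1, hc.2 x hx⟩
    rw [hT] at hΦ
    obtain ⟨ψ, hψ, hψC, hψv⟩ := W1_values hLP hLS hL hS hPp hab hC hθ hGC hcan hΦ hΦe hε hx hxC
      (fun c hc => hv x hx hxC c (hCMz x hx hxC c hc))
    have hCΔ : L ⊓ S ≤ S ⊓ Subgroup.centralizer {x} := by
      intro c hc
      exact ⟨hc.2, Subgroup.mem_centralizer_singleton_iff.2 (hCP c hc x hx)⟩
    have heq := W2_eq hp D hS (Δ := S ⊓ Subgroup.centralizer {x}) inf_le_left hCΔ hθs hΨ hΨe hf hψ (by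
      intro d hd
      have hdS : d ∈ S := hd.1
      have hdx : d * x = x * d := Subgroup.mem_centralizer_singleton_iff.1 hd.2
      have hdz : d * x ^ j = x ^ j * d := (show Commute d x from hdx).pow_right j
      have h1 := hfb (x ^ j) hzZ d hdS hdz
      rw [htrz (x ^ j) hzZ d (hST hdS) hdz, htrσ, hψv j hjC d hd, red_mul D hεO (key_int D (charS_of_irrS hψ) d), hred] at h1
      have h2 : D.red (ψ d) = (fb ⟨d, hdS⟩ : D.k) * D.red (Ψ d) := by
        have h3 := congrArg (fun y => (ε₀ : D.k) * y) h1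
        simp only [← mul_assoc, he2, one_mul] at h3
        exact h3
      rw [h2, red_mul D (hfr ⟨d, hdS⟩).2 (key_int D (charS_of_irrS hΨ) d), (hfr ⟨d, hdS⟩).1])
    have hu' : u ∈ S ⊓ Subgroup.centralizer {x} := ⟨hu, Subgroup.mem_centralizer_singleton_iff.2 hux⟩
    have h1 := hψv 1 (by rw [pow_one]; exact hxC) u hu'
    rw [pow_one x] at h1
    rw [h1, heq u hu', mul_assoc]
  · refine ⟨1, Or.inl rfl, fun x => if x ∈ S then (1 : ℂ) else 0, lin_triv inf_le_right, ?_⟩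
    rintro x hx ⟨j, hjC, hjp⟩
    exact absurd ⟨_, hmemZ x hx j hjC hjp⟩ hne

end Pool.Agent.Lib.H90S
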