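import Pool.Agent.Lib.H90S.S1

/-!
H90S, S2: endomorphisms commuting with `z` act on `ker (z - 1)` modulo `range ((z - 1) ^ (p - 1))` through `C_L(z)`.
-/

open scoped Classical BigOperators

noncomputable section

namespace Pool.Agent.Lib.H90S

open Pool.Agent.Lib.H90Q

variable {k V : Type*} [Field k] [AddCommGroup V] [Module k V] [FiniteDimensional k V]

/-- In characteristic `p`: `∑ j < p, A ^ j = (A - 1) ^ (p - 1)`. Polynomial identity `∑ X ^ j = (X - 1) ^ (p - 1)` (multiply by `X - 1`: `X ^ p - 1 = (X - 1) ^ p`), then `Polynomial.aeval`. -/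
theorem S2_geom {p : ℕ} [Fact p.Prime] [CharP k p] (A : Module.End k V) : ∑ j ∈ Finset.range p, A ^ j = (A - 1) ^ (p - 1) := by
  have h : (∑ j ∈ Finset.range p, (Polynomial.X : Polynomial k) ^ j) =
      (Polynomial.X - 1) ^ (p - 1) := by
    have hne : (Polynomial.X - 1 : Polynomial k) ≠ 0 := by
      have := Polynomial.X_sub_C_ne_zero (1 : k)
      rwa [Polynomial.C_1] at this
    refine mul_right_cancel₀ hne ?_
    have hp : 1 ≤ p := (Fact.out : p.Prime).one_lt.le
    rw [geom_sum_mul, ← pow_succ, Nat.sub_add_cancel hp, sub_pow_char, one_pow]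
  have h2 := congrArg (Polynomial.aeval A) h
  simpa using h2

/-- One orbit: for `v` fixed by `ρ z`, `∑ j < p, ρ (z ^ j * l * (z ^ j)⁻¹) v = ((ρ z - 1) ^ (p - 1)) (ρ l v)`: `ρ (z ^ j)⁻¹` fixes `v`; `S2_geom`. -/
theorem S2_orbit {p : ℕ} [Fact p.Prime] [CharP k p] {B : Type*} [Group B] (ρ : B →* Module.End k V) {z : B} {v : V} (hv : ρ z v = v) (l : B) :
    ∑ j ∈ Finset.range p, ρ (z ^ j * l * (z ^ j)⁻¹) v = ((ρ z - 1) ^ (p - 1)) (ρ l v) := by
  have hfix : ∀ j : ℕ, ρ (z ^ j)⁻¹ v = v := by
    intro j
    have h1 : ρ (z ^ j) v = v := by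
      induction j with
      | zero => rw [pow_zero, map_one, Module.End.one_apply]
      | succ j ih => rw [pow_succ, map_mul, Module.End.mul_apply, hv, ih]
    have h2 : ρ (z ^ j)⁻¹ (ρ (z ^ j) v) = v := by
      rw [← Module.End.mul_apply, ← map_mul, inv_mul_cancel, map_one, Module.End.one_apply]
    rw [h1] at h2
    exact h2
  have h3 : ∀ j ∈ Finset.range p, ρ (z ^ j * l * (z ^ j)⁻¹) v = ((ρ z) ^ j) (ρ l v) := by
    intro j _
    rw [map_mul, map_mul, Module.End.mul_apply, Module.End.mul_apply, hfix, map_pow]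
  rw [Finset.sum_congr rfl h3, ← S2_geom, LinearMap.sum_apply]

/-- A sum over a finite `z`-stable set `A` of elements not commuting with `z` but commuting with `z ^ p`, with coefficients constant on orbits, lies in `range ((ρ z - 1) ^ (p - 1))`. Strong induction on the size of `A`: for `l ∈ A` the `p` elements `z ^ j * l * (z ^ j)⁻¹`, `j < p`, are
distinct (otherwise `z ^ i` commutes with `l` for some `0 < i < p`, and `z ^ p` commutes with `l`, so `z` does) and form a stable subset; `S2_orbit`; remove them. -/
theorem S2_free {p : ℕ} [Fact p.Prime] [CharP k p] {B : Type*} [Group B] (ρ : B →* Module.End k V) {z : B} {v : V} (hv : ρ z v = v) (A : Finset B)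
    (hA : ∀ l, l ∈ A ↔ z * l * z⁻¹ ∈ A) (h1 : ∀ l ∈ A, l * z ≠ z * l) (h2 : ∀ l ∈ A, z ^ p * l = l * z ^ p) (b : B → k) (hb : ∀ l ∈ A, b (z * l * z⁻¹) = b l) :
    ∑ l ∈ A, b l • ρ l v ∈ LinearMap.range ((ρ z - 1) ^ (p - 1)) := by
  revert hA h1 h2 hb
  induction A using Finset.strongInduction with
  | H A ih =>
    intro hA h1 h2 hb
    rcases A.eq_empty_or_nonempty with rfl | ⟨l, hl⟩
    · rw [Finset.sum_empty]
      exact Submodule.zero_mem _
    · have hp : p.Prime := Fact.out
      have hjA : ∀ j : ℕ, z ^ j * l * (z ^ j)⁻¹ ∈ A := by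
        intro j
        induction j with
        | zero => simpa using hl
        | succ j ihj =>
          have h3 := (hA _).1 ihj
          have h4 : z ^ (j + 1) * l * (z ^ (j + 1))⁻¹ = z * (z ^ j * l * (z ^ j)⁻¹) * z⁻¹ := by
            rw [pow_succ']
            group
          rw [h4]
          exact h3
      have hbj : ∀ j : ℕ, b (z ^ j * l * (z ^ j)⁻¹) = b l := by
        intro j
        induction j with
        | zero => simp
        | succ j ihj =>
          have h4 : z ^ (j + 1) * l * (z ^ (j + 1))⁻¹ = z * (z ^ j * l * (z ^ j)⁻¹) * z⁻¹ := by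
            rw [pow_succ']
            group
          rw [h4, hb _ (hjA j), ihj]
      have hinj : Set.InjOn (fun j : ℕ => z ^ j * l * (z ^ j)⁻¹) (Finset.range p : Set ℕ) := by
        have key : ∀ i j : ℕ, i < j → j < p →
            z ^ i * l * (z ^ i)⁻¹ = z ^ j * l * (z ^ j)⁻¹ → False := by
          intro i j hij hjp he
          have hc1 : Commute (z ^ (j - i)) l := by
            have h5 : z ^ j = z ^ i * z ^ (j - i) := by
              rw [← pow_add]
              congr 1
              omega
            rw [h5] at he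
            have h6 : z ^ i * (z ^ (j - i) * l * (z ^ (j - i))⁻¹) * (z ^ i)⁻¹ =
                z ^ i * l * (z ^ i)⁻¹ := by
              rw [he]
              group
            have h7 : z ^ (j - i) * l * (z ^ (j - i))⁻¹ = l :=
              mul_left_cancel (mul_right_cancel h6)
            show z ^ (j - i) * l = l * z ^ (j - i)
            rw [mul_inv_eq_iff_eq_mul] at h7
            exact h7
          have hc2 : Commute (z ^ p) l := h2 l hl
          have hcop : Nat.Coprime (j - i) p := by
            exact Nat.Coprime.symm ((Nat.Prime.coprime_iff_not_dvd hp).2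
              (Nat.not_dvd_of_pos_of_lt (by omega) (by omega)))
          have hc3 : Commute z l := by
            have h8 := Nat.gcd_eq_gcd_ab (j - i) p
            rw [hcop.gcd_eq_one] at h8
            have h9 : z = (z ^ (j - i)) ^ (Nat.gcdA (j - i) p) * (z ^ p) ^ (Nat.gcdB (j - i) p) := by
              rw [← zpow_natCast, ← zpow_natCast, ← zpow_mul, ← zpow_mul, ← zpow_add, ← h8]
              simp
            rw [h9]
            exact (hc1.zpow_left _).mul_left (hc2.zpow_left _)
          exact h1 l hl hc3.symm.eq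
        intro i hi j hj he
        have hi' : i < p := by simpa using hi
        have hj' : j < p := by simpa using hj
        rcases lt_trichotomy i j with h | h | h
        · exact (key i j h hj' he).elim
        · exact h
        · exact (key j i h hi' he.symm).elim
      obtain ⟨O, hOdef⟩ : ∃ O : Finset B,
          O = (Finset.range p).image (fun j : ℕ => z ^ j * l * (z ^ j)⁻¹) := ⟨_, rfl⟩
      have hOm : ∀ l', l' ∈ O ↔ ∃ j < p, z ^ j * l * (z ^ j)⁻¹ = l' := by
        intro l'
        rw [hOdef, Finset.mem_image]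
        simp only [Finset.mem_range]
      have hOA : O ⊆ A := by
        intro l' hl'
        obtain ⟨j, _, rfl⟩ := (hOm l').1 hl'
        exact hjA j
      have hzp : z ^ p * l * (z ^ p)⁻¹ = l := by
        rw [h2 l hl, mul_inv_cancel_right]
      have hO : ∀ l', l' ∈ O ↔ z * l' * z⁻¹ ∈ O := by
        intro l'
        rw [hOm, hOm]
        constructor
        · rintro ⟨j, hj, rfl⟩
          have h4 : z ^ (j + 1) * l * (z ^ (j + 1))⁻¹ = z * (z ^ j * l * (z ^ j)⁻¹) * z⁻¹ := by
            rw [pow_succ']
            group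
          by_cases hjp : j + 1 = p
          · refine ⟨0, hp.pos, ?_⟩
            rw [← h4, hjp, hzp]
            simp
          · exact ⟨j + 1, by omega, h4⟩
        · rintro ⟨j, hj, he⟩
          rcases Nat.eq_zero_or_pos j with rfl | hj0
          · refine ⟨p - 1, Nat.sub_lt hp.pos one_pos, ?_⟩
            have h4 : z * (z ^ (p - 1) * l * (z ^ (p - 1))⁻¹) * z⁻¹ = z ^ p * l * (z ^ p)⁻¹ := by
              have h5 : z ^ p = z * z ^ (p - 1) := by
                rw [← pow_succ', Nat.sub_add_cancel hp.one_lt.le]
              rw [h5]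
              group
            have h6 : z * (z ^ (p - 1) * l * (z ^ (p - 1))⁻¹) * z⁻¹ = z * l' * z⁻¹ := by
              rw [h4, hzp, ← he]
              simp
            exact mul_left_cancel (mul_right_cancel h6)
          · refine ⟨j - 1, by omega, ?_⟩
            have h6 : z * (z ^ (j - 1) * l * (z ^ (j - 1))⁻¹) * z⁻¹ = z * l' * z⁻¹ := by
              rw [← he]
              have h5 : z ^ j = z * z ^ (j - 1) := by
                rw [← pow_succ', Nat.sub_add_cancel hj0]
              rw [h5]
              group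
            exact mul_left_cancel (mul_right_cancel h6)
      have hsum : ∑ l' ∈ O, b l' • ρ l' v = b l • ((ρ z - 1) ^ (p - 1)) (ρ l v) := by
        rw [hOdef, Finset.sum_image hinj, ← S2_orbit ρ hv l, Finset.smul_sum]
        refine Finset.sum_congr rfl fun j _ => ?_
        rw [hbj j]
      have hrest := ih (A \ O) (by
        refine Finset.sdiff_ssubset hOA ⟨l, ?_⟩
        rw [hOm]
        exact ⟨0, hp.pos, by simp⟩) (by
        intro l'
        rw [Finset.mem_sdiff, Finset.mem_sdiff, hA l', hO l']) (by
        intro l' hl'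
        exact h1 l' (Finset.mem_sdiff.1 hl').1) (by
        intro l' hl'
        exact h2 l' (Finset.mem_sdiff.1 hl').1) (by
        intro l' hl'
        exact hb l' (Finset.mem_sdiff.1 hl').1)
      rw [← Finset.sum_sdiff hOA, hsum]
      exact Submodule.add_mem _ hrest (Submodule.smul_mem _ _ ⟨_, rfl⟩)

/-- The action. `S1_formula` for `a`: `a = ∑ l ∈ L, c l • ρ l` with `c l = (dim V / card L) * trace (a * ρ l⁻¹)`, and `c (z * l * z⁻¹) = c l` because `a` commutes with `ρ z` (`LinearMap.trace_mul_comm`). Split `L` into the elements commuting with `z` and the rest; `S2_free`. -/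
theorem S2_action {p : ℕ} [Fact p.Prime] [CharP k p] {B : Type*} [Group B] [Fintype B] (ρ : B →* Module.End k V) {L : Subgroup B} {z : B} (hzL : Nz z L)
    (hzp : ∀ l ∈ L, z ^ p * l = l * z ^ p) (hLp : (Nat.card L : k) ≠ 0) (hfull : Full ρ (L : Set B)) (hd : (Module.finrank k V : k) ≠ 0)
    {a : Module.End k V} (ha : a * ρ z = ρ z * a) :
    ∃ c : B → k, ∀ v, ρ z v = v →
      a v - (∑ l : B, if l ∈ L ∧ l * z = z * l then c l • ρ l v else 0) ∈ LinearMap.range ((ρ z - 1) ^ (p - 1)) := by
  refine ⟨fun l => ((Module.finrank k V : k) * (Nat.card L : k)⁻¹) * LinearMap.trace k V (a * ρ l⁻¹),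
    fun v hv => ?_⟩
  have hform := S1_formula ρ L hfull hLp hd a
  have hav : a v = ∑ l : B, if l ∈ L then
      (((Module.finrank k V : k) * (Nat.card L : k)⁻¹) * LinearMap.trace k V (a * ρ l⁻¹)) • ρ l v
      else 0 := by
    have h := congrArg (fun f : Module.End k V => f v) hform
    simp only [LinearMap.smul_apply, LinearMap.sum_apply] at h
    rw [h, Finset.smul_sum]
    refine Finset.sum_congr rfl fun l _ => ?_
    by_cases hl : l ∈ L
    · simp only [hl, if_true, LinearMap.smul_apply, smul_smul]
    · simp only [hl, if_false, LinearMap.zero_apply, smul_zero]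
  have hsub : a v - (∑ l : B, if l ∈ L ∧ l * z = z * l then
      (((Module.finrank k V : k) * (Nat.card L : k)⁻¹) * LinearMap.trace k V (a * ρ l⁻¹)) • ρ l v
      else 0) = ∑ l ∈ Finset.univ.filter (fun l : B => l ∈ L ∧ l * z ≠ z * l),
      (((Module.finrank k V : k) * (Nat.card L : k)⁻¹) * LinearMap.trace k V (a * ρ l⁻¹)) •
        ρ l v := by
    rw [hav, ← Finset.sum_sub_distrib, Finset.sum_filter]
    refine Finset.sum_congr rfl fun l _ => ?_
    by_cases hl : l ∈ L
    · by_cases hz : l * z = z * l
      · simp [hl, hz]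
      · simp [hl, hz]
    · simp [hl]
  rw [hsub]
  refine S2_free ρ hv (Finset.univ.filter (fun l : B => l ∈ L ∧ l * z ≠ z * l)) ?_ ?_ ?_
    (fun l => ((Module.finrank k V : k) * (Nat.card L : k)⁻¹) * LinearMap.trace k V (a * ρ l⁻¹)) ?_
  · intro l
    simp only [Finset.mem_filter, Finset.mem_univ, true_and]
    rw [← hzL l]
    refine and_congr_right fun _ => not_congr ?_
    constructor
    · intro h
      rw [inv_mul_cancel_right, ← h, mul_inv_cancel_right, h]
    · intro h
      rw [inv_mul_cancel_right] at h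
      have h2 := mul_left_cancel h
      rw [eq_mul_inv_iff_mul_eq] at h2
      exact h2
  · intro l hl
    exact (Finset.mem_filter.1 hl).2.2
  · intro l hl
    exact hzp l (Finset.mem_filter.1 hl).2.1
  · intro l _
    show _ * _ = _ * _
    congr 1
    have h1 : (z * l * z⁻¹)⁻¹ = z * l⁻¹ * z⁻¹ := by group
    have h3 : a * ρ (z * l * z⁻¹)⁻¹ = ρ z * (a * (ρ l⁻¹ * ρ z⁻¹)) := by
      rw [h1, map_mul, map_mul, mul_assoc (ρ z), ← mul_assoc a, ha, mul_assoc]
    rw [h3, LinearMap.trace_mul_comm, mul_assoc, mul_assoc, ← map_mul, inv_mul_cancel, map_one,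
      mul_one]

end Pool.Agent.Lib.H90S
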