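import Pool.Agent.Lib.H90S.S1

/-!
H90S, S3: one jump of the filtration, and absolute irreducibility of the complement.
-/

open scoped Classical BigOperators

noncomputable section

namespace Pool.Agent.Lib.H90S

variable {k V : Type*} [Field k] [AddCommGroup V] [Module k V] [FiniteDimensional k V]

/-- `a = ∑ s < h, (lam ∘ N ^ s).smulRight ((N ^ (h - 1 - s)) w)`. Then `N * a - a * N = 0` by telescoping (`lam ∘ N ^ h = 0`, `N ^ h w = 0`), and on `ker N` only `s = 0` survives. -/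
theorem S3_endo (N : Module.End k V) {h : ℕ} (hh : 1 ≤ h) (lam : V →ₗ[k] k) (hlam : ∀ v, lam ((N ^ h) v) = 0) {w : V} (hw : (N ^ h) w = 0) :
    ∃ a : Module.End k V, a * N = N * a ∧ ∀ v, N v = 0 → a v = lam v • (N ^ (h - 1)) w := by
  obtain ⟨m, rfl⟩ : ∃ m, h = m + 1 := ⟨h - 1, by omega⟩
  have key : ∀ v : V, ∀ s : ℕ, s ≤ m → N ((N ^ (m - s)) w) = (N ^ (m + 1 - s)) w := by
    intro v s hs
    have e : m + 1 - s = (m - s) + 1 := by omega
    rw [e, pow_succ', Module.End.mul_apply]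
  refine ⟨∑ s ∈ Finset.range (m + 1), (lam ∘ₗ (N ^ s)).smulRight ((N ^ (m - s)) w), ?_, ?_⟩
  · refine LinearMap.ext fun v => ?_
    rw [Module.End.mul_apply, Module.End.mul_apply, LinearMap.sum_apply, LinearMap.sum_apply, map_sum]
    obtain ⟨F, hF⟩ : ∃ F : ℕ → V, ∀ t, F t = lam ((N ^ t) v) • (N ^ (m + 1 - t)) w := ⟨_, fun _ => rfl⟩
    have hL : ∑ s ∈ Finset.range (m + 1), ((lam ∘ₗ (N ^ s)).smulRight ((N ^ (m - s)) w)) (N v) =
        ∑ s ∈ Finset.range (m + 1), F (s + 1) := by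
      refine Finset.sum_congr rfl fun s _ => ?_
      rw [LinearMap.smulRight_apply, LinearMap.comp_apply, hF]
      have e1 : (N ^ s) (N v) = (N ^ (s + 1)) v := by
        rw [pow_succ, Module.End.mul_apply]
      have e2 : m + 1 - (s + 1) = m - s := by omega
      rw [e1, e2]
    have hR : ∑ s ∈ Finset.range (m + 1), N (((lam ∘ₗ (N ^ s)).smulRight ((N ^ (m - s)) w)) v) =
        ∑ s ∈ Finset.range (m + 1), F s := by
      refine Finset.sum_congr rfl fun s hs => ?_
      have hsm : s ≤ m := by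
        have := Finset.mem_range.1 hs
        omega
      rw [LinearMap.smulRight_apply, LinearMap.comp_apply, map_smul, key v s hsm, hF]
    rw [hL, hR, Finset.sum_range_succ, Finset.sum_range_succ']
    have z1 : F (m + 1) = 0 := by
      rw [hF, hlam, zero_smul]
    have z2 : F 0 = 0 := by
      rw [hF, Nat.sub_zero, hw, smul_zero]
    rw [z1, z2]
  · intro v hv
    rw [LinearMap.sum_apply, Finset.sum_range_succ', Finset.sum_eq_zero, zero_add]
    · rw [LinearMap.smulRight_apply, LinearMap.comp_apply, pow_zero, Module.End.one_apply, Nat.sub_zero,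
        Nat.add_sub_cancel]
    · intro s _
      rw [LinearMap.smulRight_apply, LinearMap.comp_apply, pow_succ, Module.End.mul_apply, hv, map_zero, map_zero,
        zero_smul]

variable {D : Type*} [Group D] [Fintype D]

/-- One jump. `i` = the largest `j < p`, `j ≥ 1`, such that `ker N ⊓ range (N ^ (j - 1))` is not contained in `range (N ^ (p - 1))` (`j = 1` is such by `hne`); then `ker N ⊓ range (N ^ i) ≤ range (N ^ (p - 1))` (if `i = p - 1` trivially). Put `F = ker N ⊓ range (N ^ (i - 1))`. `S1_maschke`: stable `Y1` with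
`Y1 ⊔ R = F` (`R = range (N ^ (p - 1)) ≤ F`), stable `Y2` with `Y2 ⊔ F = ker N`, both disjoint. `Y1 ≠ ⊥`. If `Y2 ≠ ⊥` take `0 ≠ v ∈ Y2`, `0 ≠ w ∈ Y1`, `w = N ^ (i - 1) w'`, `N ^ i w' = N w = 0`; `v` is not in `range (N ^ i)` (otherwise `v ∈ R ≤ F`), so there is a functional `lam` with
`lam v = 1`, `lam ∘ N ^ i = 0`; `S3_endo` gives `a` with `a v = w`; `hE` gives `b v = ∑ c d • τ d v ∈ Y2` with `w - b v ∈ R`, so `b v ∈ Y2 ⊓ F = 0` and `w ∈ R ⊓ Y1 = 0`, contradiction. So `Y2 = ⊥` and `ker N = F`. -/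
theorem S3_jump (N : Module.End k V) {p : ℕ} (hp : 2 ≤ p) (hN : N ^ p = 0) (τ : D →* Module.End k V) (hD : (Nat.card D : k) ≠ 0) (hτ : ∀ d, τ d * N = N * τ d)
    (hE : ∀ a : Module.End k V, a * N = N * a → ∃ c : D → k, ∀ v, N v = 0 → a v - ∑ d, c d • τ d v ∈ LinearMap.range (N ^ (p - 1)))
    (hne : ¬ LinearMap.ker N ≤ LinearMap.range (N ^ (p - 1))) :
    ∃ i, 1 ≤ i ∧ i < p ∧ LinearMap.ker N ≤ LinearMap.range (N ^ (i - 1)) ∧ LinearMap.ker N ⊓ LinearMap.range (N ^ i) ≤ LinearMap.range (N ^ (p - 1)) := by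
  have hcomm : ∀ d (j : ℕ) (x : V), τ d ((N ^ j) x) = (N ^ j) (τ d x) := by
    intro d j x
    have h1 : Commute (τ d) (N ^ j) := Commute.pow_right (hτ d) j
    have h2 := LinearMap.congr_fun h1.eq x
    simpa [Module.End.mul_apply] using h2
  have hker : ∀ d, ∀ v ∈ LinearMap.ker N, τ d v ∈ LinearMap.ker N := by
    intro d v hv
    rw [LinearMap.mem_ker] at hv ⊢
    have h1 := hcomm d 1 v
    rw [pow_one] at h1
    rw [← h1, hv, map_zero]
  have hran : ∀ (j : ℕ) (d), ∀ v ∈ LinearMap.range (N ^ j), τ d v ∈ LinearMap.range (N ^ j) := by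
    rintro j d v ⟨x, rfl⟩
    exact ⟨τ d x, (hcomm d j x).symm⟩
  have hmono : ∀ {a b : ℕ}, a ≤ b → LinearMap.range (N ^ b) ≤ LinearMap.range (N ^ a) := by
    rintro a b hab v ⟨x, rfl⟩
    refine ⟨(N ^ (b - a)) x, ?_⟩
    rw [← Module.End.mul_apply, ← pow_add]
    have : a + (b - a) = b := by omega
    rw [this]
  have hRker : LinearMap.range (N ^ (p - 1)) ≤ LinearMap.ker N := by
    rintro v ⟨x, rfl⟩
    rw [LinearMap.mem_ker, ← Module.End.mul_apply, ← pow_succ']
    have : p - 1 + 1 = p := by omega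
    rw [this, hN, LinearMap.zero_apply]
  obtain ⟨i, hi1, hip, hPi, hmax⟩ : ∃ i, 1 ≤ i ∧ i < p ∧ ¬ (LinearMap.ker N ⊓ LinearMap.range (N ^ (i - 1)) ≤ LinearMap.range (N ^ (p - 1))) ∧
      LinearMap.ker N ⊓ LinearMap.range (N ^ i) ≤ LinearMap.range (N ^ (p - 1)) := by
    let P : ℕ → Prop := fun j => 1 ≤ j ∧ j < p ∧ ¬ (LinearMap.ker N ⊓ LinearMap.range (N ^ (j - 1)) ≤ LinearMap.range (N ^ (p - 1)))
    have hP1 : P 1 := by
      refine ⟨le_refl 1, by omega, ?_⟩
      intro hle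
      apply hne
      intro v hv
      apply hle
      refine ⟨hv, ⟨v, ?_⟩⟩
      simp
    have hg := Nat.findGreatest_spec (P := P) (show 1 ≤ p - 1 by omega) hP1
    obtain ⟨g1, g2, g3⟩ := hg
    refine ⟨Nat.findGreatest P (p - 1), g1, g2, g3, ?_⟩
    by_cases hlast : Nat.findGreatest P (p - 1) = p - 1
    · rw [hlast]
      exact inf_le_right
    · have hle := Nat.findGreatest_le (P := P) (p - 1)
      have hnot := Nat.findGreatest_is_greatest (P := P) (n := p - 1) (k := Nat.findGreatest P (p - 1) + 1) (by omega) (by omega)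
      by_contra hcon
      apply hnot
      refine ⟨by omega, by omega, ?_⟩
      rw [Nat.add_sub_cancel]
      exact hcon
  refine ⟨i, hi1, hip, ?_, hmax⟩
  have hRF : LinearMap.range (N ^ (p - 1)) ≤ LinearMap.ker N ⊓ LinearMap.range (N ^ (i - 1)) :=
    le_inf hRker (hmono (by omega))
  have hFst : ∀ d, ∀ v ∈ LinearMap.ker N ⊓ LinearMap.range (N ^ (i - 1)), τ d v ∈ LinearMap.ker N ⊓ LinearMap.range (N ^ (i - 1)) := by
    intro d v hv
    exact ⟨hker d v hv.1, hran (i - 1) d v hv.2⟩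
  obtain ⟨Y1, hY1s, hY1d, hY1e⟩ := S1_maschke τ hD hRF (hran (p - 1)) hFst
  obtain ⟨Y2, hY2s, hY2d, hY2e⟩ := S1_maschke τ hD (inf_le_left : LinearMap.ker N ⊓ LinearMap.range (N ^ (i - 1)) ≤ LinearMap.ker N) hFst hker
  have hY1 : Y1 ≠ ⊥ := by
    intro h0
    apply hPi
    rw [← hY1e, h0, bot_sup_eq]
  obtain ⟨w, hwY, hw0⟩ := Submodule.exists_mem_ne_zero_of_ne_bot hY1
  have hwF : w ∈ LinearMap.ker N ⊓ LinearMap.range (N ^ (i - 1)) := by
    rw [← hY1e]
    exact Submodule.mem_sup_left hwY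
  have hY2 : Y2 = ⊥ := by
    by_contra h0
    obtain ⟨v, hvY, hv0⟩ := Submodule.exists_mem_ne_zero_of_ne_bot h0
    have hvker : v ∈ LinearMap.ker N := by
      rw [← hY2e]
      exact Submodule.mem_sup_left hvY
    have hvn : v ∉ LinearMap.range (N ^ i) := by
      intro hv
      apply hv0
      exact Submodule.disjoint_def.mp hY2d v hvY (hRF (hmax ⟨hvker, hv⟩))
    obtain ⟨lam, hlam0, hlamR⟩ := Submodule.exists_le_ker_of_notMem hvn
    obtain ⟨w', hw'⟩ := hwF.2
    have hNw : (N ^ i) w' = 0 := by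
      have h1 : i = (i - 1) + 1 := by omega
      have h2 : N w = 0 := hwF.1
      rw [h1, pow_succ', Module.End.mul_apply, hw', h2]
    obtain ⟨a, ha1, ha2⟩ := S3_endo N hi1 lam (fun x => hlamR ⟨x, rfl⟩) hNw
    obtain ⟨c, hc⟩ := hE a ha1
    have hcv := hc v hvker
    rw [ha2 v hvker, hw'] at hcv
    have hb : (∑ d, c d • τ d v) ∈ Y2 := Submodule.sum_mem _ fun d _ => Y2.smul_mem _ (hY2s d v hvY)
    have hbF : (∑ d, c d • τ d v) ∈ LinearMap.ker N ⊓ LinearMap.range (N ^ (i - 1)) := by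
      have h1 : lam v • w ∈ LinearMap.ker N ⊓ LinearMap.range (N ^ (i - 1)) := Submodule.smul_mem _ _ hwF
      have h2 := Submodule.sub_mem _ h1 (hRF hcv)
      rwa [sub_sub_cancel] at h2
    have hb0 : (∑ d, c d • τ d v) = 0 := Submodule.disjoint_def.mp hY2d _ hb hbF
    rw [hb0, sub_zero] at hcv
    have hz : lam v • w = 0 := Submodule.disjoint_def.mp hY1d _ (Y1.smul_mem _ hwY) hcv
    rcases smul_eq_zero.mp hz with h1 | h1
    · exact hlam0 h1
    · exact hw0 h1
  rw [hY2, bot_sup_eq] at hY2e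
  rw [← hY2e]
  exact inf_le_right

/-- Every endomorphism of a stable subspace `Y ≤ ker N` disjoint from `range (N ^ (p - 1))` is in the span of `D`. Both sides are linear in `a`: it is enough to take `a y = μ y • w` (`a = ∑ j, (b.coord j).smulRight (a (b j))` for a basis `b` of `Y`). `Y ⊓ range (N ^ i) = ⊥`, so there is a functional `lam` on `V` with
`lam = μ` on `Y` and `lam = 0` on `range (N ^ i)`; `w = N ^ (i - 1) w'`, `N ^ i w' = N w = 0`; `S3_endo` gives `a'` commuting with `N`, `a' v = lam v • w` on `ker N`; `hE` gives `c`; for `y ∈ Y`: `a' y - ∑ c d • τ d y ∈ Y ⊓ range (N ^ (p - 1)) = ⊥`. -/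
theorem S3_full (N : Module.End k V) {p i : ℕ} (hi : 1 ≤ i) (τ : D →* Module.End k V)
    (hE : ∀ a : Module.End k V, a * N = N * a → ∃ c : D → k, ∀ v, N v = 0 → a v - ∑ d, c d • τ d v ∈ LinearMap.range (N ^ (p - 1)))
    (h1 : LinearMap.ker N ≤ LinearMap.range (N ^ (i - 1))) (h2 : LinearMap.ker N ⊓ LinearMap.range (N ^ i) ≤ LinearMap.range (N ^ (p - 1)))
    {Y : Submodule k V} (hY : ∀ d, ∀ y ∈ Y, τ d y ∈ Y) (hYN : Y ≤ LinearMap.ker N) (hYR : Disjoint Y (LinearMap.range (N ^ (p - 1)))) (a : Module.End k Y) :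
    ∃ c : D → k, ∀ y : Y, ((a y : Y) : V) = ∑ d, c d • τ d (y : V) := by
  have hYi : ∀ y ∈ Y, y ∈ LinearMap.range (N ^ i) → y = 0 := by
    intro y hy hyr
    have h3 : y ∈ LinearMap.range (N ^ (p - 1)) := h2 ⟨hYN hy, hyr⟩
    exact (Submodule.disjoint_def.1 hYR) y hy h3
  have one : ∀ (μ : Y →ₗ[k] k) (w : Y), ∃ c : D → k, ∀ y : Y, μ y • (w : V) = ∑ d, c d • τ d (y : V) := by
    intro μ w
    have hker : LinearMap.ker ((LinearMap.range (N ^ i)).mkQ ∘ₗ Y.subtype) = ⊥ := by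
      rw [LinearMap.ker_eq_bot']
      intro y hy
      rw [LinearMap.comp_apply, Submodule.mkQ_apply, Submodule.Quotient.mk_eq_zero] at hy
      exact Subtype.ext (hYi _ y.2 hy)
    obtain ⟨g, hg⟩ := LinearMap.exists_leftInverse_of_injective _ hker
    obtain ⟨w', hw'⟩ := h1 (hYN w.2)
    have hgy : ∀ y : Y, (μ ∘ₗ g ∘ₗ (LinearMap.range (N ^ i)).mkQ) (y : V) = μ y := by
      intro y
      have := LinearMap.congr_fun hg y
      change μ (g ((LinearMap.range (N ^ i)).mkQ (y : V))) = μ y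
      exact congrArg μ this
    obtain ⟨a', ha', hv'⟩ := S3_endo N hi (μ ∘ₗ g ∘ₗ (LinearMap.range (N ^ i)).mkQ)
      (fun v => by
        have : (LinearMap.range (N ^ i)).mkQ ((N ^ i) v) = 0 := by
          rw [Submodule.mkQ_apply, Submodule.Quotient.mk_eq_zero]
          exact ⟨v, rfl⟩
        change μ (g ((LinearMap.range (N ^ i)).mkQ ((N ^ i) v))) = 0
        rw [this, map_zero, map_zero]) (w := w')
      (by
        have e : i = (i - 1) + 1 := by omega
        rw [e, pow_succ', Module.End.mul_apply, hw']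
        exact hYN w.2)
    obtain ⟨c, hc⟩ := hE a' ha'
    refine ⟨c, fun y => ?_⟩
    have hy0 : N (y : V) = 0 := hYN y.2
    have h3 := hc (y : V) hy0
    rw [hv' (y : V) hy0, hw', hgy y] at h3
    have h4 : μ y • (w : V) - ∑ d, c d • τ d (y : V) ∈ Y :=
      Y.sub_mem (Y.smul_mem _ w.2) (Y.sum_mem fun d _ => Y.smul_mem _ (hY d _ y.2))
    exact sub_eq_zero.1 ((Submodule.disjoint_def.1 hYR) _ h4 h3)
  let b := Module.finBasis k Y
  choose c hc using fun j => one (b.coord j) (a (b j))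
  refine ⟨fun d => ∑ j, c j d, fun y => ?_⟩
  have h5 : a y = ∑ j, b.coord j y • a (b j) := by
    conv_lhs => rw [← b.sum_repr y]
    rw [map_sum]
    refine Finset.sum_congr rfl fun j _ => ?_
    rw [map_smul]
    rfl
  rw [h5, Submodule.coe_sum]
  have h6 : ∀ j, ((b.coord j y • a (b j) : Y) : V) = ∑ d, c j d • τ d (y : V) := by
    intro j
    rw [Submodule.coe_smul]
    exact hc j y
  rw [Finset.sum_congr rfl fun j _ => h6 j, Finset.sum_comm]
  refine Finset.sum_congr rfl fun d _ => ?_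
  rw [Finset.sum_smul]

end Pool.Agent.Lib.H90S
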