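import Pool.Agent.Lib.H90S.S1

/-!
H90S, S4: traces on invariant subspaces.
-/

open scoped Classical BigOperators

noncomputable section

namespace Pool.Agent.Lib.H90S

variable {k V : Type*} [Field k] [AddCommGroup V] [Module k V] [FiniteDimensional k V]

/-- The trace of `A` on the invariant subspace `U` (zero if `U` is not invariant). -/
def trOn (A : Module.End k V) (U : Submodule k V) : k :=
  if h : ∀ v ∈ U, A v ∈ U then LinearMap.trace k U (A.restrict h) else 0

private theorem S4_trOn_eq (A : Module.End k V) (U : Submodule k V) (h : ∀ v ∈ U, A v ∈ U) :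
    trOn A U = LinearMap.trace k U (A.restrict h) := by
  unfold trOn
  rw [dif_pos h]

/-- `LinearMap.trace_conj'` along the equivalence `⊤ ≃ V`. -/
theorem trOn_top (A : Module.End k V) : trOn A ⊤ = LinearMap.trace k V A := by
  rw [S4_trOn_eq A ⊤ (fun v _ => Submodule.mem_top),
    ← LinearMap.trace_conj' _ (Submodule.topEquiv : (⊤ : Submodule k V) ≃ₗ[k] V)]
  congr 1

theorem trOn_bot (A : Module.End k V) : trOn A ⊥ = 0 := by
  have h : ∀ v ∈ (⊥ : Submodule k V), A v ∈ (⊥ : Submodule k V) := by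
    intro v hv
    rw [Submodule.mem_bot] at hv ⊢
    rw [hv, map_zero]
  rw [S4_trOn_eq A ⊥ h]
  have h0 : A.restrict h = 0 := by
    apply LinearMap.ext
    intro v
    exact Subsingleton.elim _ _
  rw [h0, map_zero]

/-- If `φ : U → U'` is a linear equivalence commuting with `A` then the traces agree (`LinearMap.trace_conj'`). -/
theorem trOn_equiv (A : Module.End k V) {U U' : Submodule k V} (hU : ∀ v ∈ U, A v ∈ U) (hU' : ∀ v ∈ U', A v ∈ U') (φ : U ≃ₗ[k] U')
    (h : ∀ u : U, ((φ ⟨A u, hU u u.2⟩ : U') : V) = A (φ u)) : trOn A U = trOn A U' := by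
  rw [S4_trOn_eq A U hU, S4_trOn_eq A U' hU', ← LinearMap.trace_conj' (A.restrict hU) φ]
  congr 1
  apply LinearMap.ext
  intro w
  apply Subtype.ext
  obtain ⟨u, rfl⟩ := φ.surjective w
  rw [LinearEquiv.conj_apply_apply, LinearEquiv.symm_apply_apply]
  exact h u

/-- Additivity on a direct sum of two invariant subspaces: `U1 × U2 ≃ U1 ⊔ U2` (`Submodule.prodEquivOfIsCompl`-like, or bases; `LinearMap.trace_prodMap`). -/
theorem trOn_sup (A : Module.End k V) {U1 U2 : Submodule k V} (h1 : ∀ v ∈ U1, A v ∈ U1) (h2 : ∀ v ∈ U2, A v ∈ U2) (hd : Disjoint U1 U2) :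
    trOn A (U1 ⊔ U2) = trOn A U1 + trOn A U2 := by
  have h12 : ∀ v ∈ U1 ⊔ U2, A v ∈ U1 ⊔ U2 := by
    intro v hv
    obtain ⟨a, ha, b, hb, rfl⟩ := Submodule.mem_sup.1 hv
    rw [map_add]
    exact Submodule.add_mem_sup (h1 a ha) (h2 b hb)
  let f : (U1 × U2) →ₗ[k] (U1 ⊔ U2 : Submodule k V) :=
    LinearMap.codRestrict (U1 ⊔ U2) (U1.subtype.coprod U2.subtype) (fun x => by
      rw [LinearMap.coprod_apply]
      exact Submodule.add_mem_sup x.1.2 x.2.2)
  have hf : ∀ x : U1 × U2, ((f x : (U1 ⊔ U2 : Submodule k V)) : V) = (x.1 : V) + (x.2 : V) := by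
    intro x
    rfl
  have hfb : Function.Bijective f := by
    constructor
    · intro x y hxy
      have hv : (x.1 : V) + (x.2 : V) = (y.1 : V) + (y.2 : V) := by
        rw [← hf x, ← hf y, hxy]
      have hs : (x.1 : V) - (y.1 : V) = (y.2 : V) - (x.2 : V) := by
        rw [sub_eq_sub_iff_add_eq_add]
        rw [hv, add_comm]
      have m1 : (x.1 : V) - (y.1 : V) ∈ U1 := U1.sub_mem x.1.2 y.1.2
      have m2 : (x.1 : V) - (y.1 : V) ∈ U2 := by
        rw [hs]
        exact U2.sub_mem y.2.2 x.2.2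
      have m0 := (Submodule.disjoint_def.1 hd) _ m1 m2
      have m0' : (y.2 : V) - (x.2 : V) = 0 := by rw [← hs, m0]
      apply Prod.ext
      · apply Subtype.ext
        exact sub_eq_zero.1 m0
      · apply Subtype.ext
        exact (sub_eq_zero.1 m0').symm
    · intro w
      obtain ⟨a, ha, b, hb, hab⟩ := Submodule.mem_sup.1 w.2
      refine ⟨(⟨a, ha⟩, ⟨b, hb⟩), ?_⟩
      apply Subtype.ext
      rw [hf]
      exact hab
  let e : (U1 × U2) ≃ₗ[k] (U1 ⊔ U2 : Submodule k V) := LinearEquiv.ofBijective f hfb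
  rw [S4_trOn_eq A _ h12, S4_trOn_eq A U1 h1, S4_trOn_eq A U2 h2, ← LinearMap.trace_prodMap',
    ← LinearMap.trace_conj' _ e]
  congr 1
  apply LinearMap.ext
  intro w
  obtain ⟨x, rfl⟩ := e.surjective w
  rw [LinearEquiv.conj_apply_apply, LinearEquiv.symm_apply_apply]
  apply Subtype.ext
  show A ((f x : (U1 ⊔ U2 : Submodule k V)) : V) = ((f _ : (U1 ⊔ U2 : Submodule k V)) : V)
  rw [hf, hf, map_add]
  rfl

variable {D : Type*} [Group D] [Fintype D]

/-- For a stable subspace `U`: `S1_maschke` gives a stable complement `U'` of `ker N ⊓ U` in `U`; `trOn_sup`; `N` is an equivariant bijection from `U'` onto `U.map N`, `trOn_equiv`. -/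
theorem S4_map (N : Module.End k V) (τ : D →* Module.End k V) (hD : (Nat.card D : k) ≠ 0) (hτ : ∀ d, τ d * N = N * τ d) {U : Submodule k V}
    (hU : ∀ d, ∀ v ∈ U, τ d v ∈ U) (d : D) : trOn (τ d) U = trOn (τ d) (LinearMap.ker N ⊓ U) + trOn (τ d) (U.map N) := by
  have hc : ∀ d v, τ d (N v) = N (τ d v) := by
    intro d v
    have := congrArg (fun f : Module.End k V => f v) (hτ d)
    simpa [Module.End.mul_apply] using this
  have hK : ∀ d, ∀ v ∈ LinearMap.ker N ⊓ U, τ d v ∈ LinearMap.ker N ⊓ U := by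
    intro d v hv
    refine ⟨?_, hU d v hv.2⟩
    have h0 : N v = 0 := LinearMap.mem_ker.1 hv.1
    show τ d v ∈ LinearMap.ker N
    rw [LinearMap.mem_ker, ← hc, h0, map_zero]
  have hM : ∀ v ∈ U.map N, τ d v ∈ U.map N := by
    intro v hv
    obtain ⟨u, hu, rfl⟩ := hv
    exact ⟨τ d u, hU d u hu, (hc d u).symm⟩
  obtain ⟨Y, hY, hYd, hYs⟩ := S1_maschke τ hD (inf_le_right : LinearMap.ker N ⊓ U ≤ U) hK hU
  have hYU : Y ≤ U := hYs ▸ le_sup_left
  have e1 : trOn (τ d) U = trOn (τ d) Y + trOn (τ d) (LinearMap.ker N ⊓ U) := by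
    conv_lhs => rw [← hYs]
    exact trOn_sup (τ d) (hY d) (hK d) hYd
  let f : Y →ₗ[k] (U.map N : Submodule k V) :=
    LinearMap.codRestrict (U.map N) (N ∘ₗ Y.subtype) (fun y => ⟨y, hYU y.2, rfl⟩)
  have hf : ∀ y : Y, ((f y : (U.map N : Submodule k V)) : V) = N y := fun y => rfl
  have hfb : Function.Bijective f := by
    constructor
    · rw [injective_iff_map_eq_zero]
      intro y hy
      have h0 : N (y : V) = 0 := by
        rw [← hf, hy]
        rfl
      have hm : (y : V) ∈ LinearMap.ker N ⊓ U := ⟨LinearMap.mem_ker.2 h0, hYU y.2⟩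
      have := (Submodule.disjoint_def.1 hYd) _ y.2 hm
      exact Subtype.ext this
    · intro w
      obtain ⟨u, hu, huw⟩ := w.2
      have hu' : u ∈ Y ⊔ (LinearMap.ker N ⊓ U) := by
        rw [hYs]
        exact hu
      obtain ⟨a, ha, b, hb, hab⟩ := Submodule.mem_sup.1 hu'
      refine ⟨⟨a, ha⟩, ?_⟩
      apply Subtype.ext
      rw [hf, ← huw, ← hab, map_add, LinearMap.mem_ker.1 hb.1, add_zero]
  rw [e1, add_comm]
  congr 1
  refine trOn_equiv (τ d) (hY d) hM (LinearEquiv.ofBijective f hfb) ?_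
  intro u
  show N (τ d u) = τ d (N u)
  exact (hc d u).symm

private theorem S4_stab (N : Module.End k V) (τ : D →* Module.End k V)
    (hτ : ∀ d, τ d * N = N * τ d) (n : ℕ) (d : D) :
    ∀ v ∈ LinearMap.range (N ^ n), τ d v ∈ LinearMap.range (N ^ n) := by
  intro v hv
  obtain ⟨u, rfl⟩ := hv
  have hcm : Commute (τ d) (N ^ n) := Commute.pow_right (hτ d) n
  refine ⟨τ d u, ?_⟩
  have := congrArg (fun f : Module.End k V => f u) hcm.eq
  simpa [Module.End.mul_apply] using this.symm

/-- Iterate `S4_map` on `U = range (N ^ j)`, `j < p`: `(range (N ^ j)).map N = range (N ^ (j + 1))`, `range (N ^ 0) = ⊤`, `range (N ^ p) = ⊥`. -/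
theorem S4_sum (N : Module.End k V) {p : ℕ} (hN : N ^ p = 0) (τ : D →* Module.End k V) (hD : (Nat.card D : k) ≠ 0) (hτ : ∀ d, τ d * N = N * τ d) (d : D) :
    LinearMap.trace k V (τ d) = ∑ j ∈ Finset.range p, trOn (τ d) (LinearMap.ker N ⊓ LinearMap.range (N ^ j)) := by
  have key : ∀ n : ℕ, LinearMap.trace k V (τ d) =
      ∑ j ∈ Finset.range n, trOn (τ d) (LinearMap.ker N ⊓ LinearMap.range (N ^ j)) +
        trOn (τ d) (LinearMap.range (N ^ n)) := by
    intro n
    induction n with
    | zero =>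
      have h1 : LinearMap.range (N ^ 0) = (⊤ : Submodule k V) := by
        rw [pow_zero]
        exact LinearMap.range_id
      rw [Finset.sum_range_zero, zero_add, h1, trOn_top]
    | succ n ih =>
      have h2 : (LinearMap.range (N ^ n)).map N = LinearMap.range (N ^ (n + 1)) := by
        rw [pow_succ', Module.End.mul_eq_comp, LinearMap.range_comp]
      rw [ih, Finset.sum_range_succ, add_assoc]
      congr 1
      rw [S4_map N τ hD hτ (S4_stab N τ hτ n) d, h2]
  have h := key p
  have h3 : LinearMap.range (N ^ p) = (⊥ : Submodule k V) := by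
    rw [hN]
    exact LinearMap.range_zero
  rw [h3, trOn_bot, add_zero] at h
  exact h

/-- If the filtration has one jump at `i` and `Y` is a stable complement of `range (N ^ (p - 1))` in `ker N` then the trace is `i` times the trace on `Y`: in `S4_sum` the terms `j < i` are `trOn (ker N) = trOn Y + trOn R`, the terms `i ≤ j < p` are `trOn R`, `R = range (N ^ (p - 1))`, and `p = 0` in `k`. -/
theorem S4_trace (N : Module.End k V) {p i : ℕ} [CharP k p] (hN : N ^ p = 0) (hi : 1 ≤ i) (hip : i < p) (τ : D →* Module.End k V) (hD : (Nat.card D : k) ≠ 0) (hτ : ∀ d, τ d * N = N * τ d)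
    (h1 : LinearMap.ker N ≤ LinearMap.range (N ^ (i - 1))) (h2 : LinearMap.ker N ⊓ LinearMap.range (N ^ i) ≤ LinearMap.range (N ^ (p - 1)))
    {Y : Submodule k V} (hY : ∀ d, ∀ y ∈ Y, τ d y ∈ Y) (hYR : Disjoint Y (LinearMap.range (N ^ (p - 1)))) (hYs : Y ⊔ LinearMap.range (N ^ (p - 1)) = LinearMap.ker N) (d : D) :
    LinearMap.trace k V (τ d) = (i : k) * trOn (τ d) Y := by
  have hmono : ∀ {a b : ℕ}, a ≤ b → LinearMap.range (N ^ b) ≤ LinearMap.range (N ^ a) := by
    intro a b hab
    obtain ⟨c, rfl⟩ := Nat.exists_eq_add_of_le hab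
    rw [pow_add, Module.End.mul_eq_comp]
    exact LinearMap.range_comp_le_range _ _
  have hK : trOn (τ d) (LinearMap.ker N) =
      trOn (τ d) Y + trOn (τ d) (LinearMap.range (N ^ (p - 1))) := by
    conv_lhs => rw [← hYs]
    exact trOn_sup (τ d) (hY d) (S4_stab N τ hτ (p - 1) d) hYR
  have hRK : LinearMap.range (N ^ (p - 1)) ≤ LinearMap.ker N := hYs ▸ le_sup_right
  rw [S4_sum N hN τ hD hτ d]
  have hsplit : ∀ j ∈ Finset.range p,
      trOn (τ d) (LinearMap.ker N ⊓ LinearMap.range (N ^ j)) =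
        trOn (τ d) (LinearMap.range (N ^ (p - 1))) + if j < i then trOn (τ d) Y else 0 := by
    intro j hj
    rw [Finset.mem_range] at hj
    by_cases hji : j < i
    · rw [if_pos hji]
      have e : LinearMap.ker N ⊓ LinearMap.range (N ^ j) = LinearMap.ker N :=
        inf_eq_left.2 (h1.trans (hmono (by omega)))
      rw [e, hK, add_comm]
    · rw [if_neg hji, add_zero]
      have e : LinearMap.ker N ⊓ LinearMap.range (N ^ j) = LinearMap.range (N ^ (p - 1)) := by
        apply le_antisymm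
        · exact (inf_le_inf_left _ (hmono (by omega))).trans h2
        · exact le_inf hRK (hmono (by omega))
      rw [e]
  rw [Finset.sum_congr rfl hsplit, Finset.sum_add_distrib, Finset.sum_const, Finset.card_range,
    ← Finset.sum_filter]
  have hf : (Finset.range p).filter (fun j => j < i) = Finset.range i := by
    ext j
    simp only [Finset.mem_filter, Finset.mem_range]
    omega
  rw [hf, Finset.sum_const, Finset.card_range, nsmul_eq_mul, nsmul_eq_mul, CharP.cast_eq_zero,
    zero_mul, zero_add]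

end Pool.Agent.Lib.H90S
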