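import Pool.Agent.Lib.H90S.S2
import Pool.Agent.Lib.H90S.S3
import Pool.Agent.Lib.H90S.S4

/-!
H90S, S5: the main theorem for one element `z`.
-/

open scoped Classical BigOperators

noncomputable section

namespace Pool.Agent.Lib.H90S

open Pool.Agent.Lib.H90Q

variable {k V : Type*} [Field k] [AddCommGroup V] [Module k V] [FiniteDimensional k V]

private theorem S5_npow {p : ℕ} [Fact p.Prime] [CharP k p] (A : Module.End k V) (hA : A ^ p = 1) :
    (A - 1) ^ p = 0 := by
  rcases subsingleton_or_nontrivial V with hV | hV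
  · exact Subsingleton.elim _ _
  · haveI : Nontrivial (Module.End k V) := inferInstance
    haveI : CharP (Module.End k V) p :=
      charP_of_injective_algebraMap (algebraMap k (Module.End k V)).injective p
    rw [sub_pow_char_of_commute p (Commute.one_right A), hA, one_pow, sub_self]

private theorem S5_sum {B : Type*} [Group B] [Fintype B] (L : Subgroup B) (z : B)
    [Fintype (L ⊓ Subgroup.centralizer {z} : Subgroup B)] (f : B → V) :
    (∑ l : B, if l ∈ L ∧ l * z = z * l then f l else 0) =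
      ∑ d : (L ⊓ Subgroup.centralizer {z} : Subgroup B), f (d : B) := by
  rw [← Finset.sum_filter]
  refine (Finset.sum_subtype _ (fun x => ?_) f)
  rw [Finset.mem_filter, Subgroup.mem_inf, Subgroup.mem_centralizer_iff]
  constructor
  · rintro ⟨-, h1, h2⟩
    exact ⟨h1, fun y hy => by rw [Set.mem_singleton_iff.1 hy]; exact h2.symm⟩
  · rintro ⟨h1, h2⟩
    exact ⟨Finset.mem_univ _, h1, (h2 z (Set.mem_singleton z)).symm⟩

/-- `N = ρ z - 1`, `N ^ p = 0` (`sub_pow_char_of_commute`). Let `D` be the group of the elements of `Δ` that lie in `L`, i.e. `L ⊓ Subgroup.centralizer {z}`, a subgroup of `Δ`, its order divides that of `Δ`. `S2_action` gives hypothesis `hE` of `S3_jump` for `D`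
(a sum over `l : B` with `l ∈ L ∧ l * z = z * l` is a sum over `D`). `ker N ≤ range (N ^ (p - 1))` is impossible: then all `ker N ⊓ range (N ^ j)`, `j < p`, are equal to `range (N ^ (p - 1))` and `S4_sum` with `d = 1` gives `dim V = p * ... = 0` in `k`. So `S3_jump` gives `i`; `S1_maschke` for `Δ` gives a `Δ`-stable `Y` with
`Y ⊔ range (N ^ (p - 1)) = ker N`, disjoint; `τ d = (ρ d).restrict`; `S3_full` for `D` gives `Full`; `S4_trace` for `Δ` gives the trace (`trOn (ρ d) Y = trace (τ d)` by definition). `(i : k) ≠ 0` as `0 < i < p`. -/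
theorem S_main {p : ℕ} [Fact p.Prime] [CharP k p] {B : Type*} [Group B] [Finite B] (ρ : B →* Module.End k V) {L Δ : Subgroup B} {z : B} (hzL : Nz z L)
    (hz : ρ z ^ p = 1) (hzp : ∀ l ∈ L, z ^ p * l = l * z ^ p) (hLp : (Nat.card L : k) ≠ 0) (hfull : Full ρ (L : Set B)) (hd : (Module.finrank k V : k) ≠ 0)
    (hΔ : ∀ d ∈ Δ, d * z = z * d) (hΔp : (Nat.card Δ : k) ≠ 0) (hD : ∀ l ∈ L, l * z = z * l → l ∈ Δ) :
    ∃ (i : ℕ) (Y : Submodule k V) (τ : Δ →* Module.End k Y), (i : k) ≠ 0 ∧ (∀ (d : Δ) (y : Y), ((τ d y : Y) : V) = ρ (d : B) (y : V)) ∧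
      Disjoint Y (LinearMap.range ((ρ z - 1) ^ (p - 1))) ∧ Y ⊔ LinearMap.range ((ρ z - 1) ^ (p - 1)) = LinearMap.ker (ρ z - 1) ∧
      Full τ {d : Δ | (d : B) ∈ L} ∧ ∀ d : Δ, LinearMap.trace k V (ρ (d : B)) = (i : k) * LinearMap.trace k Y (τ d) := by
  haveI := Fintype.ofFinite B
  have hp : p.Prime := Fact.out
  have hp2 : 2 ≤ p := hp.two_le
  set N : Module.End k V := ρ z - 1 with hN
  have hNp : N ^ p = 0 := S5_npow _ hz
  have hkerN : ∀ v, N v = 0 ↔ ρ z v = v := by
    intro v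
    rw [hN, LinearMap.sub_apply, Module.End.one_apply, sub_eq_zero]
  -- commutation of `Δ` with `N`
  have hΔN : ∀ d : Δ, (ρ (d : B)) * N = N * ρ (d : B) := by
    intro d
    rw [hN, mul_sub, sub_mul, mul_one, one_mul, ← map_mul, ← map_mul, hΔ d d.2]
  set D : Subgroup B := L ⊓ Subgroup.centralizer {z} with hDdef
  have hDz : ∀ d ∈ D, d * z = z * d := by
    intro d hd'
    exact ((Subgroup.mem_centralizer_iff.1 (Subgroup.mem_inf.1 hd').2) z
      (Set.mem_singleton z)).symm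
  have hDΔ : D ≤ Δ := fun d hd' => hD d (Subgroup.mem_inf.1 hd').1 (hDz d hd')
  have hDp : (Nat.card D : k) ≠ 0 := by
    intro h0
    obtain ⟨c, hc⟩ := Subgroup.card_dvd_of_le hDΔ
    apply hΔp
    rw [hc, Nat.cast_mul, h0, zero_mul]
  let τD : D →* Module.End k V := ρ.comp D.subtype
  have hτD : ∀ d, τD d * N = N * τD d := fun d => hΔN ⟨d, hDΔ d.2⟩
  let τΔ : Δ →* Module.End k V := ρ.comp Δ.subtype
  have hτΔ : ∀ d, τΔ d * N = N * τΔ d := hΔN
  have hE : ∀ a : Module.End k V, a * N = N * a → ∃ c : D → k, ∀ v, N v = 0 →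
      a v - ∑ d, c d • τD d v ∈ LinearMap.range (N ^ (p - 1)) := by
    intro a ha
    have ha' : a * ρ z = ρ z * a := by
      rw [hN, mul_sub, sub_mul, mul_one, one_mul] at ha
      exact sub_left_injective ha
    obtain ⟨c, hc⟩ := S2_action ρ hzL hzp hLp hfull hd ha'
    refine ⟨fun d => c d, fun v hv => ?_⟩
    have h1 := hc v ((hkerN v).1 hv)
    rw [S5_sum L z (fun l => c l • ρ l v)] at h1
    exact h1
  have hrange_le : ∀ j, j < p → LinearMap.range (N ^ (p - 1)) ≤ LinearMap.range (N ^ j) := by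
    intro j hj x hx
    obtain ⟨y, rfl⟩ := hx
    refine ⟨(N ^ (p - 1 - j)) y, ?_⟩
    rw [← Module.End.mul_apply, ← pow_add]
    congr 2
    omega
  have hRker : LinearMap.range (N ^ (p - 1)) ≤ LinearMap.ker N := by
    rintro x ⟨y, rfl⟩
    rw [LinearMap.mem_ker, ← Module.End.mul_apply, ← pow_succ', Nat.sub_add_cancel hp.one_le,
      hNp, LinearMap.zero_apply]
  have hne : ¬ LinearMap.ker N ≤ LinearMap.range (N ^ (p - 1)) := by
    intro hle
    have h1 := S4_sum N hNp τΔ hΔp hτΔ 1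
    have h2 : ∀ j ∈ Finset.range p, trOn (τΔ 1) (LinearMap.ker N ⊓ LinearMap.range (N ^ j)) =
        trOn (τΔ 1) (LinearMap.ker N) := by
      intro j hj
      rw [inf_eq_left.2 (hle.trans (hrange_le j (Finset.mem_range.1 hj)))]
    rw [Finset.sum_congr rfl h2, Finset.sum_const, Finset.card_range, nsmul_eq_mul,
      CharP.cast_eq_zero, zero_mul, map_one, LinearMap.trace_one] at h1
    exact hd h1
  obtain ⟨i, hi1, hip, hj1, hj2⟩ := S3_jump N hp2 hNp τD hDp hτD hE hne
  have hΔker : ∀ (d : Δ), ∀ v ∈ LinearMap.ker N, τΔ d v ∈ LinearMap.ker N := by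
    intro d v hv
    rw [LinearMap.mem_ker] at hv ⊢
    rw [← Module.End.mul_apply, ← hτΔ d, Module.End.mul_apply, hv, map_zero]
  have hΔran : ∀ (d : Δ), ∀ v ∈ LinearMap.range (N ^ (p - 1)),
      τΔ d v ∈ LinearMap.range (N ^ (p - 1)) := by
    rintro d v ⟨y, rfl⟩
    have hc : Commute (τΔ d) (N ^ (p - 1)) := Commute.pow_right (hτΔ d) _
    refine ⟨τΔ d y, ?_⟩
    rw [← Module.End.mul_apply, ← Module.End.mul_apply, hc.eq]
  obtain ⟨Y, hYs, hYd, hYsup⟩ := S1_maschke τΔ hΔp hRker hΔran hΔker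
  let τ : Δ →* Module.End k Y :=
    { toFun := fun d => (τΔ d).restrict (hYs d)
      map_one' := by
        ext y
        simp [LinearMap.restrict_apply]
      map_mul' := fun d e => by
        ext y
        simp [LinearMap.restrict_apply] }
  have hτ : ∀ (d : Δ) (y : Y), ((τ d y : Y) : V) = ρ (d : B) (y : V) := fun d y => rfl
  refine ⟨i, Y, τ, ?_, hτ, hYd, hYsup, ?_, ?_⟩
  · intro h0
    have := (CharP.cast_eq_zero_iff k p i).1 h0
    exact absurd (Nat.le_of_dvd (by omega) this) (by omega)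
  · rw [Full, eq_top_iff]
    rintro a -
    obtain ⟨c, hc⟩ := S3_full N hi1 τD hE hj1 hj2 (Y := Y)
      (fun d y hy => hYs ⟨d, hDΔ d.2⟩ y hy) (hYsup ▸ le_sup_left) hYd a
    have h1 : a = ∑ d : D, c d • τ ⟨d, hDΔ d.2⟩ := by
      ext y
      rw [hc y, LinearMap.sum_apply, AddSubmonoidClass.coe_finsetSum]
      rfl
    rw [h1]
    refine Submodule.sum_mem _ fun d _ => Submodule.smul_mem _ _ (Submodule.subset_span ?_)
    exact ⟨⟨d, hDΔ d.2⟩, (Subgroup.mem_inf.1 d.2).1, rfl⟩
  · intro d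
    have h1 := S4_trace N hNp hi1 hip τΔ hΔp hτΔ hj1 hj2 hYs hYd hYsup d
    have h2 : trOn (τΔ d) Y = LinearMap.trace k Y (τ d) := by
      rw [trOn, dif_pos (hYs d)]
      rfl
    rw [h2] at h1
    exact h1

/-- The trace of `ρ (z * g)` is that of `ρ g` if `g` commutes with `z` and `ρ z ^ p = 1`: `(ρ z - 1) * ρ g` is nilpotent (`(ρ z - 1) ^ p = 0`, commuting), and the trace of a nilpotent endomorphism is nilpotent, so `0` (`LinearMap.isNilpotent_trace_of_isNilpotent`). -/
theorem S5_trace {p : ℕ} [Fact p.Prime] [CharP k p] {B : Type*} [Group B] (ρ : B →* Module.End k V) {z g : B} (hz : ρ z ^ p = 1) (hg : g * z = z * g) :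
    LinearMap.trace k V (ρ (z * g)) = LinearMap.trace k V (ρ g) := by
  have hNp := S5_npow _ hz
  have hc : Commute (ρ z - 1) (ρ g) := by
    show (ρ z - 1) * ρ g = ρ g * (ρ z - 1)
    rw [sub_mul, mul_sub, one_mul, mul_one, ← map_mul, ← map_mul, hg]
  have hnil : IsNilpotent ((ρ z - 1) * ρ g) := ⟨p, by rw [hc.mul_pow, hNp, zero_mul]⟩
  have h1 := (LinearMap.isNilpotent_trace_of_isNilpotent hnil).eq_zero
  have h2 : ρ (z * g) = (ρ z - 1) * ρ g + ρ g := by
    rw [sub_mul, one_mul, map_mul, sub_add_cancel]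
  rw [h2, map_add, h1, zero_add]

/-- If `z` has `p`-power order and `z ^ p` commutes with `L`, and `Full ρ L`, then `ρ z ^ p = 1`: `ρ (z ^ p)` is a scalar `c` (`S1_scalar`), `c ^ (p ^ a) = 1` for some `a`, so `(c - 1) ^ (p ^ a) = 0` and `c = 1` (if `V = 0` everything is equal). -/
theorem S5_pow {p : ℕ} [Fact p.Prime] [CharP k p] {B : Type*} [Group B] (ρ : B →* Module.End k V) {L : Subgroup B} (hfull : Full ρ (L : Set B)) {z : B} {a : ℕ}
    (hza : z ^ (p ^ a) = 1) (hzp : ∀ l ∈ L, z ^ p * l = l * z ^ p) : ρ z ^ p = 1 := by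
  rcases subsingleton_or_nontrivial V with hV | hV
  · exact Subsingleton.elim _ _
  · obtain ⟨c, hc⟩ := S1_scalar ρ hfull (y := ρ z ^ p) (fun l hl => by
      rw [← map_pow, ← map_mul, ← map_mul, hzp l hl])
    have h1 : (ρ z ^ p) ^ (p ^ a) = 1 := by
      rw [← pow_mul, mul_comm, pow_mul, ← map_pow, hza, map_one, one_pow]
    rw [hc, smul_pow, one_pow] at h1
    have h2 : c ^ (p ^ a) = 1 := by
      obtain ⟨v, hv⟩ := exists_ne (0 : V)
      have h3 := LinearMap.congr_fun h1 v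
      rw [LinearMap.smul_apply, Module.End.one_apply] at h3
      have h4 : (c ^ (p ^ a) - 1) • v = 0 := by rw [sub_smul, one_smul, h3, sub_self]
      rcases smul_eq_zero.1 h4 with h5 | h5
      · exact sub_eq_zero.1 h5
      · exact absurd h5 hv
    have h3 : (c - 1) ^ (p ^ a) = 0 := by
      rw [sub_pow_char_pow, h2, one_pow, sub_self]
    have h4 : c = 1 := sub_eq_zero.1 (eq_zero_of_pow_eq_zero h3)
    rw [hc, h4, one_smul]

end Pool.Agent.Lib.H90S
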