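import Pool.Agent.Lib.H90S.S1

/-!
H90S, S6: the space `Hom_C(W, V)` and the dimension condition of Lemma X.
-/

open scoped Classical BigOperators

noncomputable section

namespace Pool.Agent.Lib.H90S

variable {k V W C : Type*} [Field k] [AddCommGroup V] [Module k V] [FiniteDimensional k V] [AddCommGroup W] [Module k W] [FiniteDimensional k W] [Group C]

/-- The `C`-maps from `W` to `V`. -/
def homC (τ : C →* Module.End k V) (σ : C →* Module.End k W) : Submodule k (W →ₗ[k] V) where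
  carrier := {m | ∀ c w, m (σ c w) = τ c (m w)}
  add_mem' := by
    intro a b ha hb c w
    simp only [LinearMap.add_apply, ha c w, hb c w, map_add]
  zero_mem' := by
    intro c w
    simp
  smul_mem' := by
    intro r a ha c w
    simp only [LinearMap.smul_apply, ha c w, map_smul]

theorem mem_homC {τ : C →* Module.End k V} {σ : C →* Module.End k W} {m : W →ₗ[k] V} : m ∈ homC τ σ ↔ ∀ c w, m (σ c w) = τ c (m w) :=
  Iff.rfl

variable [Fintype C]

/-- A `C`-map with values in the range of `A` (`A` commuting with `C`) is `A` composed with a `C`-map: choose a linear `m'` with `A ∘ m' = m` (a section of `A` over its range), average `m'' = (card C)⁻¹ • ∑ c, τ c ∘ m' ∘ σ c⁻¹`. -/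
theorem S6_lift (τ : C →* Module.End k V) (σ : C →* Module.End k W) (hC : (Nat.card C : k) ≠ 0) (A : Module.End k V) (hA : ∀ c, A * τ c = τ c * A)
    {m : W →ₗ[k] V} (hm : m ∈ homC τ σ) (hr : ∀ w, m w ∈ LinearMap.range A) : ∃ m' ∈ homC τ σ, ∀ w, A (m' w) = m w := by
  classical
  obtain ⟨s, hs⟩ := A.rangeRestrict.exists_rightInverse_of_surjective A.range_rangeRestrict
  set m0 : W →ₗ[k] V := s ∘ₗ (m.codRestrict (LinearMap.range A) hr) with hm0
  have hAm0 : ∀ w, A (m0 w) = m w := by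
    intro w
    have h1 := LinearMap.congr_fun hs (⟨m w, hr w⟩ : LinearMap.range A)
    have h2 := congrArg Subtype.val h1
    exact h2
  refine ⟨((Nat.card C : k)⁻¹) • ∑ c : C, (τ c) ∘ₗ m0 ∘ₗ (σ c⁻¹), ?_, ?_⟩
  · intro d w
    simp only [LinearMap.smul_apply, LinearMap.sum_apply, LinearMap.comp_apply, map_smul, map_sum]
    congr 1
    refine (Fintype.sum_equiv (Equiv.mulLeft d) _ _ ?_).symm
    intro c
    simp only [Equiv.coe_mulLeft]
    rw [map_mul, Module.End.mul_apply, mul_inv_rev, map_mul, Module.End.mul_apply, ← Module.End.mul_apply (σ d⁻¹), ← map_mul, inv_mul_cancel, map_one, Module.End.one_apply]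
  · intro w
    simp only [LinearMap.smul_apply, LinearMap.sum_apply, LinearMap.comp_apply, map_smul, map_sum]
    have h1 : ∀ c : C, A (τ c (m0 (σ c⁻¹ w))) = m w := by
      intro c
      have h2 : A (τ c (m0 (σ c⁻¹ w))) = τ c (A (m0 (σ c⁻¹ w))) := LinearMap.congr_fun (hA c) _
      rw [h2, hAm0, ← hm, ← Module.End.mul_apply (σ c), ← map_mul, mul_inv_cancel, map_one, Module.End.one_apply]
    rw [Finset.sum_congr rfl (fun c _ => h1 c), Finset.sum_const, Finset.card_univ, ← Nat.card_eq_fintype_card, ← Nat.cast_smul_eq_nsmul k, smul_smul, inv_mul_cancel₀ hC, one_smul]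

omit [FiniteDimensional k V] [FiniteDimensional k W] [Fintype C] in
private theorem S6_pow (τ : C →* Module.End k V) (σ : C →* Module.End k W) (N : Module.End k V) (NM : Module.End k (homC τ σ))
    (hNM : ∀ (m : homC τ σ) (w : W), (NM m : W →ₗ[k] V) w = N ((m : W →ₗ[k] V) w)) (q : ℕ) (m : homC τ σ) (w : W) :
    ((NM ^ q) m : W →ₗ[k] V) w = (N ^ q) ((m : W →ₗ[k] V) w) := by
  induction q with
  | zero => rfl
  | succ q ih =>
    rw [pow_succ', pow_succ', Module.End.mul_apply, Module.End.mul_apply, hNM, ih]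

private theorem S6_proj (Y R : Submodule k V) (h : Disjoint Y R) :
    ∃ q : V →ₗ[k] Y, (∀ y : Y, q (y : V) = y) ∧ ∀ r ∈ R, q r = 0 := by
  obtain ⟨Z, hZ⟩ := Submodule.exists_isCompl (Y ⊔ R)
  have h1 : IsCompl Y (R ⊔ Z) := by
    constructor
    · exact Disjoint.disjoint_sup_right_of_disjoint_sup_left h hZ.disjoint
    · rw [codisjoint_iff, ← sup_assoc]
      exact hZ.sup_eq_top
  refine ⟨Submodule.projectionOnto Y (R ⊔ Z) h1, fun y => ?_, fun r hr => ?_⟩
  · exact Submodule.projectionOnto_apply_left h1 y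
  · exact (Submodule.projectionOnto_apply_eq_zero_iff h1).2 (Submodule.mem_sup_left hr)

/-- The dimension condition. `NM` is the endomorphism `m ↦ N ∘ m` of `homC τ σ`. `ker NM` = the maps with values in `ker N = Y ⊔ R`, `R = range (N ^ (p - 1))`; `range (NM ^ (p - 1))` = the maps with values in `R` (`S6_lift` with `A = N ^ (p - 1)`). For `m ∈ ker NM` compose with the projection `q : ker N → Y` along `R`
(a `C`-map since `Y`, `R` are stable): `φ⁻¹ ∘ q ∘ m` commutes with `σ`, so it is a scalar (`S1_scalar`, `Full σ univ`). So `ker NM = k φ ⊕ range (NM ^ (p - 1))`; `φ` is not in the range as `W` is not zero (`hW`). -/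
theorem S6_dim {p : ℕ} (hp : 1 ≤ p) (τ : C →* Module.End k V) (σ : C →* Module.End k W) (hC : (Nat.card C : k) ≠ 0) (hσ : Full σ Set.univ) (hW : Nontrivial W)
    (N : Module.End k V) (hN : N ^ p = 0) (hNτ : ∀ c, N * τ c = τ c * N) {Y : Submodule k V} (hY : ∀ c, ∀ y ∈ Y, τ c y ∈ Y)
    (hYR : Disjoint Y (LinearMap.range (N ^ (p - 1)))) (hYs : Y ⊔ LinearMap.range (N ^ (p - 1)) = LinearMap.ker N)
    (φ : W ≃ₗ[k] Y) (hφ : ∀ c w, ((φ (σ c w) : Y) : V) = τ c (φ w : V))
    (NM : Module.End k (homC τ σ)) (hNM : ∀ (m : homC τ σ) (w : W), (NM m : W →ₗ[k] V) w = N ((m : W →ₗ[k] V) w)) :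
    Module.finrank k (LinearMap.ker NM) = Module.finrank k (LinearMap.range (NM ^ (p - 1))) + 1 := by
  classical
  set R : Submodule k V := LinearMap.range (N ^ (p - 1)) with hR
  have hNpτ : ∀ (q : ℕ) (c : C), N ^ q * τ c = τ c * N ^ q := fun q c => ((show Commute N (τ c) from hNτ c).pow_left q).eq
  have hRτ : ∀ c, ∀ r ∈ R, τ c r ∈ R := by
    rintro c _ ⟨u, rfl⟩
    exact ⟨τ c u, LinearMap.congr_fun (hNpτ (p - 1) c) u⟩
  set φ' : homC τ σ := ⟨Y.subtype ∘ₗ (φ : W →ₗ[k] Y), fun c w => hφ c w⟩ with hφ'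
  have hφ'v : ∀ w, (φ' : W →ₗ[k] V) w = (φ w : V) := fun w => rfl
  obtain ⟨w0, hw0⟩ := exists_ne (0 : W)
  have hφne : (φ w0 : V) ≠ 0 := by
    intro h
    have h1 : φ w0 = 0 := Subtype.ext h
    exact hw0 ((LinearEquiv.map_eq_zero_iff φ).1 h1)
  have hφ0 : φ' ≠ 0 := by
    intro h
    apply hφne
    rw [← hφ'v, h]
    rfl
  have hpN : ∀ v, N ((N ^ (p - 1)) v) = 0 := by
    intro v
    rw [← Module.End.mul_apply, ← pow_succ', Nat.sub_add_cancel hp, hN]
    rfl
  obtain ⟨q, hqY, hqR⟩ := S6_proj Y R hYR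
  -- the kernel
  have hker : LinearMap.ker NM = Submodule.span k {φ'} ⊔ LinearMap.range (NM ^ (p - 1)) := by
    apply le_antisymm
    · intro m hm
      have hmN : ∀ w, N ((m : W →ₗ[k] V) w) = 0 := by
        intro w
        rw [← hNM, LinearMap.mem_ker.1 hm]
        rfl
      have hdec : ∀ w, ∃ y : Y, ∃ r ∈ R, (y : V) + r = (m : W →ₗ[k] V) w := by
        intro w
        have h1 : (m : W →ₗ[k] V) w ∈ Y ⊔ R := by
          rw [hYs]
          exact LinearMap.mem_ker.2 (hmN w)
        obtain ⟨y, hy, r, hr, h2⟩ := Submodule.mem_sup.1 h1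
        exact ⟨⟨y, hy⟩, r, hr, h2⟩
      have hqm : ∀ w, ((m : W →ₗ[k] V) w) - (q ((m : W →ₗ[k] V) w) : V) ∈ R := by
        intro w
        obtain ⟨y, r, hr, h2⟩ := hdec w
        rw [← h2, map_add, hqY, hqR r hr, add_zero, add_sub_cancel_left]
        exact hr
      have hqτ : ∀ c w, (q (τ c ((m : W →ₗ[k] V) w)) : V) = τ c (q ((m : W →ₗ[k] V) w) : V) := by
        intro c w
        obtain ⟨y, r, hr, h2⟩ := hdec w
        rw [← h2, map_add, map_add, map_add, hqY, hqR r hr, hqR _ (hRτ c r hr), add_zero, add_zero]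
        exact congrArg Subtype.val (hqY ⟨τ c y, hY c y y.2⟩)
      set ψ : Module.End k W := (φ.symm : Y →ₗ[k] W) ∘ₗ q ∘ₗ (m : W →ₗ[k] V) with hψ
      have hψv : ∀ w, φ (ψ w) = q ((m : W →ₗ[k] V) w) := fun w => φ.apply_symm_apply _
      obtain ⟨c0, hc0⟩ := S1_scalar σ hσ (y := ψ) (by
        intro c _
        apply LinearMap.ext
        intro w
        apply φ.injective
        apply Subtype.ext
        show (φ (ψ (σ c w)) : V) = (φ (σ c (ψ w)) : V)
        rw [hφ, hψv, hψv, m.2 c w, hqτ])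
      have hqφ : ∀ w, (q ((m : W →ₗ[k] V) w) : V) = c0 • (φ w : V) := by
        intro w
        rw [← hψv, hc0, LinearMap.smul_apply, Module.End.one_apply, map_smul]
        rfl
      obtain ⟨m', hm', hm'v⟩ := S6_lift τ σ hC (N ^ (p - 1)) (hNpτ (p - 1)) (m := ((m - c0 • φ' : homC τ σ) : W →ₗ[k] V)) (m - c0 • φ').2 (by
        intro w
        have h1 := hqm w
        rw [hqφ w] at h1
        exact h1)
      have h3 : m = c0 • φ' + (NM ^ (p - 1)) ⟨m', hm'⟩ := by
        have h4 : (NM ^ (p - 1)) ⟨m', hm'⟩ = m - c0 • φ' := by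
          apply Subtype.ext
          apply LinearMap.ext
          intro w
          rw [S6_pow τ σ N NM hNM (p - 1) ⟨m', hm'⟩ w]
          exact hm'v w
        rw [h4]
        abel
      rw [h3]
      exact Submodule.add_mem_sup (Submodule.smul_mem _ _ (Submodule.mem_span_singleton_self φ')) ⟨_, rfl⟩
    · apply sup_le
      · rw [Submodule.span_singleton_le_iff_mem, LinearMap.mem_ker]
        apply Subtype.ext
        apply LinearMap.ext
        intro w
        rw [hNM, hφ'v]
        have h1 : (φ w : V) ∈ LinearMap.ker N := by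
          rw [← hYs]
          exact Submodule.mem_sup_left (φ w).2
        rw [LinearMap.mem_ker.1 h1]
        rfl
      · rintro _ ⟨m, rfl⟩
        rw [LinearMap.mem_ker]
        apply Subtype.ext
        apply LinearMap.ext
        intro w
        rw [hNM, S6_pow τ σ N NM hNM (p - 1) m w, hpN]
        rfl
  have hdisj : Submodule.span k {φ'} ⊓ LinearMap.range (NM ^ (p - 1)) = ⊥ := by
    rw [eq_bot_iff]
    rintro x ⟨hx1, hx2⟩
    obtain ⟨a, rfl⟩ := Submodule.mem_span_singleton.1 hx1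
    obtain ⟨m, hm⟩ := hx2
    have h1 : a • (φ w0 : V) ∈ R := by
      refine ⟨(m : W →ₗ[k] V) w0, ?_⟩
      rw [← S6_pow τ σ N NM hNM (p - 1) m w0, hm]
      rfl
    have h2 : a • (φ w0 : V) ∈ Y := Y.smul_mem a (φ w0).2
    have h3 : a • (φ w0 : V) = 0 := (Submodule.disjoint_def.1 hYR) _ h2 h1
    rcases smul_eq_zero.1 h3 with h4 | h4
    · rw [h4, zero_smul]
      exact Submodule.zero_mem _
    · exact absurd h4 hφne
  have h5 := Submodule.finrank_sup_add_finrank_inf_eq (Submodule.span k {φ'}) (LinearMap.range (NM ^ (p - 1)))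
  rw [hdisj, finrank_bot, add_zero, finrank_span_singleton hφ0] at h5
  rw [hker, h5, add_comm]

/-- Elements of the range of `NM ^ q` have values in the range of `N ^ q`. -/
theorem S6_range (τ : C →* Module.End k V) (σ : C →* Module.End k W) (N : Module.End k V) (NM : Module.End k (homC τ σ))
    (hNM : ∀ (m : homC τ σ) (w : W), (NM m : W →ₗ[k] V) w = N ((m : W →ₗ[k] V) w)) (q : ℕ) {m : homC τ σ} (hm : m ∈ LinearMap.range (NM ^ q)) (w : W) :
    (m : W →ₗ[k] V) w ∈ LinearMap.range (N ^ q) := by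
  obtain ⟨m', rfl⟩ := hm
  exact ⟨(m' : W →ₗ[k] V) w, (S6_pow τ σ N NM hNM q m' w).symm⟩

end Pool.Agent.Lib.H90S
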