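import Pool.Agent.Lib.H90S.S5
import Pool.Agent.Lib.H90S.S6

/-!
H90S, S7: the local data at one `z` and the actions on `Hom_C(W, V)`.
-/

open scoped Classical BigOperators

noncomputable section

namespace Pool.Agent.Lib.H90S

open Pool.Agent.Lib.H90Q

variable {k V W : Type*} [Field k] [AddCommGroup V] [Module k V] [FiniteDimensional k V] [AddCommGroup W] [Module k W] [FiniteDimensional k W]

/-- The local data. `Δ = S ⊓ Subgroup.centralizer {z}` (its order divides that of `S`). `S_main` (with `B = G`) gives `i`, `Y`, `τ`. Let `C = L ⊓ S` as a group; it is contained in `Δ` (`hCz`), `(card C : k) ≠ 0`. `S1_iso` for `C`: representations `τ` restricted to `C` (`Full` since `{d : Δ | (d : G) ∈ L}` is the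
image of `C`) and `σ` restricted to `C`, with `i * trace (τ c) = trace (ρ c) = e * trace (σ c)`; `(finrank Y : k) ≠ 0` because `i * finrank Y = finrank V` in `k` (`d = 1`). It gives `φ`. For `c = 1`: `i * finrank Y = e * finrank W` and `finrank Y = finrank W`, so `(i : k) = e`. -/
theorem S7_local {p : ℕ} [Fact p.Prime] [CharP k p] {G : Type*} [Group G] [Finite G] {L S : Subgroup G} {z : G} (hzL : Nz z L)
    (hLp : ¬ p ∣ Nat.card L) (hSp : ¬ p ∣ Nat.card S) (ρ : G →* Module.End k V) (σ : S →* Module.End k W) (hρ : Full ρ (L : Set G)) (hσ : Full σ {s : S | (s : G) ∈ L})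
    (hdV : (Module.finrank k V : k) ≠ 0) (hdW : (Module.finrank k W : k) ≠ 0) (hz : ρ z ^ p = 1) (hzp : ∀ l ∈ L, z ^ p * l = l * z ^ p)
    (hCz : ∀ c ∈ L ⊓ S, c * z = z * c) (hD : ∀ l ∈ L, l * z = z * l → l ∈ S) {e : k} (he : e ≠ 0)
    (htr : ∀ s : S, (s : G) ∈ L → LinearMap.trace k V (ρ s) = e * LinearMap.trace k W (σ s)) :
    ∃ (Y : Submodule k V) (φ : W ≃ₗ[k] Y), Disjoint Y (LinearMap.range ((ρ z - 1) ^ (p - 1))) ∧
      Y ⊔ LinearMap.range ((ρ z - 1) ^ (p - 1)) = LinearMap.ker (ρ z - 1) ∧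
      (∀ s : S, (s : G) ∈ L → ∀ w, ((φ (σ s w) : Y) : V) = ρ s (φ w : V)) ∧
      (∀ s : S, (s : G) * z = z * s → ∀ y ∈ Y, ρ s y ∈ Y) ∧
      ∀ s : S, (s : G) * z = z * s → ∀ T : Module.End k Y, (∀ y : Y, ((T y : Y) : V) = ρ s (y : V)) → LinearMap.trace k V (ρ s) = e * LinearMap.trace k Y T := by
  have hp : p.Prime := Fact.out
  have cast_ne : ∀ n : ℕ, ¬ p ∣ n → (n : k) ≠ 0 := fun n hn h0 => hn ((CharP.cast_eq_zero_iff k p n).1 h0)
  obtain ⟨Δ, hΔ⟩ : ∃ Δ : Subgroup G, Δ = S ⊓ Subgroup.centralizer {z} := ⟨_, rfl⟩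
  have memΔ : ∀ g : G, g ∈ Δ ↔ g ∈ S ∧ g * z = z * g := by
    intro g
    rw [hΔ, Subgroup.mem_inf, Subgroup.mem_centralizer_singleton_iff]
  have hCΔ : L ⊓ S ≤ Δ := fun c hc => (memΔ c).2 ⟨hc.2, hCz c hc⟩
  have hΔS : Δ ≤ S := fun d hd => ((memΔ d).1 hd).1
  have hΔp : (Nat.card Δ : k) ≠ 0 := cast_ne _ fun h => hSp (h.trans (Subgroup.card_dvd_of_le hΔS))
  have hCp : (Nat.card (L ⊓ S : Subgroup G) : k) ≠ 0 :=
    cast_ne _ fun h => hSp (h.trans (Subgroup.card_dvd_of_le inf_le_right))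
  obtain ⟨i, Y, τ, hi, hτ, hdisj, hsup, hfull, htrτ⟩ := S_main ρ hzL hz hzp (cast_ne _ hLp) hρ hdV
    (fun d hd => ((memΔ d).1 hd).2) hΔp (fun l hl hlz => (memΔ l).2 ⟨hD l hl hlz, hlz⟩)
  have hdY : (i : k) * (Module.finrank k Y : k) = (Module.finrank k V : k) := by
    have h1 := htrτ 1
    have e1 : ρ ((1 : Δ) : G) = 1 := by
      rw [Subgroup.coe_one]
      exact MonoidHom.map_one _
    have e2 : τ 1 = 1 := MonoidHom.map_one _
    rw [e1, e2, LinearMap.trace_one, LinearMap.trace_one] at h1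
    exact h1.symm
  have hdY0 : (Module.finrank k Y : k) ≠ 0 := by
    intro h0
    rw [h0, mul_zero] at hdY
    exact hdV hdY.symm
  have : Fintype (L ⊓ S : Subgroup G) := Fintype.ofFinite _
  have hf1 : Full (τ.comp (Subgroup.inclusion hCΔ)) Set.univ := by
    unfold Full at hfull ⊢
    rw [← hfull]
    congr 1
    ext T
    constructor
    · rintro ⟨c, -, rfl⟩
      exact ⟨Subgroup.inclusion hCΔ c, c.2.1, rfl⟩
    · rintro ⟨d, hd, rfl⟩
      exact ⟨⟨(d : G), hd, hΔS d.2⟩, Set.mem_univ _, rfl⟩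
  have hf2 : Full (σ.comp (Subgroup.inclusion (inf_le_right : L ⊓ S ≤ S))) Set.univ := by
    unfold Full at hσ ⊢
    rw [← hσ]
    congr 1
    ext T
    constructor
    · rintro ⟨c, -, rfl⟩
      exact ⟨Subgroup.inclusion inf_le_right c, c.2.1, rfl⟩
    · rintro ⟨s, hs, rfl⟩
      exact ⟨⟨(s : G), hs, s.2⟩, Set.mem_univ _, rfl⟩
  have htrC : ∀ c : (L ⊓ S : Subgroup G), (i : k) * LinearMap.trace k Y ((τ.comp (Subgroup.inclusion hCΔ)) c) =
      e * LinearMap.trace k W ((σ.comp (Subgroup.inclusion (inf_le_right : L ⊓ S ≤ S))) c) := by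
    intro c
    have h1 := htrτ (Subgroup.inclusion hCΔ c)
    have h2 := htr (Subgroup.inclusion (inf_le_right : L ⊓ S ≤ S) c) c.2.1
    exact h1.symm.trans h2
  obtain ⟨φ, hφ⟩ := S1_iso (τ.comp (Subgroup.inclusion hCΔ))
    (σ.comp (Subgroup.inclusion (inf_le_right : L ⊓ S ≤ S))) hCp hf1 hf2 hdY0 hi htrC
  have hie : (i : k) = e := by
    have h1 := htrC 1
    have e1 : (τ.comp (Subgroup.inclusion hCΔ)) 1 = 1 := MonoidHom.map_one _
    have e2 : (σ.comp (Subgroup.inclusion (inf_le_right : L ⊓ S ≤ S))) 1 = 1 := MonoidHom.map_one _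
    rw [e1, e2, LinearMap.trace_one, LinearMap.trace_one, ← φ.finrank_eq] at h1
    exact mul_right_cancel₀ hdW h1
  refine ⟨Y, φ, hdisj, hsup, ?_, ?_, ?_⟩
  · intro s hs w
    have h1 := hφ ⟨(s : G), hs, s.2⟩ w
    have h2 := hτ (Subgroup.inclusion hCΔ ⟨(s : G), hs, s.2⟩) (φ w)
    have h3 : (φ (σ s w) : Y) = τ (Subgroup.inclusion hCΔ ⟨(s : G), hs, s.2⟩) (φ w) := h1
    rw [h3]
    exact h2
  · intro s hsz y hy
    have h2 := hτ ⟨(s : G), (memΔ _).2 ⟨s.2, hsz⟩⟩ ⟨y, hy⟩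
    have h3 : ρ (s : G) y = ((τ ⟨(s : G), (memΔ _).2 ⟨s.2, hsz⟩⟩ ⟨y, hy⟩ : Y) : V) := h2.symm
    rw [h3]
    exact Submodule.coe_mem _
  · intro s hsz T hT
    have h1 := htrτ ⟨(s : G), (memΔ _).2 ⟨s.2, hsz⟩⟩
    have h2 : T = τ ⟨(s : G), (memΔ _).2 ⟨s.2, hsz⟩⟩ := by
      refine LinearMap.ext fun y => Subtype.ext ?_
      rw [hT y]
      exact (hτ ⟨(s : G), (memΔ _).2 ⟨s.2, hsz⟩⟩ y).symm
    rw [h2, ← hie]
    exact h1

/-- The actions of `P1` and `S` on `Hom_C(W, V)`, `C = L ⊓ S`. `u` acts by `m ↦ ρ u ∘ m` (a `C`-map since `u` commutes with `C`), `s` by `m ↦ ρ s ∘ m ∘ σ s⁻¹` (a `C`-map since `s` normalises `C`: `s⁻¹ c s ∈ L ⊓ S`). Multiplicativity is immediate. -/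
theorem S7_acts {G : Type*} [Group G] {L P1 S : Subgroup G} (hLS : ∀ s ∈ S, Nz s L) (hCP : ∀ c ∈ L ⊓ S, ∀ u ∈ P1, c * u = u * c)
    (ρ : G →* Module.End k V) (σ : S →* Module.End k W) :
    ∃ (ρM : P1 →* Module.End k (homC (ρ.comp (L ⊓ S).subtype) (σ.comp (Subgroup.inclusion (inf_le_right : L ⊓ S ≤ S)))))
      (σM : S →* Module.End k (homC (ρ.comp (L ⊓ S).subtype) (σ.comp (Subgroup.inclusion (inf_le_right : L ⊓ S ≤ S))))),
      (∀ u m w, ((ρM u m : _) : W →ₗ[k] V) w = ρ u ((m : W →ₗ[k] V) w)) ∧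
        ∀ s m w, ((σM s m : _) : W →ₗ[k] V) w = ρ s ((m : W →ₗ[k] V) (σ s⁻¹ w)) := by
  have hmP : ∀ (u : P1) (m : homC (ρ.comp (L ⊓ S).subtype) (σ.comp (Subgroup.inclusion (inf_le_right : L ⊓ S ≤ S)))),
      (ρ u : Module.End k V) ∘ₗ (m : W →ₗ[k] V) ∈ homC (ρ.comp (L ⊓ S).subtype) (σ.comp (Subgroup.inclusion (inf_le_right : L ⊓ S ≤ S))) := by
    intro u m c w
    have h1 := mem_homC.1 m.2 c w
    show ρ u ((m : W →ₗ[k] V) _) = ρ (c : G) (ρ u ((m : W →ₗ[k] V) w))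
    rw [h1]
    show ρ u (ρ (c : G) _) = _
    rw [← Module.End.mul_apply, ← map_mul, ← hCP c c.2 u u.2, map_mul, Module.End.mul_apply]
  have hmS : ∀ (s : S) (m : homC (ρ.comp (L ⊓ S).subtype) (σ.comp (Subgroup.inclusion (inf_le_right : L ⊓ S ≤ S)))),
      (ρ s : Module.End k V) ∘ₗ (m : W →ₗ[k] V) ∘ₗ (σ s⁻¹ : Module.End k W) ∈ homC (ρ.comp (L ⊓ S).subtype) (σ.comp (Subgroup.inclusion (inf_le_right : L ⊓ S ≤ S))) := by
    intro s m c w
    have hg : (s : G)⁻¹ * c * s ∈ L ⊓ S := by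
      refine Subgroup.mem_inf.2 ⟨?_, ?_⟩
      · refine (hLS s s.2 _).2 ?_
        have e : (s : G) * ((s : G)⁻¹ * c * s) * (s : G)⁻¹ = c := by group
        rw [e]
        exact (Subgroup.mem_inf.1 c.2).1
      · exact S.mul_mem (S.mul_mem (S.inv_mem s.2) (Subgroup.mem_inf.1 c.2).2) s.2
    have h1 := mem_homC.1 m.2 ⟨_, hg⟩ (σ s⁻¹ w)
    show ρ s ((m : W →ₗ[k] V) (σ s⁻¹ (σ (Subgroup.inclusion (inf_le_right : L ⊓ S ≤ S) c) w))) =
      ρ (c : G) (ρ s ((m : W →ₗ[k] V) (σ s⁻¹ w)))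
    have e2 : σ s⁻¹ (σ (Subgroup.inclusion (inf_le_right : L ⊓ S ≤ S) c) w) =
        σ (Subgroup.inclusion (inf_le_right : L ⊓ S ≤ S) ⟨_, hg⟩) (σ s⁻¹ w) := by
      rw [← Module.End.mul_apply, ← map_mul, ← Module.End.mul_apply, ← map_mul]
      congr 2
      apply Subtype.ext
      show (s : G)⁻¹ * c = (s : G)⁻¹ * c * s * (s : G)⁻¹
      group
    rw [e2]
    have h2 : (m : W →ₗ[k] V) (σ (Subgroup.inclusion (inf_le_right : L ⊓ S ≤ S) ⟨_, hg⟩) (σ s⁻¹ w)) =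
        ρ ((s : G)⁻¹ * c * s) ((m : W →ₗ[k] V) (σ s⁻¹ w)) := h1
    rw [h2, ← Module.End.mul_apply, ← map_mul, ← Module.End.mul_apply, ← map_mul]
    congr 2
    group
  refine ⟨{ toFun := fun u => { toFun := fun m => ⟨_, hmP u m⟩, map_add' := ?_, map_smul' := ?_ }, map_one' := ?_, map_mul' := ?_ },
    { toFun := fun s => { toFun := fun m => ⟨_, hmS s m⟩, map_add' := ?_, map_smul' := ?_ }, map_one' := ?_, map_mul' := ?_ },
    fun u m w => rfl, fun s m w => rfl⟩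
  · intro a b
    apply Subtype.ext
    apply LinearMap.ext
    intro w
    simp
  · intro r a
    apply Subtype.ext
    apply LinearMap.ext
    intro w
    simp
  · apply LinearMap.ext
    intro m
    apply Subtype.ext
    apply LinearMap.ext
    intro w
    simp
  · intro u v
    apply LinearMap.ext
    intro m
    apply Subtype.ext
    apply LinearMap.ext
    intro w
    simp
  · intro a b
    apply Subtype.ext
    apply LinearMap.ext
    intro w
    simp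
  · intro r a
    apply Subtype.ext
    apply LinearMap.ext
    intro w
    simp
  · apply LinearMap.ext
    intro m
    apply Subtype.ext
    apply LinearMap.ext
    intro w
    simp
  · intro u v
    apply LinearMap.ext
    intro m
    apply Subtype.ext
    apply LinearMap.ext
    intro w
    simp

end Pool.Agent.Lib.H90S
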