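import Pool.Agent.Lib.H90S.S7
import Pool.Agent.Lib.H90S.X9

/-!
H90S, S8: the key theorem over the residue field.
-/

open scoped Classical BigOperators

noncomputable section

namespace Pool.Agent.Lib.H90S

open Pool.Agent.Lib.H90Q

variable {k V W : Type*} [Field k] [AddCommGroup V] [Module k V] [FiniteDimensional k V] [AddCommGroup W] [Module k W] [FiniteDimensional k W]

/-- `lemmaX` for a group whose elements commute. -/
private theorem S8_lemmaX {p : ℕ} [Fact p.Prime] {k : Type*} [Field k] [CharP k p] {P Γ : Type*} [hG : Group P] (hc : ∀ a b : P, a * b = b * a) [Finite P] [Group Γ] [Finite Γ]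
    (π : Γ →* MulAut P) {V : Type*} [AddCommGroup V] [Module k V] [FiniteDimensional k V]
    (ρ : P →* Module.End k V) (hP : ∀ u : P, ρ u ^ p = 1) (σ : Γ →* Module.End k V) (hσ : ∀ g u, σ g * ρ u = ρ (π g u) * σ g) (Z : Set P) (hZ : ∀ z ∈ Z, ∀ g, π g z ∈ Z)
    (h1 : ∀ z ∈ Z, Module.finrank k (LinearMap.ker (ρ z - 1)) = Module.finrank k (LinearMap.range ((ρ z - 1) ^ (p - 1))) + 1) :
    ∃ f : Γ →* kˣ, ∀ z ∈ Z, ∀ g : Γ, π g z = z → ∀ v : V, ρ z v = v → σ g v - (f g : k) • v ∈ LinearMap.range ((ρ z - 1) ^ (p - 1)) := by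
  letI : CommGroup P := { hG with mul_comm := hc }
  exact lemmaX π ρ hP σ hσ Z hZ h1

/-- Conjugation. -/
private theorem S8_conj {G : Type*} [Group G] {P1 S : Subgroup G} (hPS : ∀ s ∈ S, Nz s P1) :
    ∃ π : S →* MulAut P1, ∀ (s : S) (u : P1), ((π s u : P1) : G) = s * u * (s : G)⁻¹ := by
  have hm : ∀ (s : S) (u : P1), (s : G) * u * (s : G)⁻¹ ∈ P1 := fun s u => (hPS s s.2 u).1 u.2
  have hm' : ∀ (s : S) (u : P1), (s : G)⁻¹ * u * (s : G) ∈ P1 := by
    intro s u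
    refine (hPS s s.2 _).2 ?_
    have e : (s : G) * ((s : G)⁻¹ * u * (s : G)) * (s : G)⁻¹ = u := by group
    rw [e]
    exact u.2
  refine ⟨{ toFun := fun s =>
              { toFun := fun u => ⟨_, hm s u⟩
                invFun := fun u => ⟨_, hm' s u⟩
                left_inv := ?_
                right_inv := ?_
                map_mul' := ?_ }
            map_one' := ?_
            map_mul' := ?_ }, fun s u => rfl⟩
  · intro u
    apply Subtype.ext
    show (s : G)⁻¹ * ((s : G) * u * (s : G)⁻¹) * (s : G) = u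
    group
  · intro u
    apply Subtype.ext
    show (s : G) * ((s : G)⁻¹ * u * (s : G)) * (s : G)⁻¹ = u
    group
  · intro u v
    apply Subtype.ext
    show (s : G) * (u * v) * (s : G)⁻¹ = ((s : G) * u * (s : G)⁻¹) * ((s : G) * v * (s : G)⁻¹)
    group
  · apply MulEquiv.ext
    intro u
    apply Subtype.ext
    show (1 : G) * u * (1 : G)⁻¹ = u
    group
  · intro s t
    apply MulEquiv.ext
    intro u
    apply Subtype.ext
    show ((s : G) * t) * u * ((s : G) * t)⁻¹ = (s : G) * ((t : G) * u * (t : G)⁻¹) * (s : G)⁻¹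
    group

private theorem S8_npow {p : ℕ} [Fact p.Prime] [CharP k p] (A : Module.End k V) (hA : A ^ p = 1) :
    (A - 1) ^ p = 0 := by
  rcases subsingleton_or_nontrivial V with hV | hV
  · exact Subsingleton.elim _ _
  · haveI : Nontrivial (Module.End k V) := inferInstance
    haveI : CharP (Module.End k V) p :=
      charP_of_injective_algebraMap (algebraMap k (Module.End k V)).injective p
    rw [sub_pow_char_of_commute p (Commute.one_right A), hA, one_pow, sub_self]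

/-- If `Z` is empty take `fb = 1`. `ρ u ^ p = 1` for `u ∈ P1` (`S5_pow`). `S7_acts` gives `ρM`, `σM` on `M = homC ..`; `ρM u ^ p = 1`; `σM s * ρM u = ρM (s u s⁻¹) * σM s`. Make `P1` a `CommGroup` (`hab`), `π : S →* MulAut P1` = conjugation. For `z ∈ Z`: `S7_local` gives `Y`, `φ`; `S6_dim` for `C = L ⊓ S`,
`N = ρ z - 1`, `NM = ρM z - 1` gives the dimension hypothesis of `lemmaX` (`W` is nontrivial by `hdW`). `lemmaX` gives `fb`. For `z ∈ Z` and `s` commuting with `z` apply it to `v = φ` (as an element of `M` fixed by `ρM z`): `σM s φ - fb s • φ` has values in `range ((ρ z - 1) ^ (p - 1))` (`S6_range`) and in `Y`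
(`ρ s` preserves `Y`), so it is `0`: `ρ s (φ (σ s⁻¹ w)) = fb s • φ w`, i.e. `T ∘ φ = fb s • φ ∘ σ s` for `T` = the restriction of `ρ s` to `Y`; so `trace T = fb s * trace (σ s)` (`LinearMap.trace_conj'`). For `(s : G) ∈ L`, `s` commutes with `z` and `σM s φ = φ` (`φ` is a `C`-map), so `fb s = 1`. -/
theorem key_k {p : ℕ} [Fact p.Prime] [CharP k p] {G : Type*} [Group G] [Finite G] {L P1 S : Subgroup G} (hLn : ∀ g, Nz g L) (hPS : ∀ s ∈ S, Nz s P1)
    (hab : ∀ b ∈ P1, ∀ c ∈ P1, b * c = c * b) (hpp : ∀ u ∈ P1, ∃ a : ℕ, u ^ (p ^ a) = 1) (hpz : ∀ u ∈ P1, ∀ l ∈ L, u ^ p * l = l * u ^ p)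
    (hCP : ∀ c ∈ L ⊓ S, ∀ u ∈ P1, c * u = u * c) (hLp : ¬ p ∣ Nat.card L) (hSp : ¬ p ∣ Nat.card S)
    (ρ : G →* Module.End k V) (σ : S →* Module.End k W) (hρ : Full ρ (L : Set G)) (hσ : Full σ {s : S | (s : G) ∈ L})
    (hdV : (Module.finrank k V : k) ≠ 0) (hdW : (Module.finrank k W : k) ≠ 0) {e : k} (he : e ≠ 0)
    (htr : ∀ s : S, (s : G) ∈ L → LinearMap.trace k V (ρ s) = e * LinearMap.trace k W (σ s))
    (Z : Set G) (hZP : ∀ z ∈ Z, z ∈ P1) (hZS : ∀ s ∈ S, ∀ z ∈ Z, s * z * s⁻¹ ∈ Z) (hZC : ∀ z ∈ Z, ∀ l ∈ L, l * z = z * l → l ∈ S) :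
    ∃ fb : S →* kˣ, (∀ s : S, (s : G) ∈ L → fb s = 1) ∧
      ∀ z ∈ Z, ∀ s : S, (s : G) * z = z * s → LinearMap.trace k V (ρ s) = e * (fb s : k) * LinearMap.trace k W (σ s) := by
  have hp : p.Prime := Fact.out
  have cast_ne : ∀ n : ℕ, ¬ p ∣ n → (n : k) ≠ 0 := fun n hn h0 => hn ((CharP.cast_eq_zero_iff k p n).1 h0)
  have hρp : ∀ u ∈ P1, ρ u ^ p = 1 := by
    intro u hu
    obtain ⟨a, ha⟩ := hpp u hu
    exact S5_pow ρ hρ ha (hpz u hu)
  have hCp : (Nat.card (L ⊓ S : Subgroup G) : k) ≠ 0 :=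
    cast_ne _ fun h => hSp (h.trans (Subgroup.card_dvd_of_le inf_le_right))
  haveI : Fintype (L ⊓ S : Subgroup G) := Fintype.ofFinite _
  have hfσ : Full (σ.comp (Subgroup.inclusion (inf_le_right : L ⊓ S ≤ S))) Set.univ := by
    unfold Full at hσ ⊢
    rw [← hσ]
    congr 1
    ext T
    constructor
    · rintro ⟨c, -, rfl⟩
      exact ⟨Subgroup.inclusion inf_le_right c, c.2.1, rfl⟩
    · rintro ⟨s, hs, rfl⟩
      exact ⟨⟨(s : G), hs, s.2⟩, Set.mem_univ _, rfl⟩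
  have hW : Nontrivial W := by
    by_contra h
    rw [not_nontrivial_iff_subsingleton] at h
    exact hdW (by rw [Module.finrank_zero_of_subsingleton, Nat.cast_zero])
  obtain ⟨ρM, σM, hρM, hσM⟩ := S7_acts (fun s _ => hLn s) hCP ρ σ
  obtain ⟨π, hπ⟩ := S8_conj hPS
  -- the powers
  have hρMq : ∀ (u : P1) (q : ℕ) (m : homC (ρ.comp (L ⊓ S).subtype) (σ.comp (Subgroup.inclusion (inf_le_right : L ⊓ S ≤ S)))) (w : W),
      (((ρM u) ^ q) m : W →ₗ[k] V) w = ((ρ u) ^ q) ((m : W →ₗ[k] V) w) := by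
    intro u q m w
    induction q with
    | zero => rfl
    | succ q ih => rw [pow_succ', pow_succ', Module.End.mul_apply, Module.End.mul_apply, hρM, ih]
  have hρMp : ∀ u : P1, ρM u ^ p = 1 := by
    intro u
    apply LinearMap.ext
    intro m
    apply Subtype.ext
    apply LinearMap.ext
    intro w
    rw [hρMq, hρp u u.2]
    rfl
  have hcomm : ∀ (s : S) (u : P1), σM s * ρM u = ρM (π s u) * σM s := by
    intro s u
    apply LinearMap.ext
    intro m
    apply Subtype.ext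
    apply LinearMap.ext
    intro w
    rw [Module.End.mul_apply, Module.End.mul_apply, hσM, hρM, hρM, hσM, hπ]
    rw [← Module.End.mul_apply, ← Module.End.mul_apply, ← map_mul, ← map_mul, inv_mul_cancel_right]
  -- the local data
  have hloc : ∀ z ∈ Z, _ := fun z hz => S7_local (hLn z) hLp hSp ρ σ hρ hσ hdV hdW (hρp z (hZP z hz)) (hpz z (hZP z hz))
    (fun c hc => hCP c hc z (hZP z hz)) (hZC z hz) he htr
  have hNM : ∀ (z : P1) (m : homC (ρ.comp (L ⊓ S).subtype) (σ.comp (Subgroup.inclusion (inf_le_right : L ⊓ S ≤ S)))) (w : W),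
      ((ρM z - 1) m : W →ₗ[k] V) w = (ρ z - 1) ((m : W →ₗ[k] V) w) := by
    intro z m w
    rw [LinearMap.sub_apply, LinearMap.sub_apply, ← hρM]
    rfl
  have hdim : ∀ z ∈ {z : P1 | (z : G) ∈ Z}, Module.finrank k (LinearMap.ker (ρM z - 1)) = Module.finrank k (LinearMap.range ((ρM z - 1) ^ (p - 1))) + 1 := by
    intro z hz
    obtain ⟨Y, φ, hYR, hYs, hφ, hYst, -⟩ := hloc z hz
    refine S6_dim hp.one_le (ρ.comp (L ⊓ S).subtype) (σ.comp (Subgroup.inclusion (inf_le_right : L ⊓ S ≤ S))) hCp hfσ hW (ρ z - 1) (S8_npow _ (hρp z z.2))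
      ?_ (Y := Y) ?_ hYR hYs φ ?_ (ρM z - 1) (hNM z)
    · intro c
      have h1 : (ρ (z : G)) * ρ (c : G) = ρ (c : G) * ρ (z : G) := by
        rw [← map_mul, ← map_mul, hCP c c.2 z z.2]
      show (ρ (z : G) - 1) * ρ (c : G) = ρ (c : G) * (ρ (z : G) - 1)
      rw [sub_mul, mul_sub, h1, one_mul, mul_one]
    · intro c y hy
      exact hYst ⟨(c : G), c.2.2⟩ (hCP c c.2 z z.2) y hy
    · intro c w
      exact hφ ⟨(c : G), c.2.2⟩ c.2.1 w
  obtain ⟨f, hf⟩ := S8_lemmaX (p := p) (fun a b => Subtype.ext (hab a a.2 b b.2)) π ρM hρMp σM hcomm {z : P1 | (z : G) ∈ Z}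
    (fun z hz s => by
      show ((π s z : P1) : G) ∈ Z
      rw [hπ]
      exact hZS s s.2 z hz) hdim
  -- the scalar at `z`
  have hscal : ∀ z ∈ Z, ∀ (s : S), (s : G) * z = z * s → ∀ (Y : Submodule k V) (φ : W ≃ₗ[k] Y), Disjoint Y (LinearMap.range ((ρ z - 1) ^ (p - 1))) →
      Y ⊔ LinearMap.range ((ρ z - 1) ^ (p - 1)) = LinearMap.ker (ρ z - 1) → (∀ s : S, (s : G) ∈ L → ∀ w, ((φ (σ s w) : Y) : V) = ρ s (φ w : V)) →
      (∀ s : S, (s : G) * z = z * s → ∀ y ∈ Y, ρ s y ∈ Y) → ∀ w, ρ s (φ w : V) = (f s : k) • ((φ (σ s w) : Y) : V) := by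
    intro z hz s hsz Y φ hYR hYs hφ hYst w
    set φ' : homC (ρ.comp (L ⊓ S).subtype) (σ.comp (Subgroup.inclusion (inf_le_right : L ⊓ S ≤ S))) :=
      ⟨Y.subtype ∘ₗ (φ : W →ₗ[k] Y), fun c w => hφ ⟨(c : G), c.2.2⟩ c.2.1 w⟩ with hφ'
    have hφ'v : ∀ w, (φ' : W →ₗ[k] V) w = (φ w : V) := fun w => rfl
    have hfix : ρM ⟨z, hZP z hz⟩ φ' = φ' := by
      apply Subtype.ext
      apply LinearMap.ext
      intro w
      rw [hρM, hφ'v]
      have h1 : (φ w : V) ∈ LinearMap.ker (ρ z - 1) := by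
        rw [← hYs]
        exact Submodule.mem_sup_left (φ w).2
      rw [LinearMap.mem_ker, LinearMap.sub_apply, Module.End.one_apply, sub_eq_zero] at h1
      exact h1
    have h1 := hf ⟨z, hZP z hz⟩ hz s (by
      apply Subtype.ext
      rw [hπ]
      show (s : G) * z * (s : G)⁻¹ = z
      rw [hsz, mul_inv_cancel_right]) φ' hfix
    have h2 := S6_range (ρ.comp (L ⊓ S).subtype) (σ.comp (Subgroup.inclusion (inf_le_right : L ⊓ S ≤ S))) (ρ z - 1) (ρM ⟨z, hZP z hz⟩ - 1)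
      (hNM ⟨z, hZP z hz⟩) (p - 1) h1 (σ s w)
    have h3 : ((σM s φ' - (f s : k) • φ' : homC (ρ.comp (L ⊓ S).subtype) (σ.comp (Subgroup.inclusion (inf_le_right : L ⊓ S ≤ S)))) : W →ₗ[k] V) (σ s w) =
        ρ s (φ w : V) - (f s : k) • ((φ (σ s w) : Y) : V) := by
      have h4 : ((σM s φ' : homC (ρ.comp (L ⊓ S).subtype) (σ.comp (Subgroup.inclusion (inf_le_right : L ⊓ S ≤ S)))) : W →ₗ[k] V) (σ s w) = ρ s (φ w : V) := by
        rw [hσM, hφ'v, ← Module.End.mul_apply, ← map_mul, inv_mul_cancel, map_one, Module.End.one_apply]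
      rw [← h4]
      rfl
    rw [h3] at h2
    have h5 : ρ s (φ w : V) - (f s : k) • ((φ (σ s w) : Y) : V) ∈ Y :=
      Y.sub_mem (hYst s hsz _ (φ w).2) (Y.smul_mem _ (φ (σ s w)).2)
    exact sub_eq_zero.1 ((Submodule.disjoint_def.1 hYR) _ h5 h2)
  by_cases hZe : ∃ z, z ∈ Z
  · obtain ⟨z0, hz0⟩ := hZe
    refine ⟨f, ?_, ?_⟩
    · intro s hs
      obtain ⟨Y, φ, hYR, hYs, hφ, hYst, -⟩ := hloc z0 hz0
      have hsz : (s : G) * z0 = z0 * s := hCP s ⟨hs, s.2⟩ z0 (hZP z0 hz0)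
      obtain ⟨w0, hw0⟩ := exists_ne (0 : W)
      have h1 := hscal z0 hz0 s hsz Y φ hYR hYs hφ hYst (σ s⁻¹ w0)
      have h2 := hφ s hs (σ s⁻¹ w0)
      have h3 : σ s (σ s⁻¹ w0) = w0 := by
        rw [← Module.End.mul_apply, ← map_mul, mul_inv_cancel, map_one, Module.End.one_apply]
      rw [← h2, h3] at h1
      have h4 : ((f s : k) - 1) • ((φ w0 : Y) : V) = 0 := by rw [sub_smul, one_smul, ← h1, sub_self]
      rcases smul_eq_zero.1 h4 with h5 | h5
      · exact Units.ext (sub_eq_zero.1 h5)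
      · exfalso
        have h6 : φ w0 = 0 := Subtype.ext h5
        exact hw0 ((LinearEquiv.map_eq_zero_iff φ).1 h6)
    · intro z hz s hsz
      obtain ⟨Y, φ, hYR, hYs, hφ, hYst, htrT⟩ := hloc z hz
      have h1 := htrT s hsz ((ρ s).restrict (hYst s hsz)) (fun y => rfl)
      have h2 : (ρ s).restrict (hYst s hsz) = φ.conj ((f s : k) • σ s) := by
        apply LinearMap.ext
        intro y
        obtain ⟨w, rfl⟩ := φ.surjective y
        rw [LinearEquiv.conj_apply_apply, LinearEquiv.symm_apply_apply]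
        apply Subtype.ext
        have h3 := hscal z hz s hsz Y φ hYR hYs hφ hYst w
        rw [LinearMap.smul_apply, map_smul]
        exact h3
      rw [h1, h2, LinearMap.trace_conj', map_smul, smul_eq_mul, mul_assoc]
  · refine ⟨1, fun s _ => rfl, fun z hz => absurd ⟨z, hz⟩ hZe⟩

end Pool.Agent.Lib.H90S
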