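import Pool.Agent.Lib.H90S.S8

/-!
H90S, S9: the key theorem over the residue field, for a subgroup `T` of `G`.
-/

open scoped Classical BigOperators

noncomputable section

namespace Pool.Agent.Lib.H90S

open Pool.Agent.Lib.H90Q

variable {k V W : Type*} [Field k] [AddCommGroup V] [Module k V] [FiniteDimensional k V] [AddCommGroup W] [Module k W] [FiniteDimensional k W]

/-- `key_k` for the group `T` with `L.subgroupOf T`, `P1.subgroupOf T`, `S.subgroupOf T`, the set `{t : T | (t : G) ∈ Z}` and `σ` composed with the isomorphism of `S.subgroupOf T` with `S` (`Subgroup.subgroupOfEquivOfLe`); `Nat.card` of `L.subgroupOf T` is that of `L`. Every hypothesis is the old one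
read on elements of `T`. -/
theorem key_kT {p : ℕ} [Fact p.Prime] [CharP k p] {G : Type*} [Group G] [Finite G] {T L P1 S : Subgroup G} (hLT : L ≤ T) (hPT : P1 ≤ T) (hST : S ≤ T)
    (hLn : ∀ g ∈ T, Nz g L) (hPS : ∀ s ∈ S, Nz s P1)
    (hab : ∀ b ∈ P1, ∀ c ∈ P1, b * c = c * b) (hpp : ∀ u ∈ P1, ∃ a : ℕ, u ^ (p ^ a) = 1) (hpz : ∀ u ∈ P1, ∀ l ∈ L, u ^ p * l = l * u ^ p)
    (hCP : ∀ c ∈ L ⊓ S, ∀ u ∈ P1, c * u = u * c) (hLp : ¬ p ∣ Nat.card L) (hSp : ¬ p ∣ Nat.card S)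
    (ρ : T →* Module.End k V) (σ : S →* Module.End k W) (hρ : Full ρ {t : T | (t : G) ∈ L}) (hσ : Full σ {s : S | (s : G) ∈ L})
    (hdV : (Module.finrank k V : k) ≠ 0) (hdW : (Module.finrank k W : k) ≠ 0) {e : k} (he : e ≠ 0)
    (htr : ∀ (s : G) (hs : s ∈ S), s ∈ L → LinearMap.trace k V (ρ ⟨s, hST hs⟩) = e * LinearMap.trace k W (σ ⟨s, hs⟩))
    (Z : Set G) (hZP : ∀ z ∈ Z, z ∈ P1) (hZS : ∀ s ∈ S, ∀ z ∈ Z, s * z * s⁻¹ ∈ Z) (hZC : ∀ z ∈ Z, ∀ l ∈ L, l * z = z * l → l ∈ S) :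
    ∃ fb : S →* kˣ, (∀ s : S, (s : G) ∈ L → fb s = 1) ∧
      ∀ z ∈ Z, ∀ (s : G) (hs : s ∈ S), s * z = z * s →
        LinearMap.trace k V (ρ ⟨s, hST hs⟩) = e * (fb ⟨s, hs⟩ : k) * LinearMap.trace k W (σ ⟨s, hs⟩) := by
  let E : S.subgroupOf T ≃* S := Subgroup.subgroupOfEquivOfLe hST
  have hE : ∀ s : S.subgroupOf T, ((E s : S) : G) = ((s : T) : G) := fun s => rfl
  have cardL : Nat.card (L.subgroupOf T) = Nat.card L :=
    Nat.card_congr (Subgroup.subgroupOfEquivOfLe hLT).toEquiv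
  have cardS : Nat.card (S.subgroupOf T) = Nat.card S := Nat.card_congr E.toEquiv
  have nz : ∀ (K : Subgroup G) (t : T), Nz (t : G) K → Nz t (K.subgroupOf T) :=
    fun K t h x => h x
  obtain ⟨fb, h1, h2⟩ := key_k (p := p) (G := T) (L := L.subgroupOf T) (P1 := P1.subgroupOf T)
    (S := S.subgroupOf T) (k := k) (V := V) (W := W)
    (fun g => nz L g (hLn g g.2))
    (fun s hs => nz P1 s (hPS s hs))
    (fun b hb c hc => Subtype.ext (hab b hb c hc))
    (fun u hu => by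
      obtain ⟨a, ha⟩ := hpp u hu
      exact ⟨a, Subtype.ext (by simpa using ha)⟩)
    (fun u hu l hl => Subtype.ext (by simpa using hpz u hu l hl))
    (fun c hc u hu => Subtype.ext (hCP c ⟨hc.1, hc.2⟩ u hu))
    (by rw [cardL]; exact hLp) (by rw [cardS]; exact hSp)
    ρ (σ.comp E.toMonoidHom) hρ
    (by
      unfold Full at hσ ⊢
      rw [← hσ]
      refine congrArg _ ?_
      ext T'
      constructor
      · rintro ⟨s, hs, rfl⟩
        exact ⟨E s, hs, rfl⟩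
      · rintro ⟨s, hs, rfl⟩
        exact ⟨E.symm s, hs, by simp⟩)
    hdV hdW he
    (fun s hs => htr ((s : T) : G) s.2 hs)
    {t : T | (t : G) ∈ Z} (fun z hz => hZP z hz)
    (fun s hs z hz => hZS s hs z hz)
    (fun z hz l hl h => hZC z hz l hl (congrArg Subtype.val h))
  refine ⟨fb.comp E.symm.toMonoidHom, fun s hs => ?_, fun z hz s hs hsz => ?_⟩
  · exact h1 (E.symm s) hs
  · exact h2 ⟨z, hPT (hZP z hz)⟩ hz ⟨⟨s, hST hs⟩, hs⟩ (Subtype.ext hsz)

end Pool.Agent.Lib.H90S
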