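import Pool.Agent.Lib.H90S.Defs

/-!
H90S, V1: the reduction map.
-/

open scoped Classical ComplexConjugate BigOperators

noncomputable section

namespace Pool.Agent.Lib.H90S

/-- Existence. The subring `ℤ` of `ℂ` (or the ring of algebraic integers) with a prime ideal containing `p`: `LocalSubring.ofPrime`, `LocalSubring.exists_le_valuationSubring` give a valuation subring `O` dominating it, so `p` is in the maximal ideal of `O`;
a valuation ring is integrally closed, so `O` contains all algebraic integers. The residue field has characteristic `p` because `p = 0` in it and it is a field (`CharP.of_...`: the ring characteristic divides the prime `p` and is not `1`). -/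
theorem redData_exists (p : ℕ) (hp : p.Prime) : Nonempty (RedData p) := by
  -- the ideal generated by `p` in the subring of algebraic integers
  set A : Subring ℂ := (integralClosure ℤ ℂ).toSubring with hA
  set I : Ideal A := Ideal.span {(p : A)} with hI
  have hIne : I ≠ ⊤ := by
    intro h
    rw [Ideal.eq_top_iff_one, Ideal.mem_span_singleton] at h
    obtain ⟨c, hc⟩ := h
    have hc1 : (1 : ℂ) = (p : ℂ) * (c : ℂ) := by
      have := congrArg (fun x : A => (x : ℂ)) hc
      simpa using this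
    have hci : IsIntegral ℤ (c : ℂ) := c.2
    have hp0 : (p : ℂ) ≠ 0 := by exact_mod_cast hp.ne_zero
    have hcq : (c : ℂ) = algebraMap ℚ ℂ ((p : ℚ)⁻¹) := by
      have : (c : ℂ) = (p : ℂ)⁻¹ := by
        field_simp
        rw [mul_comm]
        exact hc1.symm
      rw [this]
      simp
    have hq : IsIntegral ℤ ((p : ℚ)⁻¹) := by
      rw [hcq] at hci
      exact (isIntegral_algebraMap_iff (algebraMap ℚ ℂ).injective).1 hci
    obtain ⟨m, hm⟩ := IsIntegrallyClosed.isIntegral_iff.1 hq
    have hm1 : (m : ℚ) * p = 1 := by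
      have hp0' : (p : ℚ) ≠ 0 := by exact_mod_cast hp.ne_zero
      have : (m : ℚ) = (p : ℚ)⁻¹ := by simpa using hm
      rw [this]
      field_simp
    have hm2 : m * (p : ℤ) = 1 := by exact_mod_cast hm1
    have h2 : (p : ℤ) ∣ 1 := Dvd.intro_left _ hm2
    have h3 : p ∣ 1 := by exact_mod_cast h2
    exact hp.one_lt.ne' (Nat.dvd_one.1 h3)
  obtain ⟨B, hB1, hB2⟩ := Ideal.image_subset_nonunits_valuationSubring I hIne
  have hpB : (p : ℂ) ∈ B.nonunits := by
    refine hB2 ⟨(p : A), Ideal.subset_span rfl, ?_⟩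
    simp
  refine ⟨⟨B, fun z hz => hB1 hz, ?_⟩⟩
  have h0 : ((p : ℕ) : IsLocalRing.ResidueField B) = 0 := by
    have h1 : ((p : B)) ∈ IsLocalRing.maximalIdeal B := by
      rw [ValuationSubring.mem_nonunits_iff_exists_mem_maximalIdeal] at hpB
      obtain ⟨h, h'⟩ := hpB
      have e : (⟨(p : ℂ), h⟩ : B) = (p : B) := by
        apply Subtype.ext
        simp
      rwa [e] at h'
    have h2 : IsLocalRing.residue B (p : B) = 0 := (IsLocalRing.residue_eq_zero_iff _).2 h1
    simpa using h2
  exact (CharP.ringChar_of_prime_eq_zero hp h0) ▸ ringChar.charP _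

variable {p : ℕ} (D : RedData p)

theorem red_of_mem {z : ℂ} (h : z ∈ D.O) : D.red z = IsLocalRing.residue D.O ⟨z, h⟩ := by
  unfold RedData.red
  rw [dif_pos h]

theorem red_add {z w : ℂ} (hz : z ∈ D.O) (hw : w ∈ D.O) : D.red (z + w) = D.red z + D.red w := by
  rw [red_of_mem D hz, red_of_mem D hw, red_of_mem D (add_mem hz hw), ← map_add]
  rfl

theorem red_mul {z w : ℂ} (hz : z ∈ D.O) (hw : w ∈ D.O) : D.red (z * w) = D.red z * D.red w := by
  rw [red_of_mem D hz, red_of_mem D hw, red_of_mem D (mul_mem hz hw), ← map_mul]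
  rfl

theorem red_natCast (n : ℕ) : D.red (n : ℂ) = (n : D.k) := by
  have h : (n : ℂ) ∈ D.O := natCast_mem D.O n
  rw [red_of_mem D h]
  have e : (⟨(n : ℂ), h⟩ : D.O) = (n : D.O) := by
    apply Subtype.ext
    simp
  rw [e, map_natCast]

theorem red_intCast (n : ℤ) : D.red (n : ℂ) = (n : D.k) := by
  have h : (n : ℂ) ∈ D.O := intCast_mem D.O n
  rw [red_of_mem D h]
  have e : (⟨(n : ℂ), h⟩ : D.O) = (n : D.O) := by
    apply Subtype.ext
    simp
  rw [e, map_intCast]

theorem red_sum {ι : Type*} (s : Finset ι) (f : ι → ℂ) (h : ∀ i ∈ s, f i ∈ D.O) : D.red (∑ i ∈ s, f i) = ∑ i ∈ s, D.red (f i) := by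
  classical
  induction s using Finset.induction_on with
  | empty =>
    have := red_natCast D 0
    simpa using this
  | insert a s ha ih =>
    rw [Finset.sum_insert ha, Finset.sum_insert ha, red_add D (h a (Finset.mem_insert_self a s))
      (sum_mem fun i hi => h i (Finset.mem_insert_of_mem hi)),
      ih fun i hi => h i (Finset.mem_insert_of_mem hi)]

/-- A natural number prime to `p` is a unit of `O`: its inverse is in `O` (valuation ring: `n⁻¹ ∈ O` unless `n` is in the maximal ideal; Bezout `a n + b p = 1` shows it is not). -/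
theorem inv_natCast_mem (hp : p.Prime) {n : ℕ} (hn : ¬ p ∣ n) : (n : ℂ)⁻¹ ∈ D.O := by
  haveI := D.char
  have hmem : (n : ℂ) ∈ D.O := natCast_mem D.O n
  have h1 : IsLocalRing.residue D.O ⟨(n : ℂ), hmem⟩ ≠ 0 := by
    rw [← red_of_mem D hmem, red_natCast]
    exact fun h => hn ((CharP.cast_eq_zero_iff D.k p n).1 h)
  obtain ⟨u, hu⟩ := (IsLocalRing.residue_ne_zero_iff_isUnit _).1 h1
  have h2 : ((u : D.O) : ℂ) * (((u⁻¹ : (D.O)ˣ) : D.O) : ℂ) = 1 := by
    rw [← MulMemClass.coe_mul, Units.mul_inv]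
    rfl
  have h3 : ((u : D.O) : ℂ) = n := by rw [hu]
  rw [h3] at h2
  rw [← eq_inv_of_mul_eq_one_right h2]
  exact ((u⁻¹ : (D.O)ˣ) : D.O).2

/-- `(n : k) ≠ 0` iff `p` does not divide `n` (`CharP.cast_eq_zero_iff` for `D.char`). -/
theorem natCast_ne (hp : p.Prime) {n : ℕ} (hn : ¬ p ∣ n) : (n : D.k) ≠ 0 := by
  haveI := D.char
  intro h
  exact hn ((CharP.cast_eq_zero_iff D.k p n).1 h)

private theorem V1_root_mem {m : ℕ} (hm : m ≠ 0) {z : ℂ} (hz : z ^ m = 1) : z ∈ D.O :=
  D.int z (IsIntegral.of_pow (Nat.pos_of_ne_zero hm) (by rw [hz]; exact isIntegral_one))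

private theorem V1_red_one : D.red 1 = 1 := by
  have h := red_natCast D 1
  simpa using h

private theorem V1_red_pow {z : ℂ} (hz : z ∈ D.O) (n : ℕ) : D.red (z ^ n) = D.red z ^ n := by
  induction n with
  | zero => rw [pow_zero, pow_zero, V1_red_one]
  | succ n ih => rw [pow_succ, pow_succ, red_mul D (pow_mem hz n) hz, ih]

/-- Roots of unity of order prime to `p` with the same reduction are equal. Let `z ^ m = 1`, `red z = 1`, `p` not dividing `m`. If `z ≠ 1` then `1 + z + ... + z ^ (m - 1) = 0`, whose reduction is `m ≠ 0` in `k`. -/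
theorem red_root_one (hp : p.Prime) {m : ℕ} (hm : ¬ p ∣ m) {z : ℂ} (hz : z ^ m = 1) (h : D.red z = 1) : z = 1 := by
  by_contra hne
  have hm0 : m ≠ 0 := fun h0 => hm (h0 ▸ dvd_zero p)
  have hmem := V1_root_mem D hm0 hz
  have h1 : ∑ i ∈ Finset.range m, z ^ i = 0 := by
    have h2 := mul_geom_sum z m
    rw [hz, sub_self] at h2
    exact (mul_eq_zero.1 h2).resolve_left (sub_ne_zero.2 hne)
  have h3 := red_sum D (Finset.range m) (fun i => z ^ i) fun i _ => pow_mem hmem i
  rw [h1] at h3
  have h4 : ∑ i ∈ Finset.range m, D.red (z ^ i) = (m : D.k) := by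
    rw [Finset.sum_congr rfl fun i _ => (V1_red_pow D hmem i).trans (by rw [h, one_pow])]
    simp
  have h5 : D.red (0 : ℂ) = 0 := by simpa using red_natCast D 0
  rw [h4, h5] at h3
  exact natCast_ne D hp hm h3.symm

private theorem V1_inj (hp : p.Prime) {m : ℕ} (hm : ¬ p ∣ m) {z w : ℂ} (hz : z ^ m = 1)
    (hw : w ^ m = 1) (h : D.red z = D.red w) : z = w := by
  have hm0 : m ≠ 0 := fun h0 => hm (h0 ▸ dvd_zero p)
  have hw0 : w ≠ 0 := by
    rintro rfl
    rw [zero_pow hm0] at hw
    exact zero_ne_one hw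
  have hu : (z / w) ^ m = 1 := by rw [div_pow, hz, hw, div_one]
  have hzw : z = z / w * w := (div_mul_cancel₀ z hw0).symm
  have h1 := red_mul D (V1_root_mem D hm0 hu) (V1_root_mem D hm0 hw)
  rw [← hzw, h] at h1
  have hr : D.red w ≠ 0 := by
    intro h0
    have h2 := V1_red_pow D (V1_root_mem D hm0 hw) m
    rw [hw, V1_red_one, h0, zero_pow hm0] at h2
    exact one_ne_zero h2
  have h3 : D.red (z / w) = 1 := by
    have h4 : D.red (z / w) * D.red w = 1 * D.red w := by rw [← h1, one_mul]
    exact mul_right_cancel₀ hr h4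
  have h5 := red_root_one D hp hm hu h3
  rw [hzw, h5, one_mul]

/-- Every `m`-th root of unity of the residue field is the reduction of an `m`-th root of unity of `ℂ` (`p` not dividing `m`): reduction is injective on the `m` complex `m`-th roots of unity (`red_root_one`), they map to `m`-th roots of unity of `k`, of which there are at most `m`
(`rootsOfUnity`, `card_rootsOfUnity`/`Polynomial.nthRoots`). -/
theorem red_root_surj (hp : p.Prime) {m : ℕ} (hm : ¬ p ∣ m) {x : D.k} (hx : x ^ m = 1) : ∃ z : ℂ, z ^ m = 1 ∧ D.red z = x := by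
  have hm0 : m ≠ 0 := fun h0 => hm (h0 ▸ dvd_zero p)
  have hpos : 0 < m := Nat.pos_of_ne_zero hm0
  have hcard : (Polynomial.nthRootsFinset m (1 : ℂ)).card = m :=
    (Complex.isPrimitiveRoot_exp m hm0).card_nthRootsFinset
  have hle : (Polynomial.nthRootsFinset m (1 : D.k)).card ≤ m := by
    refine (Multiset.toFinset_card_le _).trans ?_
    exact Polynomial.card_nthRoots m 1
  have hmaps : ∀ z ∈ Polynomial.nthRootsFinset m (1 : ℂ),
      D.red z ∈ Polynomial.nthRootsFinset m (1 : D.k) := by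
    intro z hz
    rw [Polynomial.mem_nthRootsFinset hpos] at hz ⊢
    rw [← V1_red_pow D (V1_root_mem D hm0 hz), hz, V1_red_one]
  have hinj : Set.InjOn D.red (Polynomial.nthRootsFinset m (1 : ℂ) : Set ℂ) := by
    intro z hz w hw h
    rw [Finset.mem_coe, Polynomial.mem_nthRootsFinset hpos] at hz hw
    exact V1_inj D hp hm hz hw h
  have hsurj := Finset.surjOn_of_injOn_of_card_le D.red hmaps hinj (by rw [hcard]; exact hle)
  obtain ⟨z, hz, hzx⟩ := hsurj (Finset.mem_coe.2 ((Polynomial.mem_nthRootsFinset hpos _).2 hx))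
  exact ⟨z, (Polynomial.mem_nthRootsFinset hpos _).1 (Finset.mem_coe.1 hz), hzx⟩

/-- A homomorphism from a finite group of order prime to `p` to `k^×` lifts to `ℂ^×`: `f g` is the unique `card B`-th root of unity with reduction `fb g` (`red_root_surj`, `red_root_one`); multiplicativity by uniqueness. -/
theorem red_lift (hp : p.Prime) {B : Type*} [Group B] [Finite B] (hB : ¬ p ∣ Nat.card B) (fb : B →* (D.k)ˣ) : ∃ f : B →* ℂˣ, ∀ g, D.red (f g : ℂ) = (fb g : D.k) := by
  have hm0 : Nat.card B ≠ 0 := fun h0 => hB (h0 ▸ dvd_zero p)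
  have hx : ∀ g, ((fb g : (D.k)ˣ) : D.k) ^ Nat.card B = 1 := by
    intro g
    rw [← Units.val_pow_eq_pow_val, ← map_pow, pow_card_eq_one', map_one, Units.val_one]
  choose z hz1 hz2 using fun g => red_root_surj D hp hB (hx g)
  have hz0 : ∀ g, z g ≠ 0 := by
    intro g h0
    have h1 := hz1 g
    rw [h0, zero_pow hm0] at h1
    exact zero_ne_one h1
  refine ⟨MonoidHom.mk' (fun g => Units.mk0 (z g) (hz0 g)) ?_, fun g => ?_⟩
  · intro g h
    ext
    simp only [Units.val_mk0, Units.val_mul]
    refine V1_inj D hp hB (hz1 _) ?_ ?_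
    · rw [mul_pow, hz1, hz1, one_mul]
    · rw [red_mul D (V1_root_mem D hm0 (hz1 g)) (V1_root_mem D hm0 (hz1 h)), hz2, hz2, hz2,
        map_mul, Units.val_mul]
  · simpa using hz2 g

end Pool.Agent.Lib.H90S
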