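import Pool.Agent.Lib.H90S.V1

/-!
H90S, V2: integral models of finite matrix groups (helper88's determinant argument).
-/

open scoped Classical ComplexConjugate BigOperators

noncomputable section

namespace Pool.Agent.Lib.H90S

private theorem v2_basis {n : ℕ} (X : Finset (Fin n → ℂ))
    (hX : Submodule.span ℂ (X : Set (Fin n → ℂ)) = ⊤) :
    ∃ q : Fin n → X, (Matrix.of fun i j => (q j).1 i : Matrix (Fin n) (Fin n) ℂ).det ≠ 0 := by
  obtain ⟨b, hbX, hspan, hli⟩ := exists_linearIndependent ℂ (X : Set (Fin n → ℂ))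
  rw [hX] at hspan
  have hsp : ⊤ ≤ Submodule.span ℂ (Set.range ((↑) : b → (Fin n → ℂ))) := by
    rw [Subtype.range_coe, hspan]
  let B := Module.Basis.mk hli hsp
  have hfin : Finite b := (X.finite_toSet.subset hbX)
  have := Fintype.ofFinite b
  have hcard : Fintype.card b = n := by
    have h1 := Module.finrank_eq_card_basis B
    rw [Module.finrank_fin_fun] at h1
    exact h1.symm
  let e : Fin n ≃ b := (Fintype.equivFinOfCardEq hcard).symm
  refine ⟨fun j => ⟨(e j).1, hbX (e j).2⟩, ?_⟩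
  have hli2 : LinearIndependent ℂ (fun j : Fin n => ((e j).1 : Fin n → ℂ)) :=
    hli.comp e e.injective
  have h3 : IsUnit (Matrix.of fun i j => ((e j).1 : Fin n → ℂ) i : Matrix (Fin n) (Fin n) ℂ) := by
    rw [← Matrix.linearIndependent_cols_iff_isUnit]
    exact hli2
  have h4 := (Matrix.isUnit_iff_isUnit_det _).mp h3
  exact h4.ne_zero

/-- Maximal determinant. Let `X` be a finite set of vectors that spans `ℂ ^ n`. Choose `q : Fin n → X` such that `det (q)` has maximal valuation (`ValuationSubring.valuation`) among all choices; it is not zero since `X` contains a basis. By Cramer's rule the coordinates of every `x ∈ X` in the basis `q` are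
`det (q with the i-th column replaced by x) / det q`, whose valuation is at most one, so they are in `O` (`ValuationSubring.valuation_le_one_iff`). Conclusion: there is an invertible matrix `Q` with columns in `X` such that `Q⁻¹ x` has entries in `O` for all `x ∈ X`. -/
theorem V2_maxdet (O : ValuationSubring ℂ) {n : ℕ} (X : Finset (Fin n → ℂ)) (hX : Submodule.span ℂ (X : Set (Fin n → ℂ)) = ⊤) :
    ∃ Q : Matrix (Fin n) (Fin n) ℂ, IsUnit Q.det ∧ (∀ j, (fun i => Q i j) ∈ X) ∧ ∀ x ∈ X, ∀ i, (Q⁻¹.mulVec x) i ∈ O := by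
  obtain ⟨q₀, hq₀⟩ := v2_basis X hX
  have : Nonempty (Fin n → X) := ⟨q₀⟩
  obtain ⟨q, hq⟩ := Finite.exists_max (fun q : Fin n → X =>
    O.valuation (Matrix.of fun i j => (q j).1 i : Matrix (Fin n) (Fin n) ℂ).det)
  set M : Matrix (Fin n) (Fin n) ℂ := Matrix.of fun i j => (q j).1 i with hM
  have h0 : M.det ≠ 0 := by
    intro h
    have h1 := hq q₀
    rw [h, map_zero, le_zero_iff, map_eq_zero] at h1
    exact hq₀ h1
  refine ⟨M, isUnit_iff_ne_zero.mpr h0, fun j => (q j).2, ?_⟩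
  intro x hx i
  have h1 : (M⁻¹.mulVec x) i = (M.updateCol i x).det / M.det := by
    rw [Matrix.inv_def, Ring.inverse_eq_inv', Matrix.smul_mulVec, Pi.smul_apply,
      ← Matrix.cramer_eq_adjugate_mulVec, Matrix.cramer_apply, smul_eq_mul, div_eq_inv_mul]
  have h2 : (Matrix.of fun i' j => ((Function.update q i ⟨x, hx⟩ : Fin n → X) j).1 i' :
      Matrix (Fin n) (Fin n) ℂ) = M.updateCol i x := by
    ext a b
    by_cases hb : b = i
    · subst hb
      simp
    · simp [hb, hM]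
  have h3 := hq (Function.update q i ⟨x, hx⟩)
  rw [h2] at h3
  rw [h1, ← O.valuation_le_one_iff, map_div₀]
  exact div_le_one_of_le₀ h3 zero_le

/-- Integral model: `X` = all `ρ b *ᵥ e_i`; `V2_maxdet` gives `Q`; the `j`-th column of `Q⁻¹ * ρ b * Q` is `Q⁻¹ *ᵥ (ρ b *ᵥ (column j of Q))`, and `ρ b *ᵥ (column j) ∈ X`. -/
theorem V2_model (O : ValuationSubring ℂ) {B : Type*} [Group B] [Finite B] {n : ℕ} (ρ : B →* Matrix (Fin n) (Fin n) ℂ) :
    ∃ Q : Matrix (Fin n) (Fin n) ℂ, IsUnit Q.det ∧ ∀ b i j, (Q⁻¹ * ρ b * Q) i j ∈ O := by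
  have := Fintype.ofFinite B
  let X : Finset (Fin n → ℂ) := Finset.image
    (fun t : B × Fin n => (ρ t.1).mulVec (Pi.single t.2 (1 : ℂ))) Finset.univ
  have hX : Submodule.span ℂ (X : Set (Fin n → ℂ)) = ⊤ := by
    rw [eq_top_iff, ← (Pi.basisFun ℂ (Fin n)).span_eq]
    apply Submodule.span_mono
    rintro _ ⟨i, rfl⟩
    simp only [X, Finset.coe_image, Finset.coe_univ, Set.image_univ, Set.mem_range]
    exact ⟨(1, i), by rw [map_one, Matrix.one_mulVec, Pi.basisFun_apply]⟩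
  obtain ⟨Q, h1, h2, h3⟩ := V2_maxdet O X hX
  refine ⟨Q, h1, ?_⟩
  intro b i j
  have h4 := h2 j
  simp only [X, Finset.mem_image, Finset.mem_univ, true_and] at h4
  obtain ⟨⟨c, k⟩, hc⟩ := h4
  have h5 : (ρ b).mulVec (fun i => Q i j) ∈ X := by
    simp only [X, Finset.mem_image, Finset.mem_univ, true_and]
    refine ⟨(b * c, k), ?_⟩
    rw [← hc]
    simp only [map_mul, Matrix.mulVec_mulVec]
  have h6 := h3 _ h5 i
  have h7 : (Q⁻¹ * ρ b * Q) i j = (Q⁻¹.mulVec ((ρ b).mulVec (fun i => Q i j))) i := by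
    rw [Matrix.mulVec_mulVec]
    rfl
  rw [h7]
  exact h6

/-- The same with a homomorphism to matrices over `O`: `ρO : B →* Matrix (Fin n) (Fin n) O` whose image over `ℂ` is `Q⁻¹ * ρ b * Q`. -/
theorem V2_hom (O : ValuationSubring ℂ) {B : Type*} [Group B] [Finite B] {n : ℕ} (ρ : B →* Matrix (Fin n) (Fin n) ℂ) :
    ∃ (Q : Matrix (Fin n) (Fin n) ℂ) (ρO : B →* Matrix (Fin n) (Fin n) O), IsUnit Q.det ∧ ∀ b, (ρO b).map (algebraMap O ℂ) = Q⁻¹ * ρ b * Q := by
  obtain ⟨Q, h1, h2⟩ := V2_model O ρ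
  let f : B → Matrix (Fin n) (Fin n) O := fun b => Matrix.of fun i j => ⟨(Q⁻¹ * ρ b * Q) i j, h2 b i j⟩
  have hf : ∀ b, (f b).map (algebraMap O ℂ) = Q⁻¹ * ρ b * Q := by
    intro b
    ext i j
    rfl
  have hinj : ∀ M N : Matrix (Fin n) (Fin n) O,
      M.map (algebraMap O ℂ) = N.map (algebraMap O ℂ) → M = N := by
    intro M N h
    ext i j
    exact congrFun (congrFun h i) j
  refine ⟨Q, ⟨⟨f, ?_⟩, ?_⟩, h1, hf⟩
  · apply hinj
    rw [hf, map_one, mul_one, Matrix.nonsing_inv_mul _ h1]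
    ext i j
    by_cases h : i = j
    · subst h
      simp
    · simp [h]
  · intro b c
    apply hinj
    rw [hf, Matrix.map_mul, hf, hf, map_mul]
    have h3 : Q * Q⁻¹ = 1 := Matrix.mul_nonsing_inv _ h1
    calc Q⁻¹ * (ρ b * ρ c) * Q = Q⁻¹ * ρ b * 1 * ρ c * Q := by
          rw [mul_one, mul_assoc (Q⁻¹) (ρ b) (ρ c)]
      _ = Q⁻¹ * ρ b * (Q * Q⁻¹) * ρ c * Q := by rw [h3]
      _ = Q⁻¹ * ρ b * Q * (Q⁻¹ * ρ c * Q) := by simp only [mul_assoc]

end Pool.Agent.Lib.H90S
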