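import Mathlib

/-!
H90S, X1: dimensions for a nilpotent endomorphism.
-/

noncomputable section

namespace Pool.Agent.Lib.H90S

variable {F V : Type*} [Field F] [AddCommGroup V] [Module F V] [FiniteDimensional F V]

/-- Rank-nullity for `N` on `range (N ^ j)`: its image is `range (N ^ (j + 1))`, its kernel is `ker N ⊓ range (N ^ j)`.
Proof: `LinearMap.finrank_range_add_finrank_ker` for `N.domRestrict (range (N ^ j))`; the range is `(range (N ^ j)).map N = range (N * N ^ j) = range (N ^ (j + 1))` and the kernel is
the comap of `ker N`; `Submodule.finrank_map_subtype_eq` or a linear equivalence gives its dimension. -/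
theorem X1_step (N : Module.End F V) (j : ℕ) :
    Module.finrank F (LinearMap.range (N ^ j)) =
      Module.finrank F (LinearMap.ker N ⊓ LinearMap.range (N ^ j) : Submodule F V) + Module.finrank F (LinearMap.range (N ^ (j + 1))) := by
  have h1 := LinearMap.finrank_range_add_finrank_ker (N.domRestrict (LinearMap.range (N ^ j)))
  have h2 : LinearMap.range (N.domRestrict (LinearMap.range (N ^ j))) = LinearMap.range (N ^ (j + 1)) := by
    rw [LinearMap.range_domRestrict, ← LinearMap.range_comp, pow_succ']
    rfl
  have h3 : Module.finrank F (LinearMap.ker (N.domRestrict (LinearMap.range (N ^ j)))) =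
      Module.finrank F (LinearMap.ker N ⊓ LinearMap.range (N ^ j) : Submodule F V) := by
    rw [LinearMap.ker_domRestrict]
    rw [← Submodule.finrank_map_subtype_eq (LinearMap.range (N ^ j)) (Submodule.comap (LinearMap.range (N ^ j)).subtype (LinearMap.ker N))]
    have : (Submodule.comap (LinearMap.range (N ^ j)).subtype (LinearMap.ker N)).map (LinearMap.range (N ^ j)).subtype
        = (LinearMap.ker N ⊓ LinearMap.range (N ^ j) : Submodule F V) := by
      rw [Submodule.map_comap_subtype, inf_comm]
    rw [this]
  rw [h2, h3] at h1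
  omega

/-- Telescoping `X1_step`, `range (N ^ 0) = ⊤`, `range (N ^ p) = ⊥`. -/
theorem X1_sum (N : Module.End F V) {p : ℕ} (hN : N ^ p = 0) :
    Module.finrank F V = ∑ j ∈ Finset.range p, Module.finrank F (LinearMap.ker N ⊓ LinearMap.range (N ^ j) : Submodule F V) := by
  have key : ∀ q : ℕ, Module.finrank F V =
      ∑ j ∈ Finset.range q, Module.finrank F (LinearMap.ker N ⊓ LinearMap.range (N ^ j) : Submodule F V) + Module.finrank F (LinearMap.range (N ^ q)) := by
    intro q
    induction q with
    | zero =>
      simp only [Finset.range_zero, Finset.sum_empty, zero_add]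
      have : LinearMap.range (N ^ 0) = ⊤ := by
        rw [pow_zero]; exact LinearMap.range_id
      rw [this, finrank_top]
    | succ q ih =>
      rw [Finset.sum_range_succ, ih, X1_step N q]
      ring
  rw [key p, hN]
  simp

/-- In `X1_sum` the term `j = 0` is `dim ker N`, the others are at least `dim range (N ^ (p - 1))` (`range (N ^ (p - 1)) ≤ ker N ⊓ range (N ^ j)` for `j ≤ p - 1`, as `N ^ p = 0`). -/
theorem X1_lower (N : Module.End F V) {p : ℕ} (hp : 1 ≤ p) (hN : N ^ p = 0) :
    Module.finrank F (LinearMap.ker N) + (p - 1) * Module.finrank F (LinearMap.range (N ^ (p - 1))) ≤ Module.finrank F V := by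
  obtain ⟨q, rfl⟩ : ∃ q, p = q + 1 := ⟨p - 1, by omega⟩
  rw [X1_sum N hN, Finset.sum_range_succ']
  have h0 : Module.finrank F (LinearMap.ker N ⊓ LinearMap.range (N ^ 0) : Submodule F V) = Module.finrank F (LinearMap.ker N) := by
    have : LinearMap.range (N ^ 0) = ⊤ := by
      rw [pow_zero]; exact LinearMap.range_id
    rw [this, inf_top_eq]
  rw [h0, add_comm]
  refine Nat.add_le_add_right ?_ _
  rw [Nat.add_sub_cancel]
  calc q * Module.finrank F (LinearMap.range (N ^ q))
      = ∑ _j ∈ Finset.range q, Module.finrank F (LinearMap.range (N ^ q)) := by simp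
    _ ≤ _ := by
      refine Finset.sum_le_sum ?_
      intro j hj
      rw [Finset.mem_range] at hj
      refine Submodule.finrank_mono ?_
      refine le_inf ?_ ?_
      · rintro x ⟨y, rfl⟩
        rw [LinearMap.mem_ker]
        have : N ((N ^ q) y) = (N ^ (q + 1)) y := by rw [pow_succ']; rfl
        rw [this, hN]; rfl
      · rintro x ⟨y, rfl⟩
        refine ⟨(N ^ (q - (j + 1))) y, ?_⟩
        have : N ^ q = N ^ (j + 1) * N ^ (q - (j + 1)) := by
          rw [← pow_add]; congr 1; omega
        rw [this]; rfl

/-- In `X1_sum` the term `j = p - 1` is at most `dim range (N ^ (p - 1))`, the others are at most `dim ker N`. -/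
theorem X1_upper (N : Module.End F V) {p : ℕ} (hp : 1 ≤ p) (hN : N ^ p = 0) :
    Module.finrank F V ≤ (p - 1) * Module.finrank F (LinearMap.ker N) + Module.finrank F (LinearMap.range (N ^ (p - 1))) := by
  obtain ⟨q, rfl⟩ : ∃ q, p = q + 1 := ⟨p - 1, by omega⟩
  rw [X1_sum N hN, Finset.sum_range_succ, Nat.add_sub_cancel]
  refine Nat.add_le_add ?_ (Submodule.finrank_mono inf_le_right)
  calc _ ≤ ∑ _j ∈ Finset.range q, Module.finrank F (LinearMap.ker N) :=
        Finset.sum_le_sum (fun j _ => Submodule.finrank_mono inf_le_left)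
    _ = _ := by simp

/-- Matrix form of `X1_lower` and `X1_upper`: `dim ker N = card ι - rank N` (`Matrix.rank`, `Matrix.mulVecLin`; the matrix power corresponds to the power of the linear map: `Matrix.toLin'_pow`/`Matrix.mulVecLin_mul`). -/
theorem X1_matrix {ι : Type*} [Fintype ι] [DecidableEq ι] (N : Matrix ι ι F) {p : ℕ} (hp : 1 ≤ p) (hN : N ^ p = 0) :
    (p - 1) * (N ^ (p - 1)).rank ≤ N.rank ∧ Fintype.card ι ≤ (p - 1) * (Fintype.card ι - N.rank) + (N ^ (p - 1)).rank ∧
      N.rank + (N ^ (p - 1)).rank ≤ Fintype.card ι := by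
  have hpow : ∀ k : ℕ, Matrix.toLin' (N ^ k) = (Matrix.toLin' N) ^ k := fun k => Matrix.toLin'_pow N k
  have hr : ∀ k : ℕ, Module.finrank F (LinearMap.range ((Matrix.toLin' N) ^ k)) = (N ^ k).rank := by
    intro k
    rw [← hpow k, Matrix.rank, Matrix.toLin'_apply']
  have hN' : (Matrix.toLin' N) ^ p = 0 := by rw [← hpow p, hN, map_zero]
  have h1 : (N ^ 1).rank = N.rank := by rw [pow_one]
  have hrn := LinearMap.finrank_range_add_finrank_ker (Matrix.toLin' N)
  have hr1 : Module.finrank F (LinearMap.range (Matrix.toLin' N)) = N.rank := by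
    have := hr 1
    rwa [pow_one, pow_one] at this
  rw [hr1, Module.finrank_fintype_fun_eq_card] at hrn
  have hl := X1_lower (Matrix.toLin' N) hp hN'
  have hu := X1_upper (Matrix.toLin' N) hp hN'
  rw [Module.finrank_fintype_fun_eq_card, hr] at hl hu
  have hk : Module.finrank F (LinearMap.ker (Matrix.toLin' N)) = Fintype.card ι - N.rank := by omega
  refine ⟨?_, ?_, ?_⟩
  · omega
  · rw [← hk]; exact hu
  · rcases Nat.lt_or_ge 1 p with h | h
    · have h2 : 1 * (N ^ (p - 1)).rank ≤ (p - 1) * (N ^ (p - 1)).rank := Nat.mul_le_mul_right _ (by omega)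
      have h3 : Module.finrank F (LinearMap.ker (Matrix.toLin' N)) ≥ (N ^ (p - 1)).rank := by
        rw [← hr (p - 1)]
        refine Submodule.finrank_mono ?_
        rintro x ⟨y, rfl⟩
        rw [LinearMap.mem_ker]
        have : (Matrix.toLin' N) (((Matrix.toLin' N) ^ (p - 1)) y) = ((Matrix.toLin' N) ^ p) y := by
          have hp2 : p = (p - 1) + 1 := by omega
          conv_rhs => rw [hp2, pow_succ']
          rfl
        rw [this, hN']; rfl
      omega
    · have hp1 : p = 1 := by omega
      subst hp1
      rw [pow_one] at hN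
      subst hN
      have : (0 : Matrix ι ι F).rank = 0 := Matrix.rank_zero
      rw [this]
      have := Matrix.rank_le_card_width ((0 : Matrix ι ι F) ^ (1 - 1))
      omega

end Pool.Agent.Lib.H90S
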