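import Mathlib

/-!
H90S, X2: Cramer's rule: kernel vectors with prescribed specialisation.
-/

noncomputable section

namespace Pool.Agent.Lib.H90S

/-- Over a field: a matrix of rank at least `r` has a two-sided minor `B * S * A = 1` of size `r`. Proof: choose `r` linearly independent vectors in the range of `S.mulVecLin`
(`Module.finrank` of the range is the rank; e.g. the first `r` vectors of a basis of the range), let `A` have preimages as columns; the columns of `S * A` are linearly independent, so the linear map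
`(Fin r → k) → (ι → k)` given by `S * A` is injective and has a left inverse (`LinearMap.exists_leftInverse_of_injective`), whose matrix is `B`. -/
theorem X2_minor {k ι : Type*} [Field k] [Fintype ι] [DecidableEq ι] (S : Matrix ι ι k) {r : ℕ} (h : r ≤ S.rank) :
    ∃ (B : Matrix (Fin r) ι k) (A : Matrix ι (Fin r) k), B * S * A = 1 := by
  classical
  have h1 : r ≤ Module.finrank k (LinearMap.range S.mulVecLin) := h
  obtain ⟨b, -⟩ : ∃ b : Module.Basis (Fin (Module.finrank k (LinearMap.range S.mulVecLin))) k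
      (LinearMap.range S.mulVecLin), True := ⟨Module.finBasis k _, trivial⟩
  have hpre : ∀ i : Fin r, ∃ x : ι → k, S.mulVecLin x = (b (Fin.castLE h1 i) : ι → k) :=
    fun i => (b (Fin.castLE h1 i)).2
  choose x hx using hpre
  obtain ⟨A, hA⟩ : ∃ A : Matrix ι (Fin r) k, A = Matrix.of fun j i => x i j := ⟨_, rfl⟩
  have hcol : ∀ c : Fin r → k, A.mulVec c = ∑ i, c i • x i := by
    intro c
    funext j
    rw [hA, Finset.sum_apply]
    simp only [Matrix.mulVec, dotProduct, Matrix.of_apply, Pi.smul_apply, smul_eq_mul]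
    exact Finset.sum_congr rfl fun i _ => mul_comm _ _
  have hli : LinearIndependent k (fun i : Fin r => (b (Fin.castLE h1 i) : ι → k)) :=
    (b.linearIndependent.comp _ (Fin.castLE_injective h1)).map' (Submodule.subtype _)
      (Submodule.ker_subtype _)
  have hker : LinearMap.ker (S * A).mulVecLin = ⊥ := by
    rw [LinearMap.ker_eq_bot']
    intro c hc
    have h2 : ∑ i, c i • (b (Fin.castLE h1 i) : ι → k) = 0 := by
      have h3 : (S * A).mulVec c = S.mulVecLin (∑ i, c i • x i) := by
        rw [← hcol, Matrix.mulVecLin_apply, Matrix.mulVec_mulVec]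
      rw [Matrix.mulVecLin_apply, h3, map_sum] at hc
      rw [← hc]
      exact Finset.sum_congr rfl fun i _ => by rw [map_smul, hx]
    funext i
    exact Fintype.linearIndependent_iff.1 hli c h2 i
  obtain ⟨g, hg⟩ := LinearMap.exists_leftInverse_of_injective _ hker
  refine ⟨LinearMap.toMatrix' g, A, ?_⟩
  have h4 := LinearMap.toMatrix'_comp g (S * A).mulVecLin
  have h5 : LinearMap.toMatrix' (S * A).mulVecLin = S * A := by
    rw [← Matrix.toLin'_apply', LinearMap.toMatrix'_toLin']
  rw [hg, LinearMap.toMatrix'_id, h5] at h4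
  rw [Matrix.mul_assoc, ← h4]

/-- Over a field: if `B * S * A` is an invertible `r × r` matrix then `r ≤ rank S`; if moreover `rank S ≤ r` then `B * S` and `S` have the same kernel. Proof: the rank of a product is at most the rank of a factor
(`Matrix.rank_mul_le_left`, `Matrix.rank_mul_le_right`); for the kernels: `ker S ≤ ker (B * S)` and both have dimension `card ι - r` (`r ≤ rank (B * S) ≤ rank S ≤ r`), so they are equal (`Submodule.eq_of_le_of_finrank_eq`). -/
theorem X2_kernel {K ι : Type*} [Field K] [Fintype ι] [DecidableEq ι] {r : ℕ} (S : Matrix ι ι K) (B : Matrix (Fin r) ι K) (A : Matrix ι (Fin r) K)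
    (h : (B * S * A).det ≠ 0) : r ≤ S.rank ∧ (S.rank ≤ r → ∀ w : ι → K, (B * S).mulVec w = 0 → S.mulVec w = 0) := by
  have h0 : (B * S * A).rank = r := by
    have h1 : IsUnit (B * S * A) := (Matrix.isUnit_iff_isUnit_det _).2 (isUnit_iff_ne_zero.2 h)
    rw [Matrix.rank_of_isUnit _ h1, Fintype.card_fin]
  have h2 := Matrix.rank_mul_le_left (B * S) A
  rw [h0] at h2
  have h3 : (B * S).rank ≤ S.rank := Matrix.rank_mul_le_right _ _
  refine ⟨h2.trans h3, fun h4 w hw => ?_⟩
  have hle : LinearMap.ker S.mulVecLin ≤ LinearMap.ker (B * S).mulVecLin := by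
    intro v hv
    rw [LinearMap.mem_ker, Matrix.mulVecLin_apply] at hv ⊢
    rw [← Matrix.mulVec_mulVec, hv, Matrix.mulVec_zero]
  have h5 := LinearMap.finrank_range_add_finrank_ker S.mulVecLin
  have h6 := LinearMap.finrank_range_add_finrank_ker (B * S).mulVecLin
  have h7 : Module.finrank K (LinearMap.range S.mulVecLin) = S.rank := rfl
  have h8 : Module.finrank K (LinearMap.range (B * S).mulVecLin) = (B * S).rank := rfl
  have h9 : LinearMap.ker S.mulVecLin = LinearMap.ker (B * S).mulVecLin :=
    Submodule.eq_of_le_of_finrank_eq hle (by omega)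
  have h10 : w ∈ LinearMap.ker (B * S).mulVecLin := by
    rw [LinearMap.mem_ker, Matrix.mulVecLin_apply]
    exact hw
  rw [← h9, LinearMap.mem_ker, Matrix.mulVecLin_apply] at h10
  exact h10

variable {k R K ι : Type*} [Field k] [CommRing R] [IsDomain R] [Algebra k R] [Field K] [Algebra R K] [IsFractionRing R K] [Fintype ι] [DecidableEq ι]

omit [IsDomain R] [Fintype ι] [DecidableEq ι] in
private lemma X2b_map (ev : R →ₐ[k] k) {m n : Type*} (B : Matrix m n k) :
    (B.map (algebraMap k R)).map (ev : R →+* k) = B := by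
  ext i j
  simp

omit [IsDomain R] in
private lemma X2b_det (ev : R →ₐ[k] k) (S : Matrix ι ι R) {r : ℕ} (B : Matrix (Fin r) ι k) (A : Matrix ι (Fin r) k)
    (h : B * S.map ev * A = 1) :
    ev (B.map (algebraMap k R) * S * A.map (algebraMap k R)).det = 1 := by
  have h1 := (ev : R →+* k).map_det (B.map (algebraMap k R) * S * A.map (algebraMap k R))
  rw [RingHom.mapMatrix_apply, Matrix.map_mul, Matrix.map_mul, X2b_map, X2b_map] at h1
  have h2 : S.map (ev : R →+* k) = S.map ev := rfl
  rw [h2, h, Matrix.det_one] at h1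
  exact h1

private lemma X2b_detK (K : Type*) [Field K] [Algebra R K] [IsFractionRing R K] (ev : R →ₐ[k] k) (S : Matrix ι ι R) {r : ℕ}
    (B : Matrix (Fin r) ι k) (A : Matrix ι (Fin r) k) (h : B * S.map ev * A = 1) :
    ((B.map (algebraMap k R)).map (algebraMap R K) * S.map (algebraMap R K) * (A.map (algebraMap k R)).map (algebraMap R K)).det ≠ 0 := by
  have h1 := (algebraMap R K).map_det (B.map (algebraMap k R) * S * A.map (algebraMap k R))
  rw [RingHom.mapMatrix_apply, Matrix.map_mul, Matrix.map_mul] at h1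
  rw [← h1]
  intro h2
  have h3 := (IsFractionRing.injective R K) (h2.trans (map_zero (algebraMap R K)).symm)
  have h4 := X2b_det ev S B A h
  rw [h3, map_zero] at h4
  exact zero_ne_one h4

/-- The rank can only drop under specialisation. Proof: `X2_minor` for `S.map ev` with `r` its rank gives `B`, `A` over `k`; `D = det (B' * S * A')` with `B'`, `A'` the images in `R` satisfies `ev D = 1`, so `D ≠ 0`, also in `K`;
`X2_kernel`. -/
theorem X2_rank (ev : R →ₐ[k] k) (S : Matrix ι ι R) : (S.map ev).rank ≤ (S.map (algebraMap R K)).rank := by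
  obtain ⟨B, A, h⟩ := X2_minor (S.map ev) le_rfl
  exact (X2_kernel _ _ _ (X2b_detK K ev S B A h)).1

/-- Cramer's rule. `B`, `A` from `X2_minor` for `S.map ev`, `B' = B.map (algebraMap k R)`, `A' = A.map (algebraMap k R)`, `M = B' * S * A'`, `D = M.det`, `ev D = 1`. Put
`w = D • v' - A' *ᵥ (M.adjugate *ᵥ ((B' * S) *ᵥ v'))` with `v' i = algebraMap k R (v i)`. Then `(B' * S) *ᵥ w = D • (B' S v') - M M.adjugate (B' S v') = 0` (`Matrix.mul_adjugate`), so over `K` (`X2_kernel`, rank at most `r`) `S w = 0`, hence over `R`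
(injectivity of `algebraMap R K`). And `ev w = v` as `ev` maps `S v'` to `(S.map ev) *ᵥ v = 0`. -/
theorem X2_cramer (ev : R →ₐ[k] k) (S : Matrix ι ι R) {r : ℕ} (h1 : (S.map (algebraMap R K)).rank ≤ r) (h2 : r ≤ (S.map ev).rank)
    (v : ι → k) (hv : (S.map ev).mulVec v = 0) : ∃ w : ι → R, S.mulVec w = 0 ∧ ∀ i, ev (w i) = v i := by
  obtain ⟨B, A, h⟩ := X2_minor (S.map ev) h2
  have hD := X2b_det ev S B A h
  have hK := X2b_detK K ev S B A h
  obtain ⟨B', hB'⟩ : ∃ B', B' = B.map (algebraMap k R) := ⟨_, rfl⟩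
  obtain ⟨A', hA'⟩ : ∃ A', A' = A.map (algebraMap k R) := ⟨_, rfl⟩
  rw [← hB', ← hA'] at hD hK
  obtain ⟨v', hv'⟩ : ∃ v' : ι → R, v' = fun i => algebraMap k R (v i) := ⟨_, rfl⟩
  have hev : (ev : R →+* k) ∘ v' = v := by
    funext i
    simp [hv']
  obtain ⟨x, hx⟩ : ∃ x, x = (B' * S).mulVec v' := ⟨_, rfl⟩
  have hx0 : (ev : R →+* k) ∘ x = 0 := by
    funext j
    rw [Function.comp_apply, hx, RingHom.map_mulVec, hev, Matrix.map_mul, hB', X2b_map,
      ← Matrix.mulVec_mulVec]
    have h3 : S.map (ev : R →+* k) = S.map ev := rfl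
    rw [h3, hv, Matrix.mulVec_zero]
  refine ⟨(B' * S * A').det • v' - A'.mulVec ((B' * S * A').adjugate.mulVec x), ?_, fun i => ?_⟩
  · have h4 : (B' * S).mulVec ((B' * S * A').det • v' -
        A'.mulVec ((B' * S * A').adjugate.mulVec x)) = 0 := by
      rw [Matrix.mulVec_sub, Matrix.mulVec_smul, Matrix.mulVec_mulVec, Matrix.mulVec_mulVec,
        Matrix.mul_adjugate, ← hx, Matrix.smul_mulVec, Matrix.one_mulVec, sub_self]
    obtain ⟨w, hw⟩ : ∃ w, w = (B' * S * A').det • v' -
        A'.mulVec ((B' * S * A').adjugate.mulVec x) := ⟨_, rfl⟩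
    rw [← hw] at h4 ⊢
    have h5 := (X2_kernel _ _ _ hK).2 h1 ((algebraMap R K) ∘ w) (by
      funext j
      rw [← Matrix.map_mul, ← RingHom.map_mulVec, h4]
      simp)
    funext j
    refine IsFractionRing.injective R K ?_
    rw [RingHom.map_mulVec, h5]
    simp
  · have h6 : (ev : R →+* k) (A'.mulVec ((B' * S * A').adjugate.mulVec x) i) = 0 := by
      rw [RingHom.map_mulVec]
      have h7 : (ev : R →+* k) ∘ ((B' * S * A').adjugate.mulVec x) = 0 := by
        funext j
        rw [Function.comp_apply, RingHom.map_mulVec, hx0, Matrix.mulVec_zero]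
      rw [h7, Matrix.mulVec_zero, Pi.zero_apply]
    have h8 : ev (v' i) = v i := congrFun hev i
    have h9 : ev (A'.mulVec ((B' * S * A').adjugate.mulVec x) i) = 0 := h6
    rw [Pi.sub_apply, Pi.smul_apply, smul_eq_mul, map_sub, map_mul, hD, h8, h9, one_mul, sub_zero]

end Pool.Agent.Lib.H90S
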