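import Mathlib

/-!
H90S, X3: a cocycle with values in the units outside finitely many primes of a factorial ring is cohomologous to a unit.
-/

noncomputable section

namespace Pool.Agent.Lib.H90S

variable {R : Type*} [CommRing R] [IsDomain R] [UniqueFactorizationMonoid R]

/-- Every non-zero `B` is `C ^ n * E` with `E` not divisible by the `n`-th power of a non-unit (`n ≥ 1`). Well-founded induction on `B` for `DvdNotUnit` (`WfDvdMonoid`): if no non-unit `c` has `c ^ n ∣ B` take `C = 1`; otherwise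
`B = c ^ n * B'`, `B'` is a proper divisor, `B' = C' ^ n * E`, `C = c * C'`. -/
theorem X3_power {n : ℕ} (hn : 0 < n) {B : R} (hB : B ≠ 0) : ∃ C E : R, B = C ^ n * E ∧ ∀ c : R, c ^ n ∣ E → IsUnit c := by
  have key : ∀ B : R, B ≠ 0 → ∃ C E : R, B = C ^ n * E ∧ ∀ c : R, c ^ n ∣ E → IsUnit c := by
    intro B
    refine (wellFounded_dvdNotUnit (α := R)).induction (C := fun B => B ≠ 0 → ∃ C E : R, B = C ^ n * E ∧ ∀ c : R, c ^ n ∣ E → IsUnit c) B ?_
    intro B ih hB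
    by_cases h : ∀ c : R, c ^ n ∣ B → IsUnit c
    · exact ⟨1, B, by rw [one_pow, one_mul], h⟩
    · push Not at h
      obtain ⟨c, ⟨B', hc⟩, hcu⟩ := h
      have hB' : B' ≠ 0 := by
        rintro rfl
        exact hB (by rw [hc, mul_zero])
      obtain ⟨C', E, h1, h2⟩ := ih B' ⟨hB', c ^ n, fun hu => hcu ((isUnit_pow_iff hn.ne').1 hu), by rw [hc, mul_comm]⟩ hB'
      exact ⟨c * C', E, by rw [hc, h1, mul_pow, mul_assoc], h2⟩
  exact key B hB

/-- Uniqueness: `X ^ n * E = Y ^ n * E'` with `E`, `E'` not divisible by `n`-th powers of non-units. Write `X = d * X'`, `Y = d * Y'` with `X'`, `Y'` relatively prime (`exists_gcd...`, `IsRelPrime`; UFD: `UniqueFactorizationMonoid.exists_reduced_factors`); then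
`X' ^ n ∣ E'` and `Y' ^ n ∣ E`, so `X'`, `Y'` are units. -/
theorem X3_unique {n : ℕ} (hn : 0 < n) {X Y E E' : R} (hX : X ≠ 0) (hY : Y ≠ 0) (hE : ∀ c : R, c ^ n ∣ E → IsUnit c) (hE' : ∀ c : R, c ^ n ∣ E' → IsUnit c)
    (h : X ^ n * E = Y ^ n * E') : Associated X Y := by
  obtain ⟨X', Y', d, hrel, hX', hY'⟩ := UniqueFactorizationMonoid.exists_reduced_factors X hX Y
  have hd : d ≠ 0 := by
    rintro rfl
    exact hX (by rw [← hX', zero_mul])
  have h1 : X' ^ n * E = Y' ^ n * E' := by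
    apply mul_left_cancel₀ (pow_ne_zero n hd)
    rw [← mul_assoc, ← mul_assoc, ← mul_pow, ← mul_pow, hX', hY', h]
  have hp : IsRelPrime (X' ^ n) (Y' ^ n) := hrel.pow
  have h2 : X' ^ n ∣ E' := hp.dvd_of_dvd_mul_left ⟨E, h1.symm⟩
  have h3 : Y' ^ n ∣ E := hp.symm.dvd_of_dvd_mul_left ⟨E', h1⟩
  obtain ⟨u, hu⟩ := hE' X' h2
  obtain ⟨v, hv⟩ := hE Y' h3
  refine ⟨u⁻¹ * v, ?_⟩
  rw [← hX', ← hY', ← hu, ← hv, Units.val_mul, mul_assoc, ← mul_assoc (u : R), Units.mul_inv, one_mul]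

/-- `n = card Γ`, `B = ∏ h, N h`. `τ g B * N g ^ n = ∏ h, (τ g (N h) * N g) = ∏ h, (N (g * h) * τ g (N 1)) = B * (τ g (N 1)) ^ n` (reindex by `h ↦ g * h`, `Equiv.mulLeft`). `X3_power`: `B = C ^ n * E`. So
`(τ g C * N g) ^ n * τ g E = (C * τ g (N 1)) ^ n * E`; `τ g E` has the same property as `E` (`τ g` is a ring automorphism); `X3_unique`. -/
theorem X3_main {Γ : Type*} [Group Γ] [Fintype Γ] (τ : Γ → R ≃+* R) {N : Γ → R} (hN0 : ∀ g, N g ≠ 0)
    (hN : ∀ g h, N (g * h) * τ g (N 1) = N g * τ g (N h)) :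
    ∃ C : R, C ≠ 0 ∧ C ∣ ∏ h, N h ∧ ∀ g, Associated (N g * τ g C) (C * τ g (N 1)) := by
  have hn : 0 < Fintype.card Γ := Fintype.card_pos_iff.2 ⟨1⟩
  have hB : (∏ h, N h) ≠ 0 := Finset.prod_ne_zero_iff.2 fun h _ => hN0 h
  obtain ⟨C, E, hCE, hE⟩ := X3_power hn hB
  have hC : C ≠ 0 := by
    rintro rfl
    exact hB (by rw [hCE, zero_pow hn.ne', zero_mul])
  refine ⟨C, hC, ?_, fun g => ?_⟩
  · rw [hCE]
    exact dvd_mul_of_dvd_left (dvd_pow_self C hn.ne') E
  · have hτ0 : ∀ x : R, x ≠ 0 → τ g x ≠ 0 := fun x hx h0 => hx ((map_eq_zero_iff (τ g) (τ g).injective).1 h0)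
    have h1 : τ g (∏ h, N h) * N g ^ Fintype.card Γ = (∏ h, N h) * τ g (N 1) ^ Fintype.card Γ := by
      have e1 : N g ^ Fintype.card Γ = ∏ _h : Γ, N g := by rw [Finset.prod_const, Finset.card_univ]
      have e2 : τ g (N 1) ^ Fintype.card Γ = ∏ _h : Γ, τ g (N 1) := by rw [Finset.prod_const, Finset.card_univ]
      have e3 : (∏ h, N h) = ∏ h, N (g * h) := (Equiv.prod_comp (Equiv.mulLeft g) N).symm
      rw [e1, e2, map_prod, ← Finset.prod_mul_distrib]
      conv_rhs => rw [e3]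
      rw [← Finset.prod_mul_distrib]
      exact Finset.prod_congr rfl fun h _ => by rw [hN g h, mul_comm]
    refine X3_unique hn (E := τ g E) (E' := E) (mul_ne_zero (hN0 g) (hτ0 C hC)) (mul_ne_zero hC (hτ0 _ (hN0 1))) ?_ hE ?_
    · intro c hc
      have h2 : ((τ g).symm c) ^ Fintype.card Γ ∣ E := by
        obtain ⟨b, hb⟩ := hc
        refine ⟨(τ g).symm b, ?_⟩
        rw [← map_pow, ← map_mul, ← hb, RingEquiv.symm_apply_apply]
      have h3 := (hE _ h2).map (τ g)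
      rwa [RingEquiv.apply_symm_apply] at h3
    · rw [hCE, map_mul, map_pow] at h1
      rw [mul_pow, mul_pow]
      linear_combination h1

end Pool.Agent.Lib.H90S
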