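import Mathlib

/-!
H90S, X4: the generic operator `T = ∑ t_u (ρ u - 1)`.
-/

noncomputable section

namespace Pool.Agent.Lib.H90S

variable {k P ι : Type*} [Field k] [CommGroup P] [Fintype P] [DecidableEq P] [Fintype ι] [DecidableEq ι]

/-- The generic operator. -/
def genT (ρ : P →* Matrix ι ι k) : Matrix ι ι (MvPolynomial P k) :=
  ∑ u : P, (MvPolynomial.X u : MvPolynomial P k) • ((ρ u - 1).map (MvPolynomial.C (σ := P)))

/-- Evaluation at the point with coordinate `1` at `z` and `0` elsewhere. -/
def evz (k : Type*) [Field k] {P : Type*} [DecidableEq P] (z : P) : MvPolynomial P k →ₐ[k] k :=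
  MvPolynomial.aeval (fun u => if u = z then (1 : k) else 0)

/-- `(genT ρ).map (evz k z) = ρ z - 1`. Entrywise: `evz` of `∑ u, X u * C ((ρ u - 1) i j)` is `∑ u, (if u = z then 1 else 0) * (ρ u - 1) i j`. -/
theorem X4_spec (ρ : P →* Matrix ι ι k) (z : P) : (genT ρ).map (evz k z) = ρ z - 1 := by
  ext i j
  rw [Matrix.map_apply, genT, Matrix.sum_apply, map_sum]
  have h : ∀ u : P, evz k z (((MvPolynomial.X u : MvPolynomial P k) •
      ((ρ u - 1).map (MvPolynomial.C (σ := P)))) i j) =
      (if u = z then (1 : k) else 0) * (ρ u - 1) i j := by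
    intro u
    rw [Matrix.smul_apply, Matrix.map_apply, smul_eq_mul, map_mul, evz, MvPolynomial.aeval_X]
    congr 1
    exact MvPolynomial.algHom_C _ _
  rw [Finset.sum_congr rfl (fun u _ => h u)]
  rw [Finset.sum_eq_single z]
  · rw [if_pos rfl, one_mul]
  · intro b _ hb
    rw [if_neg hb, zero_mul]
  · intro hz
    exact absurd (Finset.mem_univ z) hz

/-- Entrywise ring homomorphisms commute with powers of matrices (`Matrix.map_pow`, `RingHom.mapMatrix`). -/
theorem X4_spec_pow (ρ : P →* Matrix ι ι k) (z : P) (m : ℕ) : ((genT ρ) ^ m).map (evz k z) = (ρ z - 1) ^ m := by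
  have h : ((evz k z : MvPolynomial P k →+* k).mapMatrix ((genT ρ) ^ m)) =
      ((evz k z : MvPolynomial P k →+* k).mapMatrix (genT ρ)) ^ m := map_pow _ _ _
  have h2 : ((evz k z : MvPolynomial P k →+* k).mapMatrix (genT ρ)) = ρ z - 1 := X4_spec ρ z
  rw [h2] at h
  exact h

/-- In a ring of characteristic `p` the `p`-th power of a finite sum of pairwise commuting elements is the sum of the `p`-th powers (`add_pow_char_of_commute`, induction on the finset). -/
theorem X4_sum_pow {A β : Type*} [Ring A] {p : ℕ} [Fact p.Prime] [CharP A p] (s : Finset β) (f : β → A) (hf : ∀ i ∈ s, ∀ j ∈ s, Commute (f i) (f j)) :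
    (∑ i ∈ s, f i) ^ p = ∑ i ∈ s, f i ^ p := by
  classical
  induction s using Finset.induction_on with
  | empty =>
    rw [Finset.sum_empty, Finset.sum_empty, zero_pow (Fact.out : p.Prime).ne_zero]
  | insert a s ha ih =>
    rw [Finset.sum_insert ha, Finset.sum_insert ha]
    have hc : Commute (f a) (∑ i ∈ s, f i) :=
      Commute.sum_right _ _ _ (fun i hi =>
        hf a (Finset.mem_insert_self a s) i (Finset.mem_insert_of_mem hi))
    rw [add_pow_char_of_commute p hc, ih (fun i hi j hj =>
      hf i (Finset.mem_insert_of_mem hi) j (Finset.mem_insert_of_mem hj))]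

/-- `T ^ p = 0`: `X4_sum_pow` in the matrix ring over `MvPolynomial P k` (characteristic `p`: `Matrix.charP`, needs `Nonempty ι`; if `ι` is empty the matrix ring is trivial), `(X u • A) ^ p = X u ^ p • A ^ p`, and
`A ^ p = ((ρ u - 1) ^ p).map C = (ρ u ^ p - 1).map C = 0` (`sub_pow_char_of_commute`, `ρ u ^ p = 1`). -/
theorem X4_nilp {p : ℕ} [Fact p.Prime] [CharP k p] (ρ : P →* Matrix ι ι k) (hP : ∀ u : P, ρ u ^ p = 1) : (genT ρ) ^ p = 0 := by
  rcases isEmpty_or_nonempty ι with hι | hι
  · ext i
    exact hι.elim i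
  · have hchk : CharP (Matrix ι ι k) p := inferInstance
    have hchP : CharP (MvPolynomial P k) p := inferInstance
    have hch : CharP (Matrix ι ι (MvPolynomial P k)) p := inferInstance
    have hC : ∀ A : Matrix ι ι k, A.map (MvPolynomial.C (σ := P)) =
        (MvPolynomial.C (σ := P) (R := k)).mapMatrix A := fun A => rfl
    have hcomm : ∀ u v : P, Commute (ρ u - 1) (ρ v - 1) := by
      intro u v
      have h1 : Commute (ρ u) (ρ v) := by
        show ρ u * ρ v = ρ v * ρ u
        rw [← map_mul, ← map_mul, mul_comm]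
      exact (h1.sub_left (Commute.one_left _)).sub_right
        ((Commute.one_right _))
    rw [genT, X4_sum_pow]
    · refine Finset.sum_eq_zero (fun u _ => ?_)
      rw [smul_pow, hC, ← map_pow, sub_pow_char_of_commute p (Commute.one_right _), hP u, one_pow,
        sub_self, map_zero, smul_zero]
    · intro u _ v _
      refine Commute.smul_left (Commute.smul_right ?_ _) _
      rw [hC, hC]
      exact (hcomm u v).map _

/-- `(ρ z - 1) ^ p = 0`. -/
theorem X4_nilp_z {p : ℕ} [Fact p.Prime] [CharP k p] (ρ : P →* Matrix ι ι k) (hP : ∀ u : P, ρ u ^ p = 1) (z : P) : (ρ z - 1) ^ p = 0 := by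
  rcases isEmpty_or_nonempty ι with hι | hι
  · ext i
    exact hι.elim i
  · have hchk : CharP (Matrix ι ι k) p := inferInstance
    rw [sub_pow_char_of_commute p (Commute.one_right _), hP z, one_pow, sub_self]

end Pool.Agent.Lib.H90S
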