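import Pool.Agent.Lib.H90S.X1
import Pool.Agent.Lib.H90S.X2
import Pool.Agent.Lib.H90S.X4

/-!
H90S, X5: generic ranks.
-/

noncomputable section

namespace Pool.Agent.Lib.H90S

/-- Arithmetic. `n = card ι`, `r1, r2` the ranks at a point, `R1, R2` the generic ranks. Since `r1 + r2 + 1 = n`, `r1 ≤ R1`, `r2 ≤ R2`, `R1 + R2 ≤ n`, either equality holds or `R1 + R2 = n`; in that case `h3`, `h4` give `p * R2 = n`, while `h1`, `h2` give `p * r2 < n < p * (r2 + 1)`. -/
theorem X5_arith {p n r1 r2 R1 R2 : ℕ} (hp : 2 ≤ p) (h : r1 + r2 + 1 = n) (h1 : (p - 1) * r2 ≤ r1) (h2 : n ≤ (p - 1) * (n - r1) + r2)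
    (h3 : (p - 1) * R2 ≤ R1) (h4 : n ≤ (p - 1) * (n - R1) + R2) (h5 : R1 + R2 ≤ n) (h6 : r1 ≤ R1) (h7 : r2 ≤ R2) : R1 = r1 ∧ R2 = r2 := by
  obtain ⟨q, rfl⟩ : ∃ q, p = q + 1 := ⟨p - 1, by omega⟩
  simp only [Nat.add_sub_cancel] at h1 h2 h3 h4
  by_cases hc : R1 + R2 + 1 = n
  · omega
  · exfalso
    have e1 : n - R1 = R2 := by omega
    have e2 : n - r1 = r2 + 1 := by omega
    rw [e1] at h4
    rw [e2, Nat.mul_add, Nat.mul_one] at h2
    have hlt : r2 + 1 ≤ R2 := by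
      by_contra hcon
      have e3 : R2 = r2 := by omega
      rw [e3] at h4
      omega
    have hm := Nat.mul_le_mul_left q hlt
    rw [Nat.mul_add, Nat.mul_one] at hm
    omega

variable {k P ι : Type*} [Field k] [CommGroup P] [Fintype P] [DecidableEq P] [Fintype ι] [DecidableEq ι]

/-- The generic ranks are the ranks at `z`. `X2_rank` for `genT ρ` and `(genT ρ) ^ (p - 1)` with `ev = evz k z` (`X4_spec`, `X4_spec_pow`), `X1_matrix` for `ρ z - 1` (`X4_nilp_z`) and for the generic matrix over `K` (`X4_nilp`; powers commute with `Matrix.map`),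
`X5_arith`. -/
theorem X5_ranks {p : ℕ} [Fact p.Prime] [CharP k p] (ρ : P →* Matrix ι ι k) (hP : ∀ u : P, ρ u ^ p = 1) {z : P}
    (hz : (ρ z - 1).rank + ((ρ z - 1) ^ (p - 1)).rank + 1 = Fintype.card ι)
    (K : Type*) [Field K] [Algebra (MvPolynomial P k) K] [IsFractionRing (MvPolynomial P k) K] :
    ((genT ρ).map (algebraMap (MvPolynomial P k) K)).rank = (ρ z - 1).rank ∧
      (((genT ρ) ^ (p - 1)).map (algebraMap (MvPolynomial P k) K)).rank = ((ρ z - 1) ^ (p - 1)).rank := by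
  have hp : p.Prime := Fact.out
  have hp1 : 1 ≤ p := hp.one_lt.le
  have a1 := X2_rank (K := K) (evz k z) (genT ρ)
  rw [X4_spec] at a1
  have a2 := X2_rank (K := K) (evz k z) ((genT ρ) ^ (p - 1))
  rw [X4_spec_pow] at a2
  obtain ⟨b1, b2, b3⟩ := X1_matrix (ρ z - 1) hp1 (X4_nilp_z ρ hP z)
  have hpow : ∀ m : ℕ, ((genT ρ) ^ m).map (algebraMap (MvPolynomial P k) K) =
      ((genT ρ).map (algebraMap (MvPolynomial P k) K)) ^ m := fun m => by
    have := map_pow ((algebraMap (MvPolynomial P k) K).mapMatrix (m := ι)) (genT ρ) m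
    simpa only [RingHom.mapMatrix_apply] using this
  have hG : ((genT ρ).map (algebraMap (MvPolynomial P k) K)) ^ p = 0 := by
    rw [← hpow, X4_nilp ρ hP]
    ext i j
    simp
  obtain ⟨c1, c2, c3⟩ := X1_matrix ((genT ρ).map (algebraMap (MvPolynomial P k) K)) hp1 hG
  rw [← hpow] at c1 c2 c3
  exact X5_arith hp.two_le hz b1 b2 c1 c2 c3 a1 a2

/-- The two-by-two identity over a field. `ker N` contains `range (N ^ (p - 1))` (as `N ^ p = 0`) and the dimensions differ by one, so there is a non-trivial relation `c1 • w1 + c2 • w2 = N ^ (p - 1) *ᵥ y`; `ξ1`, `ξ2` vanish on it, so the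
determinant `(ξ1 ⬝ᵥ w1) * (ξ2 ⬝ᵥ w2) - (ξ1 ⬝ᵥ w2) * (ξ2 ⬝ᵥ w1)` is zero. (`p ≥ 1`) -/
theorem X5_minor {F : Type*} [Field F] (N : Matrix ι ι F) {p : ℕ} (hp : 1 ≤ p) (hN : N ^ p = 0) (hr : N.rank + (N ^ (p - 1)).rank + 1 = Fintype.card ι)
    {w1 w2 x1 x2 : ι → F} (h1 : N.mulVec w1 = 0) (h2 : N.mulVec w2 = 0) (h3 : Matrix.vecMul x1 (N ^ (p - 1)) = 0) (h4 : Matrix.vecMul x2 (N ^ (p - 1)) = 0) :
    (x1 ⬝ᵥ w1) * (x2 ⬝ᵥ w2) = (x1 ⬝ᵥ w2) * (x2 ⬝ᵥ w1) := by
  set M : Matrix ι ι F := N ^ (p - 1) with hM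
  have hNM : N * M = 0 := by
    rw [hM, ← pow_succ', Nat.sub_add_cancel hp, hN]
  have hx : ∀ x : ι → F, Matrix.vecMul x M = 0 → ∀ y : ι → F, x ⬝ᵥ M.mulVec y = 0 := by
    intro x hx y
    rw [Matrix.dotProduct_mulVec, hx, zero_dotProduct]
  have hker : Module.finrank F (LinearMap.ker N.mulVecLin) = M.rank + 1 := by
    have h0 := LinearMap.finrank_range_add_finrank_ker N.mulVecLin
    rw [Module.finrank_fintype_fun_eq_card] at h0
    have h0' : N.rank + Module.finrank F (LinearMap.ker N.mulVecLin) = Fintype.card ι := h0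
    omega
  have hle : LinearMap.range M.mulVecLin ≤ LinearMap.ker N.mulVecLin := by
    rintro _ ⟨y, rfl⟩
    rw [LinearMap.mem_ker, Matrix.mulVecLin_apply, Matrix.mulVecLin_apply, Matrix.mulVec_mulVec, hNM, Matrix.zero_mulVec]
  by_cases hw : w1 ∈ LinearMap.range M.mulVecLin
  · obtain ⟨y, hy⟩ := hw
    rw [Matrix.mulVecLin_apply] at hy
    rw [← hy, hx x1 h3, hx x2 h4]
    ring
  · have hlt : LinearMap.range M.mulVecLin < LinearMap.range M.mulVecLin ⊔ Submodule.span F {w1} := by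
      refine lt_of_le_of_ne le_sup_left fun h => hw ?_
      rw [h]
      exact Submodule.mem_sup_right (Submodule.mem_span_singleton_self w1)
    have hfin := Submodule.finrank_lt_finrank_of_lt hlt
    have hle2 : LinearMap.range M.mulVecLin ⊔ Submodule.span F {w1} ≤ LinearMap.ker N.mulVecLin := by
      refine sup_le hle ?_
      rw [Submodule.span_singleton_le_iff_mem, LinearMap.mem_ker, Matrix.mulVecLin_apply]
      exact h1
    have hrk : M.rank = Module.finrank F (LinearMap.range M.mulVecLin) := rfl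
    have heq := Submodule.eq_of_le_of_finrank_le hle2 (by omega)
    have hw2 : w2 ∈ LinearMap.range M.mulVecLin ⊔ Submodule.span F {w1} := by
      rw [heq, LinearMap.mem_ker, Matrix.mulVecLin_apply]
      exact h2
    obtain ⟨a, ⟨y, rfl⟩, b, hb, hab⟩ := Submodule.mem_sup.mp hw2
    obtain ⟨c, rfl⟩ := Submodule.mem_span_singleton.mp hb
    rw [Matrix.mulVecLin_apply] at hab
    rw [← hab, dotProduct_add, dotProduct_add, hx x1 h3, hx x2 h4, dotProduct_smul, dotProduct_smul, smul_eq_mul, smul_eq_mul]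
    ring

/-- The same over `MvPolynomial P k` for the generic operator: apply `X5_minor` over `K = FractionRing (MvPolynomial P k)` with the ranks from `X5_ranks`, injectivity of `algebraMap`. -/
theorem X5_generic {p : ℕ} [Fact p.Prime] [CharP k p] (ρ : P →* Matrix ι ι k) (hP : ∀ u : P, ρ u ^ p = 1) {z : P}
    (hz : (ρ z - 1).rank + ((ρ z - 1) ^ (p - 1)).rank + 1 = Fintype.card ι) {w1 w2 x1 x2 : ι → MvPolynomial P k}
    (h1 : (genT ρ).mulVec w1 = 0) (h2 : (genT ρ).mulVec w2 = 0) (h3 : Matrix.vecMul x1 ((genT ρ) ^ (p - 1)) = 0) (h4 : Matrix.vecMul x2 ((genT ρ) ^ (p - 1)) = 0) :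
    (x1 ⬝ᵥ w1) * (x2 ⬝ᵥ w2) = (x1 ⬝ᵥ w2) * (x2 ⬝ᵥ w1) := by
  have hp : p.Prime := Fact.out
  have hp1 : 1 ≤ p := hp.one_lt.le
  let K := FractionRing (MvPolynomial P k)
  let f : MvPolynomial P k →+* K := algebraMap (MvPolynomial P k) K
  have hf : Function.Injective f := IsFractionRing.injective (MvPolynomial P k) K
  obtain ⟨g1, g2⟩ := X5_ranks ρ hP hz K
  have hpow : ∀ m : ℕ, ((genT ρ) ^ m).map f = ((genT ρ).map f) ^ m := fun m => by
    have := map_pow (f.mapMatrix (m := ι)) (genT ρ) m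
    simpa only [RingHom.mapMatrix_apply] using this
  have hG : ((genT ρ).map f) ^ p = 0 := by
    rw [← hpow, X4_nilp ρ hP]
    ext i j
    simp
  have hmv : ∀ w : ι → MvPolynomial P k, (genT ρ).mulVec w = 0 → ((genT ρ).map f).mulVec (f ∘ w) = 0 := by
    intro w hw
    funext i
    rw [← RingHom.map_mulVec, hw]
    simp
  have hvm : ∀ x : ι → MvPolynomial P k, Matrix.vecMul x ((genT ρ) ^ (p - 1)) = 0 →
      Matrix.vecMul (f ∘ x) (((genT ρ).map f) ^ (p - 1)) = 0 := by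
    intro x hx
    funext i
    rw [← hpow, ← RingHom.map_vecMul, hx]
    simp
  have key := X5_minor ((genT ρ).map f) hp1 hG (by rw [← hpow]; rw [g1, g2]; exact hz)
    (hmv w1 h1) (hmv w2 h2) (hvm x1 h3) (hvm x2 h4)
  rw [← RingHom.map_dotProduct, ← RingHom.map_dotProduct, ← RingHom.map_dotProduct, ← RingHom.map_dotProduct,
    ← map_mul, ← map_mul] at key
  exact hf key

end Pool.Agent.Lib.H90S
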