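import Pool.Agent.Lib.H90S.X5

/-!
H90S, X6: polynomial kernel vector and covector that are good at all points `z ∈ Z`.
-/

noncomputable section

namespace Pool.Agent.Lib.H90S

/-- The range of `N ^ (p - 1)` lies in the kernel of `N`. -/
private lemma X6_le {F ι : Type*} [Field F] [Fintype ι] [DecidableEq ι] (N : Matrix ι ι F) {p : ℕ} (hp : 1 ≤ p) (hN : N ^ p = 0) :
    LinearMap.range (N ^ (p - 1)).mulVecLin ≤ LinearMap.ker N.mulVecLin := by
  have hNM : N * N ^ (p - 1) = 0 := by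
    rw [← pow_succ', Nat.sub_add_cancel hp, hN]
  rintro _ ⟨y, rfl⟩
  rw [LinearMap.mem_ker, Matrix.mulVecLin_apply, Matrix.mulVecLin_apply, Matrix.mulVec_mulVec, hNM, Matrix.zero_mulVec]

/-- The dimension of the kernel. -/
private lemma X6_ker {F ι : Type*} [Field F] [Fintype ι] [DecidableEq ι] (N : Matrix ι ι F) {p : ℕ}
    (hr : N.rank + (N ^ (p - 1)).rank + 1 = Fintype.card ι) :
    Module.finrank F (LinearMap.ker N.mulVecLin) = Module.finrank F (LinearMap.range (N ^ (p - 1)).mulVecLin) + 1 := by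
  have h0 := LinearMap.finrank_range_add_finrank_ker N.mulVecLin
  rw [Module.finrank_fintype_fun_eq_card] at h0
  have h0' : N.rank + Module.finrank F (LinearMap.ker N.mulVecLin) = Fintype.card ι := h0
  have h1 : (N ^ (p - 1)).rank = Module.finrank F (LinearMap.range (N ^ (p - 1)).mulVecLin) := rfl
  omega

/-- If `rank N + rank (N ^ (p - 1)) + 1 = card ι`, `N ^ p = 0`: there are `v ∈ ker N` and `x` vanishing on the range of `N ^ (p - 1)` with `x ⬝ᵥ v ≠ 0`. Proof: `dim ker N = dim range (N ^ (p - 1)) + 1`, so some `v ∈ ker N` is not in the range; a linear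
functional vanishing on the range with value `1` at `v` (`Submodule.exists_le_ker_of_notMem`/`Submodule.exists_dual_map_eq_bot...`) is `x ⬝ᵥ ·`. -/
theorem X6_point {F ι : Type*} [Field F] [Fintype ι] [DecidableEq ι] (N : Matrix ι ι F) {p : ℕ} (hp : 1 ≤ p) (hN : N ^ p = 0)
    (hr : N.rank + (N ^ (p - 1)).rank + 1 = Fintype.card ι) :
    ∃ v x : ι → F, N.mulVec v = 0 ∧ Matrix.vecMul x (N ^ (p - 1)) = 0 ∧ x ⬝ᵥ v ≠ 0 := by
  have hle := X6_le N hp hN
  have hker := X6_ker N hr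
  have hex : ∃ v ∈ LinearMap.ker N.mulVecLin, v ∉ LinearMap.range (N ^ (p - 1)).mulVecLin := by
    by_contra hcon
    push Not at hcon
    have h1 : LinearMap.ker N.mulVecLin ≤ LinearMap.range (N ^ (p - 1)).mulVecLin := hcon
    have h2 := Submodule.finrank_mono h1
    omega
  obtain ⟨v, hv, hvn⟩ := hex
  obtain ⟨f, hf, hfr⟩ := Submodule.exists_le_ker_of_notMem hvn
  rw [LinearMap.mem_ker, Matrix.mulVecLin_apply] at hv
  have hfx : ∀ y : ι → F, f y = (fun i => f (Pi.single i 1)) ⬝ᵥ y := by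
    intro y
    have h1 : y = ∑ i, y i • (Pi.single i (1 : F) : ι → F) := by
      funext j
      simp [Finset.sum_apply, Pi.single_apply]
    have h2 : f y = f (∑ i, y i • (Pi.single i (1 : F) : ι → F)) := by rw [← h1]
    rw [h2, map_sum, dotProduct]
    refine Finset.sum_congr rfl fun i _ => ?_
    rw [map_smul, smul_eq_mul, mul_comm]
  refine ⟨v, fun i => f (Pi.single i 1), hv, ?_, ?_⟩
  · funext j
    have h3 : f ((N ^ (p - 1)).mulVec (Pi.single j 1)) = 0 := by
      have h4 := hfr ⟨Pi.single j 1, rfl⟩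
      rwa [LinearMap.mem_ker, Matrix.mulVecLin_apply] at h4
    rw [hfx, Matrix.dotProduct_mulVec] at h3
    rw [dotProduct_single_one] at h3
    exact h3
  · rw [← hfx]
    exact hf

/-- In the situation of `X6_point` the kernel of `N` is `F v + range (N ^ (p - 1))`: a vector `u ∈ ker N` with `x ⬝ᵥ u = 0` is in the range of `N ^ (p - 1)`. Proof: the range has codimension one in `ker N`, it is contained in
`ker N ⊓ ker x`, which is not the whole of `ker N`. -/
theorem X6_range {F ι : Type*} [Field F] [Fintype ι] [DecidableEq ι] (N : Matrix ι ι F) {p : ℕ} (hp : 1 ≤ p) (hN : N ^ p = 0)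
    (hr : N.rank + (N ^ (p - 1)).rank + 1 = Fintype.card ι) {v x : ι → F} (hv : N.mulVec v = 0) (hx : Matrix.vecMul x (N ^ (p - 1)) = 0) (hxv : x ⬝ᵥ v ≠ 0)
    {u : ι → F} (hu : N.mulVec u = 0) (hxu : x ⬝ᵥ u = 0) : ∃ y : ι → F, u = (N ^ (p - 1)).mulVec y := by
  have hle := X6_le N hp hN
  have hker := X6_ker N hr
  have hx0 : ∀ y : ι → F, x ⬝ᵥ (N ^ (p - 1)).mulVec y = 0 := by
    intro y
    rw [Matrix.dotProduct_mulVec, hx, zero_dotProduct]
  have hvn : v ∉ LinearMap.range (N ^ (p - 1)).mulVecLin := by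
    rintro ⟨y, hy⟩
    rw [Matrix.mulVecLin_apply] at hy
    apply hxv
    rw [← hy, hx0]
  have hlt : LinearMap.range (N ^ (p - 1)).mulVecLin < LinearMap.range (N ^ (p - 1)).mulVecLin ⊔ Submodule.span F {v} := by
    refine lt_of_le_of_ne le_sup_left fun h => hvn ?_
    rw [h]
    exact Submodule.mem_sup_right (Submodule.mem_span_singleton_self v)
  have hfin := Submodule.finrank_lt_finrank_of_lt hlt
  have hle2 : LinearMap.range (N ^ (p - 1)).mulVecLin ⊔ Submodule.span F {v} ≤ LinearMap.ker N.mulVecLin := by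
    refine sup_le hle ?_
    rw [Submodule.span_singleton_le_iff_mem, LinearMap.mem_ker, Matrix.mulVecLin_apply]
    exact hv
  have heq := Submodule.eq_of_le_of_finrank_le hle2 (by omega)
  have hu2 : u ∈ LinearMap.range (N ^ (p - 1)).mulVecLin ⊔ Submodule.span F {v} := by
    rw [heq, LinearMap.mem_ker, Matrix.mulVecLin_apply]
    exact hu
  obtain ⟨a, ⟨y, rfl⟩, b, hb, hab⟩ := Submodule.mem_sup.mp hu2
  obtain ⟨c, rfl⟩ := Submodule.mem_span_singleton.mp hb
  rw [Matrix.mulVecLin_apply] at hab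
  rw [← hab, dotProduct_add, hx0, zero_add, dotProduct_smul, smul_eq_mul, mul_eq_zero] at hxu
  rcases hxu with hc | hc
  · refine ⟨y, ?_⟩
    rw [← hab, hc, zero_smul, add_zero]
  · exact absurd hc hxv

variable {k P ι : Type*} [Field k] [CommGroup P] [Fintype P] [DecidableEq P] [Fintype ι] [DecidableEq ι]

/-- Values of `evz` at the variables. -/
private lemma X6_evz (z u : P) : evz k z (MvPolynomial.X u) = if u = z then (1 : k) else 0 := by
  rw [evz, MvPolynomial.aeval_X]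

/-- Local solution at one point. -/
private lemma X6_local {p : ℕ} [Fact p.Prime] [CharP k p] (ρ : P →* Matrix ι ι k) (hP : ∀ u : P, ρ u ^ p = 1) (z : P)
    (hz : (ρ z - 1).rank + ((ρ z - 1) ^ (p - 1)).rank + 1 = Fintype.card ι) :
    ∃ w x : ι → MvPolynomial P k, (genT ρ).mulVec w = 0 ∧ Matrix.vecMul x ((genT ρ) ^ (p - 1)) = 0 ∧ evz k z (x ⬝ᵥ w) ≠ 0 := by
  have hp : p.Prime := Fact.out
  have hp1 : 1 ≤ p := hp.one_lt.le
  obtain ⟨v, x, hv, hx, hxv⟩ := X6_point (ρ z - 1) hp1 (X4_nilp_z ρ hP z) hz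
  let K := FractionRing (MvPolynomial P k)
  obtain ⟨g1, g2⟩ := X5_ranks ρ hP hz K
  obtain ⟨w, hw, hwv⟩ := X2_cramer (K := K) (evz k z) (genT ρ) (r := (ρ z - 1).rank) (le_of_eq g1) (by rw [X4_spec]) v (by rw [X4_spec]; exact hv)
  have hT : (((genT ρ) ^ (p - 1)).transpose).map (evz k z) = ((ρ z - 1) ^ (p - 1)).transpose := by
    rw [Matrix.transpose_map, X4_spec_pow]
  obtain ⟨y, hy, hyx⟩ := X2_cramer (K := K) (evz k z) (((genT ρ) ^ (p - 1)).transpose) (r := ((ρ z - 1) ^ (p - 1)).rank)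
    (by rw [Matrix.transpose_map, Matrix.rank_transpose]; exact le_of_eq g2)
    (by rw [hT, Matrix.rank_transpose]) x (by rw [hT, Matrix.mulVec_transpose]; exact hx)
  rw [Matrix.mulVec_transpose] at hy
  refine ⟨w, y, hw, hy, ?_⟩
  have h1 : evz k z (y ⬝ᵥ w) = x ⬝ᵥ v := by
    rw [dotProduct, map_sum, dotProduct]
    refine Finset.sum_congr rfl fun i _ => ?_
    rw [map_mul, hwv, hyx]
  rw [h1]
  exact hxv

/-- For every `z ∈ Z`: `X6_point` for `ρ z - 1` gives `v`, `x`; `X2_cramer` for `genT ρ` and `evz k z` gives `w^(z)` with value `v`; `X2_cramer` for the transpose of `(genT ρ) ^ (p - 1)` gives `ξ^(z)` with value `x` (`Matrix.mulVec_transpose`, `Matrix.rank_transpose`,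
`Matrix.transpose_map`); the ranks are those of `X5_ranks`. Take `w = ∑ z ∈ Z, X z • w^(z)`, `ξ = ∑ z ∈ Z, X z • ξ^(z)`: at the point of `z` only the term of `z` survives (`evz k z (X z') = if z' = z then 1 else 0`). -/
theorem X6_global {p : ℕ} [Fact p.Prime] [CharP k p] (ρ : P →* Matrix ι ι k) (hP : ∀ u : P, ρ u ^ p = 1) (Z : Finset P)
    (hz : ∀ z ∈ Z, (ρ z - 1).rank + ((ρ z - 1) ^ (p - 1)).rank + 1 = Fintype.card ι) :
    ∃ w x : ι → MvPolynomial P k, (genT ρ).mulVec w = 0 ∧ Matrix.vecMul x ((genT ρ) ^ (p - 1)) = 0 ∧ ∀ z ∈ Z, evz k z (x ⬝ᵥ w) ≠ 0 := by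
  have hex : ∀ z : P, ∃ w x : ι → MvPolynomial P k, z ∈ Z → ((genT ρ).mulVec w = 0 ∧ Matrix.vecMul x ((genT ρ) ^ (p - 1)) = 0 ∧ evz k z (x ⬝ᵥ w) ≠ 0) := by
    intro z
    by_cases h : z ∈ Z
    · obtain ⟨w, x, h1⟩ := X6_local ρ hP z (hz z h)
      exact ⟨w, x, fun _ => h1⟩
    · exact ⟨0, 0, fun h' => absurd h' h⟩
  choose w x hwx using hex
  refine ⟨∑ z ∈ Z, (MvPolynomial.X z : MvPolynomial P k) • w z, ∑ z ∈ Z, (MvPolynomial.X z : MvPolynomial P k) • x z, ?_, ?_, ?_⟩
  · rw [Matrix.mulVec_sum]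
    refine Finset.sum_eq_zero fun z hzZ => ?_
    rw [Matrix.mulVec_smul, (hwx z hzZ).1, smul_zero]
  · rw [Matrix.sum_vecMul]
    refine Finset.sum_eq_zero fun z hzZ => ?_
    rw [Matrix.smul_vecMul, (hwx z hzZ).2.1, smul_zero]
  · intro z hzZ
    have hsum : ∀ f : P → ι → MvPolynomial P k, ∀ i : ι,
        evz k z ((∑ u ∈ Z, (MvPolynomial.X u : MvPolynomial P k) • f u) i) = evz k z (f z i) := by
      intro f i
      rw [Finset.sum_apply, map_sum, Finset.sum_eq_single z]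
      · rw [Pi.smul_apply, smul_eq_mul, map_mul, X6_evz, if_pos rfl, one_mul]
      · intro u _ hu
        rw [Pi.smul_apply, smul_eq_mul, map_mul, X6_evz, if_neg hu, zero_mul]
      · intro h
        exact absurd hzZ h
    have h1 : evz k z ((∑ z ∈ Z, (MvPolynomial.X z : MvPolynomial P k) • x z) ⬝ᵥ ∑ z ∈ Z, (MvPolynomial.X z : MvPolynomial P k) • w z) = evz k z (x z ⬝ᵥ w z) := by
      rw [dotProduct, map_sum, dotProduct, map_sum]
      refine Finset.sum_congr rfl fun i _ => ?_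
      rw [map_mul, map_mul, hsum, hsum]
    rw [h1]
    exact (hwx z hzZ).2.2

end Pool.Agent.Lib.H90S
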