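import Pool.Agent.Lib.H90S.X3
import Pool.Agent.Lib.H90S.X6

/-!
H90S, X7: the semilinear action on polynomial vectors and Lemma X for matrices.
-/

noncomputable section

namespace Pool.Agent.Lib.H90S

variable {k P ι Γ : Type*} [Field k] [CommGroup P] [Fintype P] [DecidableEq P] [Fintype ι] [DecidableEq ι] [Group Γ]

/-- The automorphism of the polynomial ring that permutes the variables by `π g`. -/
def permAut (k : Type*) [Field k] (π : Γ →* MulAut P) (g : Γ) : MvPolynomial P k ≃+* MvPolynomial P k :=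
  (MvPolynomial.renameEquiv k (π g).toEquiv).toRingEquiv

private theorem X7_ap (π : Γ →* MulAut P) (g : Γ) (F : MvPolynomial P k) :
    permAut k π g F = MvPolynomial.rename (fun u => π g u) F := rfl

private theorem X7_C (π : Γ →* MulAut P) (g : Γ) (a : k) :
    permAut k π g (MvPolynomial.C a) = MvPolynomial.C a := by
  rw [X7_ap, MvPolynomial.rename_C]

private theorem X7_X (π : Γ →* MulAut P) (g : Γ) (u : P) :
    permAut k π g (MvPolynomial.X u) = MvPolynomial.X (π g u) := by
  rw [X7_ap, MvPolynomial.rename_X]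

private theorem X7_one (π : Γ →* MulAut P) (F : MvPolynomial P k) : permAut k π 1 F = F := by
  have h1 : (fun u => π 1 u) = id := by
    funext u
    rw [map_one]
    rfl
  rw [X7_ap, h1, MvPolynomial.rename_id_apply]

private theorem X7_mulVec (π : Γ →* MulAut P) (g : Γ) (A : Matrix ι ι k) (y : ι → MvPolynomial P k) (i : ι) :
    permAut k π g (((A.map (MvPolynomial.C (σ := P))).mulVec y) i) =
      ((A.map (MvPolynomial.C (σ := P))).mulVec (fun j => permAut k π g (y j))) i := by
  show permAut k π g (∑ j, MvPolynomial.C (A i j) * y j) = ∑ j, MvPolynomial.C (A i j) * permAut k π g (y j)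
  rw [map_sum]
  refine Finset.sum_congr rfl fun j _ => ?_
  rw [map_mul, X7_C]

private theorem X7_mapmul (A B : Matrix ι ι k) :
    (A * B).map (MvPolynomial.C (σ := P)) = A.map (MvPolynomial.C (σ := P)) * B.map (MvPolynomial.C (σ := P)) :=
  Matrix.map_mul

private theorem X7_mapone : (1 : Matrix ι ι k).map (MvPolynomial.C (σ := P)) = 1 :=
  Matrix.map_one _ (map_zero _) (map_one _)

/-- `MvPolynomial.rename_rename`, `map_mul π`. -/
theorem permAut_mul (π : Γ →* MulAut P) (g h : Γ) (F : MvPolynomial P k) : permAut k π (g * h) F = permAut k π g (permAut k π h F) := by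
  have h1 : (fun u => π (g * h) u) = (fun u => π g u) ∘ (fun u => π h u) := by
    funext u
    rw [map_mul]
    rfl
  show MvPolynomial.rename (fun u => π (g * h) u) F =
    MvPolynomial.rename (fun u => π g u) (MvPolynomial.rename (fun u => π h u) F)
  rw [MvPolynomial.rename_rename, h1]

/-- `evz k z (τ_g F) = evz k (g⁻¹ z) F`: `MvPolynomial.aeval_rename`. -/
theorem evz_permAut (π : Γ →* MulAut P) (g : Γ) (z : P) (F : MvPolynomial P k) : evz k z (permAut k π g F) = evz k ((π g)⁻¹ z) F := by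
  show evz k z (MvPolynomial.rename (fun u => π g u) F) = evz k ((π g)⁻¹ z) F
  unfold evz
  rw [MvPolynomial.aeval_rename]
  congr 2
  funext u
  show (if π g u = z then (1 : k) else 0) = if u = (π g)⁻¹ z then 1 else 0
  have h1 : π g u = z ↔ u = (π g)⁻¹ z := by
    constructor
    · intro h
      rw [← h, MulAut.inv_apply_self]
    · intro h
      rw [h, MulAut.apply_inv_self]
  simp only [h1]

/-- The semilinear action on vectors. -/
def actV (π : Γ →* MulAut P) (σ : Γ →* Matrix ι ι k) (g : Γ) (v : ι → MvPolynomial P k) : ι → MvPolynomial P k :=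
  ((σ g).map (MvPolynomial.C (σ := P))).mulVec (fun i => permAut k π g (v i))

/-- The dual action on covectors. -/
def actW (π : Γ →* MulAut P) (σ : Γ →* Matrix ι ι k) (g : Γ) (x : ι → MvPolynomial P k) : ι → MvPolynomial P k :=
  Matrix.vecMul (fun i => permAut k π g (x i)) ((σ g⁻¹).map (MvPolynomial.C (σ := P)))

/-- `(σ g⁻¹) * (σ g) = 1`, `permAut` is a ring homomorphism. -/
theorem actW_actV (π : Γ →* MulAut P) (σ : Γ →* Matrix ι ι k) (g : Γ) (x v : ι → MvPolynomial P k) :
    actW π σ g x ⬝ᵥ actV π σ g v = permAut k π g (x ⬝ᵥ v) := by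
  unfold actW actV
  rw [← Matrix.dotProduct_mulVec, Matrix.mulVec_mulVec, ← X7_mapmul, ← map_mul, inv_mul_cancel, map_one, X7_mapone,
    Matrix.one_mulVec]
  show ∑ i, permAut k π g (x i) * permAut k π g (v i) = permAut k π g (∑ i, x i * v i)
  rw [map_sum]
  exact Finset.sum_congr rfl fun i _ => (map_mul _ _ _).symm

/-- `permAut` fixes constants; `permAut_mul`; `map_mul σ`. -/
theorem actV_mul (π : Γ →* MulAut P) (σ : Γ →* Matrix ι ι k) (g h : Γ) (v : ι → MvPolynomial P k) : actV π σ (g * h) v = actV π σ g (actV π σ h v) := by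
  have h1 : (fun i => permAut k π g (actV π σ h v i)) =
      ((σ h).map (MvPolynomial.C (σ := P))).mulVec (fun j => permAut k π g (permAut k π h (v j))) := by
    funext i
    exact X7_mulVec π g (σ h) _ i
  have h2 : (fun i => permAut k π (g * h) (v i)) = fun j => permAut k π g (permAut k π h (v j)) := by
    funext i
    exact permAut_mul π g h (v i)
  show ((σ (g * h)).map (MvPolynomial.C (σ := P))).mulVec (fun i => permAut k π (g * h) (v i)) =
    ((σ g).map (MvPolynomial.C (σ := P))).mulVec (fun i => permAut k π g (actV π σ h v i))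
  rw [h1, h2, Matrix.mulVec_mulVec, map_mul, X7_mapmul]

theorem actV_one (π : Γ →* MulAut P) (σ : Γ →* Matrix ι ι k) (v : ι → MvPolynomial P k) : actV π σ 1 v = v := by
  have h1 : (fun i => permAut k π 1 (v i)) = v := by
    funext i
    exact X7_one π (v i)
  unfold actV
  rw [h1, map_one, X7_mapone, Matrix.one_mulVec]

private theorem X7_mapT (π : Γ →* MulAut P) (ρ : P →* Matrix ι ι k) (g : Γ) :
    (genT ρ).map (permAut k π g) = ∑ u : P, (MvPolynomial.X (π g u) : MvPolynomial P k) •
      ((ρ u - 1).map (MvPolynomial.C (σ := P))) := by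
  ext1 i j
  rw [Matrix.map_apply, genT, Matrix.sum_apply, Matrix.sum_apply, map_sum]
  refine Finset.sum_congr rfl fun u _ => ?_
  rw [Matrix.smul_apply, Matrix.smul_apply, Matrix.map_apply, smul_eq_mul, smul_eq_mul, map_mul, X7_X, X7_C]

private theorem X7_comm (π : Γ →* MulAut P) (ρ : P →* Matrix ι ι k) (σ : Γ →* Matrix ι ι k)
    (hσ : ∀ g u, σ g * ρ u = ρ (π g u) * σ g) (g : Γ) :
    genT ρ * (σ g).map (MvPolynomial.C (σ := P)) =
      (σ g).map (MvPolynomial.C (σ := P)) * (genT ρ).map (permAut k π g) := by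
  rw [X7_mapT, genT, Finset.sum_mul, Finset.mul_sum]
  rw [← Equiv.sum_comp (π g).toEquiv (fun u => (MvPolynomial.X u : MvPolynomial P k) •
      ((ρ u - 1).map (MvPolynomial.C (σ := P))) * (σ g).map (MvPolynomial.C (σ := P)))]
  refine Finset.sum_congr rfl fun u _ => ?_
  show (MvPolynomial.X (π g u) : MvPolynomial P k) • ((ρ (π g u) - 1).map (MvPolynomial.C (σ := P))) *
      (σ g).map (MvPolynomial.C (σ := P)) = _
  rw [Matrix.smul_mul, Matrix.mul_smul, ← X7_mapmul, ← X7_mapmul, sub_mul, mul_sub, hσ, one_mul, mul_one]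

/-- `T` commutes with the action: `T * C (σ g) = C (σ g) * τ_g T` (entrywise `permAut`), because `ρ (π g u) * σ g = σ g * ρ u` and `τ_g (X u) = X (π g u)` (reindex the sum over `u`). -/
theorem genT_actV (π : Γ →* MulAut P) (ρ : P →* Matrix ι ι k) (σ : Γ →* Matrix ι ι k) (hσ : ∀ g u, σ g * ρ u = ρ (π g u) * σ g) (g : Γ) (v : ι → MvPolynomial P k) :
    (genT ρ).mulVec (actV π σ g v) = actV π σ g ((genT ρ).mulVec v) := by
  have h1 : (fun i => permAut k π g (((genT ρ).mulVec v) i)) =
      ((genT ρ).map (permAut k π g)).mulVec (fun j => permAut k π g (v j)) := by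
    funext i
    show permAut k π g (∑ j, genT ρ i j * v j) = ∑ j, permAut k π g (genT ρ i j) * permAut k π g (v j)
    rw [map_sum]
    exact Finset.sum_congr rfl fun j _ => map_mul _ _ _
  unfold actV
  rw [Matrix.mulVec_mulVec, X7_comm π ρ σ hσ g, ← Matrix.mulVec_mulVec, h1]

private theorem X7_pow (π : Γ →* MulAut P) (ρ : P →* Matrix ι ι k) (σ : Γ →* Matrix ι ι k)
    (hσ : ∀ g u, σ g * ρ u = ρ (π g u) * σ g) (g : Γ) (m : ℕ) (v : ι → MvPolynomial P k) :
    ((genT ρ) ^ m).mulVec (actV π σ g v) = actV π σ g (((genT ρ) ^ m).mulVec v) := by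
  induction m generalizing v with
  | zero => rw [pow_zero, Matrix.one_mulVec, Matrix.one_mulVec]
  | succ m ih =>
    rw [pow_succ, ← Matrix.mulVec_mulVec, genT_actV π ρ σ hσ g v, ih, Matrix.mulVec_mulVec]

/-- The covector version, for powers of `T`: from `genT_actV` (induction for powers) and `actW_actV`: for all `v`, `(actW g x ᵥ* T ^ m) ⬝ᵥ actV g v = actW g x ⬝ᵥ actV g (T ^ m *ᵥ v) = τ_g ((x ᵥ* T ^ m) ⬝ᵥ v)`; every vector is `actV g` of a vector. -/
theorem genT_actW (π : Γ →* MulAut P) (ρ : P →* Matrix ι ι k) (σ : Γ →* Matrix ι ι k) (hσ : ∀ g u, σ g * ρ u = ρ (π g u) * σ g) (g : Γ) (m : ℕ) {x : ι → MvPolynomial P k}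
    (hx : Matrix.vecMul x ((genT ρ) ^ m) = 0) : Matrix.vecMul (actW π σ g x) ((genT ρ) ^ m) = 0 := by
  refine dotProduct_eq_zero _ fun y => ?_
  have hy : y = actV π σ g (actV π σ g⁻¹ y) := by
    rw [← actV_mul, mul_inv_cancel, actV_one]
  rw [hy, ← Matrix.dotProduct_mulVec, X7_pow π ρ σ hσ g m, actW_actV, Matrix.dotProduct_mulVec, hx,
    zero_dotProduct, map_zero]

/-- The value at a point: `evz k z (actV g v i) = ((σ g) *ᵥ (evz k (g⁻¹ z) ∘ v)) i`. -/
theorem evz_actV (π : Γ →* MulAut P) (σ : Γ →* Matrix ι ι k) (g : Γ) (z : P) (v : ι → MvPolynomial P k) (i : ι) :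
    evz k z (actV π σ g v i) = ((σ g).mulVec (fun j => evz k ((π g)⁻¹ z) (v j))) i := by
  show evz k z (∑ j, MvPolynomial.C (σ g i j) * permAut k π g (v j)) =
    ∑ j, σ g i j * evz k ((π g)⁻¹ z) (v j)
  rw [map_sum]
  refine Finset.sum_congr rfl fun j _ => ?_
  have h1 : evz k z (MvPolynomial.C (σ g i j)) = σ g i j := by
    unfold evz
    rw [MvPolynomial.aeval_C]
    rfl
  rw [map_mul, h1, evz_permAut]

end Pool.Agent.Lib.H90S
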