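import Pool.Agent.Lib.H90S.X7

/-!
H90S, X8: Lemma X.
-/

noncomputable section

namespace Pool.Agent.Lib.H90S

variable {k P ι Γ : Type*} [Field k] [CommGroup P] [Fintype P] [DecidableEq P] [Fintype ι] [DecidableEq ι] [Group Γ] [Fintype Γ]

/-- The functions `N g = x ⬝ᵥ actV g w` satisfy the cocycle relation: `X5_generic` for `x1 = x`, `x2 = actW g x`, `w1 = actV (g * h) w`, `w2 = actV g w` (`genT_actV`, `genT_actW`), with `actW g x ⬝ᵥ actV g w = τ_g (N 1)` and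
`actW g x ⬝ᵥ actV (g * h) w = τ_g (N h)` (`actV_mul`, `actW_actV`, `actV_one`). -/
theorem X8_cocycle {p : ℕ} [Fact p.Prime] [CharP k p] (π : Γ →* MulAut P) (ρ : P →* Matrix ι ι k) (hP : ∀ u : P, ρ u ^ p = 1) (σ : Γ →* Matrix ι ι k)
    (hσ : ∀ g u, σ g * ρ u = ρ (π g u) * σ g) {z : P} (hz : (ρ z - 1).rank + ((ρ z - 1) ^ (p - 1)).rank + 1 = Fintype.card ι)
    {w x : ι → MvPolynomial P k} (hw : (genT ρ).mulVec w = 0) (hx : Matrix.vecMul x ((genT ρ) ^ (p - 1)) = 0) (g h : Γ) :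
    (x ⬝ᵥ actV π σ (g * h) w) * permAut k π g (x ⬝ᵥ actV π σ 1 w) = (x ⬝ᵥ actV π σ g w) * permAut k π g (x ⬝ᵥ actV π σ h w) := by
  have hV : ∀ g' : Γ, (genT ρ).mulVec (actV π σ g' w) = 0 := by
    intro g'
    rw [genT_actV π ρ σ hσ g' w, hw]
    unfold actV
    have h0 : (fun i : ι => permAut k π g' ((0 : ι → MvPolynomial P k) i)) = 0 := by
      funext i
      exact map_zero _
    rw [h0, Matrix.mulVec_zero]
  have key := X5_generic ρ hP hz (hV (g * h)) (hV g) hx (genT_actW π ρ σ hσ g (p - 1) hx)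
  rw [actW_actV, actV_mul, actW_actV] at key
  rw [actV_one, actV_mul]
  exact key

omit [CommGroup P] [Fintype P] [DecidableEq ι] in
private theorem X8a_dot (z : P) (a b : ι → MvPolynomial P k) :
    evz k z (a ⬝ᵥ b) = (fun i => evz k z (a i)) ⬝ᵥ (fun i => evz k z (b i)) := by
  simp only [dotProduct, map_sum, map_mul]

omit [CommGroup P] [Fintype P] [DecidableEq ι] in
private theorem X8a_mulVec (z : P) (A : Matrix ι ι (MvPolynomial P k)) (b : ι → MvPolynomial P k) (h : A.mulVec b = 0) :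
    (A.map (evz k z)).mulVec (fun i => evz k z (b i)) = 0 := by
  funext i
  have h1 : (A.mulVec b) i = 0 := by rw [h]; rfl
  have h2 : evz k z ((A.mulVec b) i) = 0 := by rw [h1, map_zero]
  refine Eq.trans ?_ h2
  simp only [Matrix.mulVec, dotProduct, map_sum, map_mul, Matrix.map_apply]

omit [CommGroup P] [Fintype P] [DecidableEq ι] in
private theorem X8a_vecMul (z : P) (A : Matrix ι ι (MvPolynomial P k)) (b : ι → MvPolynomial P k) (h : Matrix.vecMul b A = 0) :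
    Matrix.vecMul (fun i => evz k z (b i)) (A.map (evz k z)) = 0 := by
  funext i
  have h1 : (Matrix.vecMul b A) i = 0 := by rw [h]; rfl
  have h2 : evz k z ((Matrix.vecMul b A) i) = 0 := by rw [h1, map_zero]
  refine Eq.trans ?_ h2
  simp only [Matrix.vecMul, dotProduct, map_sum, map_mul, Matrix.map_apply]

/-- `N g` does not vanish at `z ∈ Z`: put `v' = ` value of `w` at `g⁻¹ z ∈ Z`, `x' = ` value of `x` at `z`. `evz_actV`: the value is `x' ⬝ᵥ σ g v'`. If it were `0`: `σ g v' ∈ ker (ρ z - 1)`, by `X6_range` (with the value of `w` at `z`) `σ g v' = (ρ z - 1) ^ (p - 1) y`, so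
`v' = (ρ (g⁻¹ z) - 1) ^ (p - 1) (σ g⁻¹ y)`, and the value of `x` at `g⁻¹ z` kills it, contradicting `evz (g⁻¹ z) (x ⬝ᵥ w) ≠ 0`. -/
theorem X8_ne {p : ℕ} [Fact p.Prime] [CharP k p] (π : Γ →* MulAut P) (ρ : P →* Matrix ι ι k) (hP : ∀ u : P, ρ u ^ p = 1) (σ : Γ →* Matrix ι ι k)
    (hσ : ∀ g u, σ g * ρ u = ρ (π g u) * σ g) {Z : Finset P} (hZ : ∀ z ∈ Z, ∀ g, π g z ∈ Z)
    (hz : ∀ z ∈ Z, (ρ z - 1).rank + ((ρ z - 1) ^ (p - 1)).rank + 1 = Fintype.card ι) {w x : ι → MvPolynomial P k} (hw : (genT ρ).mulVec w = 0)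
    (hx : Matrix.vecMul x ((genT ρ) ^ (p - 1)) = 0) (hxw : ∀ z ∈ Z, evz k z (x ⬝ᵥ w) ≠ 0) {z : P} (hzZ : z ∈ Z) (g : Γ) :
    evz k z (x ⬝ᵥ actV π σ g w) ≠ 0 := by
  intro h0
  have hp : 1 ≤ p := (Fact.out : p.Prime).one_lt.le
  obtain ⟨z', hz'⟩ : ∃ z' : P, z' = (π g)⁻¹ z := ⟨_, rfl⟩
  have hgz' : π g z' = z := by
    rw [hz', MulAut.apply_inv_self]
  have hz'Z : z' ∈ Z := by
    rw [hz', ← map_inv]
    exact hZ z hzZ g⁻¹
  have hcomm : (ρ z - 1) * σ g = σ g * (ρ z' - 1) := by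
    rw [sub_mul, mul_sub, hσ g z', hgz', one_mul, mul_one]
  have hcommp : ∀ m : ℕ, (ρ z - 1) ^ m * σ g = σ g * (ρ z' - 1) ^ m := by
    intro m
    induction m with
    | zero => rw [pow_zero, pow_zero, one_mul, mul_one]
    | succ m ih => rw [pow_succ, mul_assoc, hcomm, ← mul_assoc, ih, mul_assoc, ← pow_succ]
  have hinv : σ g * σ g⁻¹ = 1 := by rw [← map_mul, mul_inv_cancel, map_one]
  have hinv' : σ g⁻¹ * σ g = 1 := by rw [← map_mul, inv_mul_cancel, map_one]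
  have hcommi : σ g⁻¹ * (ρ z - 1) ^ (p - 1) = (ρ z' - 1) ^ (p - 1) * σ g⁻¹ := by
    calc σ g⁻¹ * (ρ z - 1) ^ (p - 1) = σ g⁻¹ * ((ρ z - 1) ^ (p - 1) * σ g) * σ g⁻¹ := by
          rw [mul_assoc, mul_assoc, hinv, mul_one]
      _ = (ρ z' - 1) ^ (p - 1) * σ g⁻¹ := by rw [hcommp, ← mul_assoc, hinv', one_mul]
  have hwz : ∀ y : P, (ρ y - 1).mulVec (fun i => evz k y (w i)) = 0 := by
    intro y
    rw [← X4_spec ρ y]
    exact X8a_mulVec y _ w hw
  have hxz : ∀ y : P, Matrix.vecMul (fun i => evz k y (x i)) ((ρ y - 1) ^ (p - 1)) = 0 := by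
    intro y
    rw [← X4_spec_pow ρ y]
    exact X8a_vecMul y _ x hx
  have hu : (ρ z - 1).mulVec ((σ g).mulVec (fun j => evz k z' (w j))) = 0 := by
    rw [Matrix.mulVec_mulVec, hcomm, ← Matrix.mulVec_mulVec, hwz z', Matrix.mulVec_zero]
  have hxu : (fun i => evz k z (x i)) ⬝ᵥ ((σ g).mulVec (fun j => evz k z' (w j))) = 0 := by
    rw [X8a_dot] at h0
    have h3 : (fun i => evz k z (actV π σ g w i)) = (σ g).mulVec (fun j => evz k z' (w j)) := by
      funext i
      rw [evz_actV, hz']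
    rw [h3] at h0
    exact h0
  have hxv : (fun i => evz k z (x i)) ⬝ᵥ (fun i => evz k z (w i)) ≠ 0 := by
    rw [← X8a_dot]
    exact hxw z hzZ
  obtain ⟨y, hy⟩ := X6_range (ρ z - 1) hp (X4_nilp_z ρ hP z) (hz z hzZ) (hwz z) (hxz z) hxv hu hxu
  have hv' : (fun j => evz k z' (w j)) = ((ρ z' - 1) ^ (p - 1)).mulVec ((σ g⁻¹).mulVec y) := by
    rw [Matrix.mulVec_mulVec, ← hcommi, ← Matrix.mulVec_mulVec, ← hy, Matrix.mulVec_mulVec, hinv', Matrix.one_mulVec]
  apply hxw z' hz'Z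
  rw [X8a_dot, hv', Matrix.dotProduct_mulVec, hxz z', zero_dotProduct]

omit [CommGroup P] [Fintype P] [DecidableEq ι] in
private theorem X8b_dot (z : P) (a b : ι → MvPolynomial P k) :
    evz k z (a ⬝ᵥ b) = (fun i => evz k z (a i)) ⬝ᵥ (fun i => evz k z (b i)) := by
  simp only [dotProduct, map_sum, map_mul]

omit [CommGroup P] [Fintype P] [DecidableEq ι] in
private theorem X8b_mulVec (z : P) (A : Matrix ι ι (MvPolynomial P k)) (b : ι → MvPolynomial P k) (h : A.mulVec b = 0) :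
    (A.map (evz k z)).mulVec (fun i => evz k z (b i)) = 0 := by
  funext i
  have h1 : (A.mulVec b) i = 0 := by rw [h]; rfl
  have h2 : evz k z ((A.mulVec b) i) = 0 := by rw [h1, map_zero]
  refine Eq.trans ?_ h2
  simp only [Matrix.mulVec, dotProduct, map_sum, map_mul, Matrix.map_apply]

omit [CommGroup P] [Fintype P] [DecidableEq ι] in
private theorem X8b_vecMul (z : P) (A : Matrix ι ι (MvPolynomial P k)) (b : ι → MvPolynomial P k) (h : Matrix.vecMul b A = 0) :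
    Matrix.vecMul (fun i => evz k z (b i)) (A.map (evz k z)) = 0 := by
  funext i
  have h1 : (Matrix.vecMul b A) i = 0 := by rw [h]; rfl
  have h2 : evz k z ((Matrix.vecMul b A) i) = 0 := by rw [h1, map_zero]
  refine Eq.trans ?_ h2
  simp only [Matrix.vecMul, dotProduct, map_sum, map_mul, Matrix.map_apply]

omit [CommGroup P] [Fintype P] [DecidableEq P] in
private theorem X8b_unit (u : MvPolynomial P k) (hu : IsUnit u) : ∃ c : kˣ, u = MvPolynomial.C (c : k) := by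
  obtain ⟨c, hc, h⟩ := (MvPolynomial.isUnit_iff_eq_C_of_isReduced).1 hu
  exact ⟨hc.unit, h⟩

/-- The pointwise part. -/
private theorem X8b_point {p : ℕ} (hp : 1 ≤ p) (N S : Matrix ι ι k) (hN : N ^ p = 0) (hr : N.rank + (N ^ (p - 1)).rank + 1 = Fintype.card ι)
    (hc : N * S = S * N) {w x : ι → k} (hw : N.mulVec w = 0) (hx : Matrix.vecMul x (N ^ (p - 1)) = 0) (hxw : x ⬝ᵥ w ≠ 0) {κ : k}
    (hκ : x ⬝ᵥ S.mulVec w = κ * (x ⬝ᵥ w)) {v : ι → k} (hv : N.mulVec v = 0) :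
    ∃ y : ι → k, S.mulVec v - κ • v = (N ^ (p - 1)).mulVec y := by
  obtain ⟨y, hy⟩ : ∃ y : ι → k, v - ((x ⬝ᵥ v) / (x ⬝ᵥ w)) • w = (N ^ (p - 1)).mulVec y := by
    refine X6_range N hp hN hr hw hx hxw ?_ ?_
    · rw [Matrix.mulVec_sub, Matrix.mulVec_smul, hv, hw, smul_zero, sub_zero]
    · rw [dotProduct_sub, dotProduct_smul, smul_eq_mul, div_mul_cancel₀ _ hxw, sub_self]
  have hcp : N ^ (p - 1) * S = S * N ^ (p - 1) := ((show Commute N S from hc).pow_left (p - 1)).eq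
  refine X6_range N hp hN hr hw hx hxw ?_ ?_
  · rw [Matrix.mulVec_sub, Matrix.mulVec_smul, hv, smul_zero, sub_zero, Matrix.mulVec_mulVec, hc, ← Matrix.mulVec_mulVec, hv, Matrix.mulVec_zero]
  · have h1 : v = ((x ⬝ᵥ v) / (x ⬝ᵥ w)) • w + (N ^ (p - 1)).mulVec y := by rw [← hy]; abel
    have h2 : x ⬝ᵥ S.mulVec v = κ * (x ⬝ᵥ v) := by
      conv_lhs => rw [h1]
      rw [Matrix.mulVec_add, Matrix.mulVec_smul, dotProduct_add, dotProduct_smul, hκ, Matrix.mulVec_mulVec, ← hcp, ← Matrix.mulVec_mulVec,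
        Matrix.dotProduct_mulVec x (N ^ (p - 1)), hx, zero_dotProduct, add_zero, smul_eq_mul]
      field_simp
    rw [dotProduct_sub, dotProduct_smul, h2, smul_eq_mul, sub_self]

/-- Lemma X for matrices. If `Z` is empty take `f = 1`. `X6_global`, `X8_cocycle`, `X8_ne` (so `N g ≠ 0`), `X3_main` with `τ g = permAut k π g`: `C` and associates; a unit of `MvPolynomial P k` is a constant `C κ`, `κ ≠ 0` (`MvPolynomial.isUnit_iff_eq_C_of_isReduced` or `isUnit_iff`), so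
`N g * τ_g C = C κ_g * (C * τ_g (N 1))`. `κ` is multiplicative: substitute in the cocycle relation and cancel `C`, `N`, .... `C` does not vanish at `z ∈ Z` (it divides the product). For `π g z = z` evaluate at `z`: `N g (z) = κ_g N 1 (z)` (`evz_permAut`, `(π g)⁻¹ z = z`).
For `v` with `ρ z v = v`: by `X6_range` `v - c • w_z` is in the range of `(ρ z - 1) ^ (p - 1)`, where `w_z`, `x_z` are the values of `w`, `x` at `z` and `c = (x_z ⬝ᵥ v) / (x_z ⬝ᵥ w_z)`; `σ g` commutes with `ρ z`, so `σ g v - c • σ g w_z` is in the range too, and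
`x_z ⬝ᵥ (σ g v - κ_g • v) = c * N g (z) - κ_g * c * N 1 (z) = 0`; `X6_range` again. -/
theorem X8_matrix {p : ℕ} [Fact p.Prime] [CharP k p] (π : Γ →* MulAut P) (ρ : P →* Matrix ι ι k) (hP : ∀ u : P, ρ u ^ p = 1) (σ : Γ →* Matrix ι ι k)
    (hσ : ∀ g u, σ g * ρ u = ρ (π g u) * σ g) {Z : Finset P} (hZ : ∀ z ∈ Z, ∀ g, π g z ∈ Z)
    (hz : ∀ z ∈ Z, (ρ z - 1).rank + ((ρ z - 1) ^ (p - 1)).rank + 1 = Fintype.card ι) :
    ∃ f : Γ →* kˣ, ∀ z ∈ Z, ∀ g : Γ, π g z = z → ∀ v : ι → k, (ρ z).mulVec v = v →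
      ∃ y : ι → k, (σ g).mulVec v - (f g : k) • v = ((ρ z - 1) ^ (p - 1)).mulVec y := by
  classical
  by_cases hne : Z.Nonempty
  swap
  · refine ⟨1, fun z hzZ => absurd ⟨z, hzZ⟩ hne⟩
  obtain ⟨z0, hz0⟩ := hne
  obtain ⟨w, x, hw, hx, hxw⟩ := X6_global ρ hP Z hz
  set N : Γ → MvPolynomial P k := fun g => x ⬝ᵥ actV π σ g w with hNdef
  have hNz : ∀ z ∈ Z, ∀ g, evz k z (N g) ≠ 0 := fun z hzZ g => X8_ne π ρ hP σ hσ hZ hz hw hx hxw hzZ g
  have hN0 : ∀ g, N g ≠ 0 := by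
    intro g h0
    apply hNz z0 hz0 g
    rw [h0, map_zero]
  obtain ⟨C, hC0, hCdvd, hCas⟩ := X3_main (R := MvPolynomial P k) (fun g => permAut k π g) hN0
    (fun g h => X8_cocycle π ρ hP σ hσ (hz z0 hz0) hw hx g h)
  have hE : ∀ g, ∃ c : kˣ, N g * permAut k π g C = MvPolynomial.C (c : k) * (C * permAut k π g (N 1)) := by
    intro g
    obtain ⟨u, hu⟩ := (hCas g).symm
    obtain ⟨c, hc⟩ := X8b_unit (u : MvPolynomial P k) u.isUnit
    refine ⟨c, ?_⟩
    rw [← hc, mul_comm (u : MvPolynomial P k)]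
    exact hu.symm
  choose κ hκ using hE
  have hτC : ∀ (g : Γ) (a : k), permAut k π g (MvPolynomial.C a) = MvPolynomial.C a := by
    intro g a
    simp [permAut]
  have hmul : ∀ g h, κ (g * h) = κ g * κ h := by
    intro g h
    have e1 : N (g * h) * permAut k π g (N 1) = N g * permAut k π g (N h) := X8_cocycle π ρ hP σ hσ (hz z0 hz0) hw hx g h
    have e2 := hκ (g * h)
    rw [permAut_mul, permAut_mul] at e2
    have e3 : permAut k π g (N h) * permAut k π g (permAut k π h C) =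
        MvPolynomial.C (κ h : k) * (permAut k π g C * permAut k π g (permAut k π h (N 1))) := by
      rw [← map_mul, hκ h, map_mul, map_mul, hτC]
    have e4 := hκ g
    have hD : C * permAut k π g (N 1) * permAut k π g (permAut k π h (N 1)) ≠ 0 := by
      refine mul_ne_zero (mul_ne_zero hC0 ?_) ?_
      · exact fun h0 => hN0 1 ((map_eq_zero_iff (permAut k π g) (permAut k π g).injective).1 h0)
      · exact fun h0 => hN0 1 ((map_eq_zero_iff (permAut k π h) (permAut k π h).injective).1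
          ((map_eq_zero_iff (permAut k π g) (permAut k π g).injective).1 h0))
    have e5 : MvPolynomial.C (κ (g * h) : k) * (C * permAut k π g (N 1) * permAut k π g (permAut k π h (N 1))) =
        (MvPolynomial.C (κ g : k) * MvPolynomial.C (κ h : k)) * (C * permAut k π g (N 1) * permAut k π g (permAut k π h (N 1))) := by
      linear_combination (-permAut k π g (N 1)) * e2 + (permAut k π g (permAut k π h C)) * e1 + N g * e3 +
        (MvPolynomial.C (κ h : k) * permAut k π g (permAut k π h (N 1))) * e4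
    have e6 := mul_right_cancel₀ hD e5
    rw [← map_mul] at e6
    have e7 := MvPolynomial.C_injective P k e6
    apply Units.ext
    rw [e7, Units.val_mul]
  refine ⟨MonoidHom.mk' κ hmul, ?_⟩
  intro z hzZ g hg v hv
  have hp : 1 ≤ p := (Fact.out : p.Prime).one_lt.le
  have hginv : (π g)⁻¹ z = z := by
    rw [MulAut.inv_def]
    exact ((π g).symm_apply_eq).2 hg.symm
  have hCz : evz k z C ≠ 0 := by
    intro h0
    obtain ⟨D, hD⟩ := hCdvd
    have h1 : evz k z (∏ h, N h) = 0 := by rw [hD, map_mul, h0, zero_mul]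
    rw [map_prod, Finset.prod_eq_zero_iff] at h1
    obtain ⟨h, _, h2⟩ := h1
    exact hNz z hzZ h h2
  have hev : evz k z (N g) = (κ g : k) * evz k z (N 1) := by
    have h1 : evz k z (N g * permAut k π g C) = evz k z (MvPolynomial.C (κ g : k) * (C * permAut k π g (N 1))) := by rw [hκ g]
    rw [map_mul, map_mul, map_mul, evz_permAut, evz_permAut, hginv] at h1
    have h2 : evz k z (MvPolynomial.C (κ g : k)) = (κ g : k) := by simp [evz]
    rw [h2] at h1
    apply mul_right_cancel₀ hCz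
    rw [h1]
    ring
  have hNg : evz k z (N g) = (fun i => evz k z (x i)) ⬝ᵥ (σ g).mulVec (fun i => evz k z (w i)) := by
    rw [hNdef, X8b_dot]
    have h3 : (fun i => evz k z (actV π σ g w i)) = (σ g).mulVec (fun i => evz k z (w i)) := by
      funext i
      rw [evz_actV, hginv]
    rw [h3]
  have hN1 : evz k z (N 1) = (fun i => evz k z (x i)) ⬝ᵥ (fun i => evz k z (w i)) := by
    rw [hNdef]
    show evz k z (x ⬝ᵥ actV π σ 1 w) = _
    rw [actV_one, X8b_dot]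
  have hxw' : (fun i => evz k z (x i)) ⬝ᵥ (fun i => evz k z (w i)) ≠ 0 := by
    rw [← hN1]
    exact hNz z hzZ 1
  have hcomm : (ρ z - 1) * σ g = σ g * (ρ z - 1) := by
    rw [sub_mul, mul_sub, hσ g z, hg, one_mul, mul_one]
  have hvz : (ρ z - 1).mulVec v = 0 := by
    rw [Matrix.sub_mulVec, hv, Matrix.one_mulVec, sub_self]
  refine X8b_point hp (ρ z - 1) (σ g) (X4_nilp_z ρ hP z) (hz z hzZ) hcomm (w := fun i => evz k z (w i)) (x := fun i => evz k z (x i)) ?_ ?_ hxw' ?_ hvz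
  · rw [← X4_spec ρ z]
    exact X8b_mulVec z _ w hw
  · rw [← X4_spec_pow ρ z]
    exact X8b_vecMul z _ x hx
  · rw [← hNg, hev, hN1]
    rfl

end Pool.Agent.Lib.H90S
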